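import Mathlib

/-!
Alternating orderings of points and cuts: the cycle merging argument (after the library module
for MP_719c39_co) and a Hall type criterion.
-/

set_option autoImplicit false

open Finset Equiv

namespace Pool.Agent.KS6_19.AO

section perm

variable {L : Type*} [DecidableEq L] [Fintype L]

/-- Multiplying by a transposition of elements of different cycles joins the cycles. -/
theorem join (τ : Perm L) (a b : L) (hab : ¬ τ.SameCycle a b) :
    (∀ x, τ.SameCycle a x → (swap a b * τ).SameCycle a x) ∧ (swap a b * τ).SameCycle a b := by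
  set τ' := swap a b * τ with hτ'
  have happ : ∀ x, τ' x = swap a b (τ x) := fun x => rfl
  have h1 : ∀ k : ℕ, τ'.SameCycle a ((τ ^ k) a) := by
    intro k
    induction k with
    | zero => exact Perm.SameCycle.refl _ _
    | succ k ih =>
      by_cases h : τ ((τ ^ k) a) = a
      · rw [pow_succ', Perm.mul_apply, h]
      · have hb : τ ((τ ^ k) a) ≠ b := by
          intro hb
          apply hab
          rw [← hb, ← Perm.mul_apply, ← pow_succ']
          exact ⟨((k + 1 : ℕ) : ℤ), by rw [zpow_natCast]⟩
        rw [pow_succ', Perm.mul_apply]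
        have : τ' ((τ ^ k) a) = τ ((τ ^ k) a) := by
          rw [happ, swap_apply_of_ne_of_ne h hb]
        rw [← this]
        exact (Perm.sameCycle_apply_right).mpr ih
  have h2 : ∀ k : ℕ, τ'.SameCycle b ((τ ^ k) b) := by
    intro k
    induction k with
    | zero => exact Perm.SameCycle.refl _ _
    | succ k ih =>
      by_cases h : τ ((τ ^ k) b) = b
      · rw [pow_succ', Perm.mul_apply, h]
      · have hb : τ ((τ ^ k) b) ≠ a := by
          intro hb
          apply hab
          apply Perm.SameCycle.symm
          rw [← hb, ← Perm.mul_apply, ← pow_succ']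
          exact ⟨((k + 1 : ℕ) : ℤ), by rw [zpow_natCast]⟩
        rw [pow_succ', Perm.mul_apply]
        have : τ' ((τ ^ k) b) = τ ((τ ^ k) b) := by
          rw [happ, swap_apply_of_ne_of_ne hb h]
        rw [← this]
        exact (Perm.sameCycle_apply_right).mpr ih
  constructor
  · intro x hx
    obtain ⟨k, -, hk⟩ := hx.exists_pow_eq'
    rw [← hk]
    exact h1 k
  · have hb : τ.SameCycle b (τ.symm b) :=
      Perm.sameCycle_symm_apply_right.mpr (Perm.SameCycle.refl _ _)
    obtain ⟨k, -, hk⟩ := hb.exists_pow_eq'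
    have h3 := h2 k
    rw [hk] at h3
    have h4 : τ' (τ.symm b) = a := by
      rw [happ, Equiv.apply_symm_apply, swap_apply_right]
    have h5 : τ'.SameCycle b a := by
      rw [← h4]
      exact (Perm.sameCycle_apply_right).mpr h3
    exact h5.symm

end perm

open Classical in
/-- **Merging the cycles.** -/
theorem merge {P L : Type*} [Fintype P] [Fintype L] (A : P → L → Prop) (n : ℕ)
    (hL : Fintype.card L = n)
    (l₀ : L) (s₀ r₀ : L ≃ P) (h₀ : ∀ l, l ≠ l₀ → A (s₀ l) l ∧ ¬ A (r₀ l) l) :
    ∃ (p : Fin n → P) (l : Fin n → L), Function.Bijective p ∧ Function.Bijective l ∧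
      ∀ (i : ℕ) (h : i + 1 < n), l ⟨i, by omega⟩ ≠ l₀ ∧ A (p ⟨i, by omega⟩) (l ⟨i, by omega⟩) ∧
        ¬ A (p ⟨i + 1, h⟩) (l ⟨i, by omega⟩) := by
  -- choose the pair with the longest cycle
  set good : Finset ((L ≃ P) × (L ≃ P)) :=
    univ.filter (fun q => ∀ l, l ≠ l₀ → A (q.1 l) l ∧ ¬ A (q.2 l) l) with hgood
  have hne : good.Nonempty := ⟨(s₀, r₀), by rw [hgood, mem_filter]; exact ⟨mem_univ _, h₀⟩⟩
  obtain ⟨⟨s, r⟩, hsr, hmax⟩ := exists_max_image good
    (fun q => (univ.filter (fun l => Perm.SameCycle (q.2.trans q.1.symm) l₀ l)).card) hne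
  rw [hgood, mem_filter] at hsr
  have hsr := hsr.2
  simp only at hsr
  set τ : Perm L := r.trans s.symm with hτ
  have hsτ : ∀ x, s (τ x) = r x := fun x => by
    rw [hτ, Equiv.trans_apply, Equiv.apply_symm_apply]
  have bigger : ∀ (s' r' : L ≃ P) (l' : L), (∀ l, l ≠ l₀ → A (s' l) l ∧ ¬ A (r' l) l) →
      ¬ τ.SameCycle l₀ l' → (∀ x, τ.SameCycle l₀ x → Perm.SameCycle (r'.trans s'.symm) l₀ x) →
      Perm.SameCycle (r'.trans s'.symm) l₀ l' → False := by
    intro s' r' l' hok hl' hsub hin
    have h1 : (univ.filter (fun l => Perm.SameCycle (r'.trans s'.symm) l₀ l)).card ≤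
        (univ.filter (fun l => τ.SameCycle l₀ l)).card :=
      hmax (s', r') (by rw [hgood, mem_filter]; exact ⟨mem_univ _, hok⟩)
    have h2 : univ.filter (fun l => τ.SameCycle l₀ l) ⊂
        univ.filter (fun l => Perm.SameCycle (r'.trans s'.symm) l₀ l) := by
      rw [ssubset_iff_subset_ne]
      constructor
      · intro x hx
        rw [mem_filter] at hx ⊢
        exact ⟨mem_univ _, hsub x hx.2⟩
      · intro heq
        have : l' ∈ univ.filter (fun l => Perm.SameCycle (r'.trans s'.symm) l₀ l) := by
          rw [mem_filter]; exact ⟨mem_univ _, hin⟩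
        rw [← heq, mem_filter] at this
        exact hl' this.2
    have h3 := card_lt_card h2
    omega
  have notS : ∀ l l', τ.SameCycle l₀ l → ¬ τ.SameCycle l₀ l' → (l ≠ l₀ → A (s l') l) →
      ¬ A (s l) l' := by
    intro l l' hl hl' h1 h2
    have hl'0 : l' ≠ l₀ := by rintro rfl; exact hl' (Perm.SameCycle.refl _ _)
    have hnot : ¬ τ.SameCycle l l' := fun h => hl' (hl.trans h)
    obtain ⟨j1, j2⟩ := join τ l l' hnot
    have htau : r.trans (((swap l l').trans s).symm) = swap l l' * τ := by
      ext x
      simp [hτ]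
    apply bigger ((swap l l').trans s) r l' _ hl'
    · rw [htau]
      intro x hx
      exact (j1 l₀ hl.symm).symm.trans (j1 x (hl.symm.trans hx))
    · rw [htau]
      exact (j1 l₀ hl.symm).symm.trans j2
    · intro x hx
      refine ⟨?_, (hsr x hx).2⟩
      rw [Equiv.trans_apply]
      by_cases hxl : x = l
      · subst hxl
        rw [swap_apply_left]
        exact h1 hx
      · by_cases hxl' : x = l'
        · subst hxl'
          rw [swap_apply_right]
          exact h2
        · rw [swap_apply_of_ne_of_ne hxl hxl']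
          exact (hsr x hx).1
  have notR : ∀ l l', τ.SameCycle l₀ l → ¬ τ.SameCycle l₀ l' → (l ≠ l₀ → ¬ A (r l') l) →
      A (r l) l' := by
    intro l l' hl hl' h1
    by_contra h2
    have hl'0 : l' ≠ l₀ := by rintro rfl; exact hl' (Perm.SameCycle.refl _ _)
    have hτl : τ.SameCycle l₀ (τ l) := Perm.sameCycle_apply_right.mpr hl
    have hτl' : ¬ τ.SameCycle l₀ (τ l') := fun h => hl' (Perm.sameCycle_apply_right.mp h)
    have hnot : ¬ τ.SameCycle (τ l) (τ l') := fun h => hτl' (hτl.trans h)
    obtain ⟨j1, j2⟩ := join τ (τ l) (τ l') hnot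
    have htau : ((swap l l').trans r).trans s.symm = swap (τ l) (τ l') * τ := by
      have : swap (τ l) (τ l') * τ = τ * swap l l' := by
        rw [Equiv.swap_apply_apply]
        simp
      rw [this]
      ext x
      simp [hτ]
    apply bigger s ((swap l l').trans r) (τ l') _ hτl'
    · rw [htau]
      intro x hx
      exact (j1 l₀ hτl.symm).symm.trans (j1 x (hτl.symm.trans hx))
    · rw [htau]
      exact (j1 l₀ hτl.symm).symm.trans j2
    · intro x hx
      refine ⟨(hsr x hx).1, ?_⟩
      rw [Equiv.trans_apply]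
      by_cases hxl : x = l
      · subst hxl
        rw [swap_apply_left]
        exact h1 hx
      · by_cases hxl' : x = l'
        · subst hxl'
          rw [swap_apply_right]
          exact h2
        · rw [swap_apply_of_ne_of_ne hxl hxl']
          exact (hsr x hx).2
  have hmem : ∀ k : ℕ, τ.SameCycle l₀ ((τ ^ k) l₀) := fun k => ⟨(k : ℤ), by rw [zpow_natCast]⟩
  have hiter : ∀ k : ℕ, (τ ^ k) l₀ = τ^[k] l₀ := fun k => by rw [Perm.iterate_eq_pow]
  have hper : 0 < Function.minimalPeriod τ l₀ := by
    apply Function.minimalPeriod_pos_of_mem_periodicPts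
    refine ⟨orderOf τ, orderOf_pos τ, ?_⟩
    show τ^[orderOf τ] l₀ = l₀
    rw [← hiter, pow_orderOf_eq_one, Perm.one_apply]
  have hminp : ∀ j : ℕ, 0 < j → j < Function.minimalPeriod τ l₀ → (τ ^ j) l₀ ≠ l₀ := by
    intro j h1 h2 h3
    rw [hiter] at h3
    exact Function.not_isPeriodicPt_of_pos_of_lt_minimalPeriod (by omega) h2 h3
  have hall : ∀ l, τ.SameCycle l₀ l := by
    intro l'
    by_contra hl'
    have claim : ∀ k : ℕ, k < Function.minimalPeriod τ l₀ → ∀ l', ¬ τ.SameCycle l₀ l' →
        A (r ((τ ^ k) l₀)) l' := by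
      intro k
      induction k with
      | zero =>
        intro _ l' hl'
        exact notR l₀ l' (Perm.SameCycle.refl _ _) hl' (fun h => absurd rfl h)
      | succ k ih =>
        intro hk l' hl'
        have ih := ih (by omega)
        have hsm : s ((τ ^ (k + 1)) l₀) = r ((τ ^ k) l₀) := by
          rw [pow_succ', Perm.mul_apply, hsτ]
        apply notR _ l' (hmem (k + 1)) hl'
        intro _ hA
        have h3 : ¬ τ.SameCycle l₀ (τ l') := fun h => hl' (Perm.sameCycle_apply_right.mp h)
        have h4 := ih (τ l') h3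
        rw [← hsm] at h4
        have h5 : A (s (τ l')) ((τ ^ (k + 1)) l₀) := by rw [hsτ]; exact hA
        exact notS _ _ (hmem (k + 1)) h3 (fun _ => h5) h4
    obtain ⟨K, hK⟩ : ∃ K, Function.minimalPeriod τ l₀ = K + 1 := ⟨_, (Nat.succ_pred_eq_of_pos hper).symm⟩
    have h1 := claim K (by omega) l' hl'
    have h2 : s l₀ = r ((τ ^ K) l₀) := by
      rw [← hsτ, ← Perm.mul_apply, ← pow_succ', hiter, ← hK, Function.iterate_minimalPeriod]
    rw [← h2] at h1
    exact notS l₀ l' (Perm.SameCycle.refl _ _) hl' (fun h => absurd rfl h) h1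
  -- the cycle has length `n`
  have hinj : Function.Injective
      (fun i : Fin (Function.minimalPeriod τ l₀) => (τ ^ (i : ℕ)) l₀) := by
    intro i j hij
    simp only [hiter] at hij
    exact Fin.ext ((Function.iterate_eq_iterate_iff_of_lt_minimalPeriod i.2 j.2).mp hij)
  have hsurj : Function.Surjective
      (fun i : Fin (Function.minimalPeriod τ l₀) => (τ ^ (i : ℕ)) l₀) := by
    intro y
    obtain ⟨k, -, hk⟩ := (hall y).exists_pow_eq'
    refine ⟨⟨k % Function.minimalPeriod τ l₀, Nat.mod_lt _ hper⟩, ?_⟩
    simp only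
    rw [hiter, Function.iterate_mod_minimalPeriod_eq, ← hiter, hk]
  have hcard : Function.minimalPeriod τ l₀ = n := by
    have := Fintype.card_of_bijective ⟨hinj, hsurj⟩
    rw [Fintype.card_fin, hL] at this
    exact this
  set f : Fin n → L := fun i => (τ ^ ((i : ℕ) + 1)) l₀ with hf
  have hfinj : Function.Injective f := by
    intro i j hij
    simp only [hf, pow_succ', Perm.mul_apply] at hij
    have h1 := τ.injective hij
    simp only [hiter] at h1
    exact Fin.ext ((Function.iterate_eq_iterate_iff_of_lt_minimalPeriod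
      (by rw [hcard]; exact i.2) (by rw [hcard]; exact j.2)).mp h1)
  have hfbij : Function.Bijective f :=
    (Fintype.bijective_iff_injective_and_card f).mpr ⟨hfinj, by rw [Fintype.card_fin, hL]⟩
  refine ⟨fun i => s (f i), f, s.bijective.comp hfbij, hfbij, ?_⟩
  intro i h
  have hne : f ⟨i, by omega⟩ ≠ l₀ := hminp (i + 1) (by omega) (by rw [hcard]; exact h)
  have h1 := hsr _ hne
  refine ⟨hne, h1.1, ?_⟩
  have h2 : s (f ⟨i + 1, h⟩) = r (f ⟨i, by omega⟩) := by
    simp only [hf]
    rw [pow_succ' τ (i + 1), Perm.mul_apply, hsτ]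
  simp only
  rw [h2]
  exact h1.2


/-- An injection of a set with one element less extends to a bijection of the option type. -/
theorem extendOption {G P : Type*} [Fintype G] [Fintype P] (f : G → P)
    (hf : Function.Injective f) (hc : Fintype.card G + 1 = Fintype.card P) :
    ∃ e : Option G ≃ P, ∀ g, e (some g) = f g := by
  classical
  have hx : ∃ x : P, ∀ l, f l ≠ x := by
    by_contra hcon
    push Not at hcon
    have hsurj : Function.Surjective f := fun x => hcon x
    have h1 := Fintype.card_le_of_surjective f hsurj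
    omega
  obtain ⟨x, hx⟩ := hx
  let g : Option G → P := fun o => o.elim x f
  have hg : Function.Injective g := by
    intro a b hab
    cases a with
    | none =>
      cases b with
      | none => rfl
      | some b => exact absurd hab.symm (hx b)
    | some a =>
      cases b with
      | none => exact absurd hab (hx a)
      | some b => exact congrArg some (hf hab)
  have hbij : Function.Bijective g :=
    (Fintype.bijective_iff_injective_and_card g).mpr ⟨hg, by rw [Fintype.card_option, hc]⟩
  exact ⟨Equiv.ofBijective g hbij, fun _ => rfl⟩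

/-- An alternating ordering for the relation `A p l` (`p` is on the left side of `l`): the `n`
points are listed as `p 0, …, p (n - 1)` and there are different `l 0, …, l (n - 2)` such that
`p i` is on the left side and `p (i + 1)` is on the right side of `l i`. -/
def AltOrder {P L : Type*} (A : P → L → Prop) (n : ℕ) : Prop :=
  ∃ (p : Fin n → P) (l : Fin (n - 1) → L), Function.Bijective p ∧ Function.Injective l ∧
    ∀ (i : ℕ) (h : i + 1 < n), A (p ⟨i, by omega⟩) (l ⟨i, by omega⟩) ∧
      ¬ A (p ⟨i + 1, h⟩) (l ⟨i, by omega⟩)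

open Classical in
/-- the members of the family with a point of `U` on the left and a point of `W` on the right -/
noncomputable def cuts {P L : Type*} [Fintype L] (A : P → L → Prop) (U W : Finset P) : Finset L :=
  univ.filter (fun l : L => (∃ u ∈ U, A u l) ∧ ∃ w ∈ W, ¬ A w l)

theorem mem_cuts {P L : Type*} [Fintype L] (A : P → L → Prop) (U W : Finset P) (l : L) :
    l ∈ cuts A U W ↔ (∃ u ∈ U, A u l) ∧ ∃ w ∈ W, ¬ A w l := by
  simp [cuts]

open Classical in
/-- the criterion is necessary -/
theorem criterion_of_altOrder {P L : Type*} [Fintype P] [Fintype L] (A : P → L → Prop) (n : ℕ)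
    (h : AltOrder A n) (U W : Finset P) : U.card + W.card ≤ (cuts A U W).card + n + 1 := by
  obtain ⟨p, l, hp, hl, h⟩ := h
  have hP : Fintype.card P = n := by
    rw [← Fintype.card_of_bijective hp, Fintype.card_fin]
  rcases Nat.eq_zero_or_pos n with hn | hn
  · have h1 : U.card ≤ Fintype.card P := card_le_univ U
    have h2 : W.card ≤ Fintype.card P := card_le_univ W
    omega
  obtain ⟨k, rfl⟩ : ∃ k, n = k + 1 := ⟨n - 1, by omega⟩
  set IU : Finset (Fin k) := univ.filter (fun i => p i.castSucc ∈ U) with hIU
  set IW : Finset (Fin k) := univ.filter (fun i => p i.succ ∈ W) with hIW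
  have hU : U.card ≤ IU.card + 1 := by
    have h1 : U ⊆ insert (p (Fin.last k)) (IU.image (fun i => p i.castSucc)) := by
      intro x hx
      obtain ⟨j, rfl⟩ := hp.2 x
      rw [mem_insert, mem_image]
      refine Fin.lastCases (motive := fun j => p j ∈ U → p j = p (Fin.last k) ∨
        ∃ a ∈ IU, p a.castSucc = p j) ?_ ?_ j hx
      · intro _; exact Or.inl rfl
      · intro i hi
        exact Or.inr ⟨i, by rw [hIU, mem_filter]; exact ⟨mem_univ _, hi⟩, rfl⟩
    exact (card_le_card h1).trans ((card_insert_le _ _).trans (Nat.succ_le_succ card_image_le))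
  have hW : W.card ≤ IW.card + 1 := by
    have h1 : W ⊆ insert (p 0) (IW.image (fun i => p i.succ)) := by
      intro x hx
      obtain ⟨j, rfl⟩ := hp.2 x
      rw [mem_insert, mem_image]
      refine Fin.cases (motive := fun j => p j ∈ W → p j = p 0 ∨
        ∃ a ∈ IW, p a.succ = p j) ?_ ?_ j hx
      · intro _; exact Or.inl rfl
      · intro i hi
        exact Or.inr ⟨i, by rw [hIW, mem_filter]; exact ⟨mem_univ _, hi⟩, rfl⟩
    exact (card_le_card h1).trans ((card_insert_le _ _).trans (Nat.succ_le_succ card_image_le))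
  have hI : (IU ∩ IW).card ≤ (cuts A U W).card := by
    apply card_le_card_of_injOn (fun i : Fin k => l ⟨i.1, i.2⟩)
    · intro i hi
      rw [mem_coe, mem_inter, hIU, hIW, mem_filter, mem_filter] at hi
      rw [mem_coe, cuts, mem_filter]
      have h1 := h i.1 (by have := i.2; omega)
      exact ⟨mem_univ _, ⟨_, hi.1.2, h1.1⟩, _, hi.2.2, h1.2⟩
    · intro i _ j _ hij
      simpa using hl hij
  have h1 := card_union_add_card_inter IU IW
  have h2 : (IU ∪ IW).card ≤ k := by
    have := card_le_univ (IU ∪ IW)
    rwa [Fintype.card_fin] at this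
  omega

open Classical in
/-- the system of representatives -/
theorem representatives {P L : Type*} [Fintype P] [Fintype L] (A : P → L → Prop) (n : ℕ)
    (hP : Fintype.card P = n)
    (hcrit : ∀ U W : Finset P, U.card + W.card ≤ (cuts A U W).card + n + 1) :
    ∃ f : P ⊕ L → Option (L ⊕ P), Function.Injective f ∧
      (∀ p, f (Sum.inl p) = none ∨ ∃ l, A p l ∧ f (Sum.inl p) = some (Sum.inl l)) ∧
      (∀ l, f (Sum.inr l) = none ∨ f (Sum.inr l) = some (Sum.inl l) ∨
        ∃ p, ¬ A p l ∧ f (Sum.inr l) = some (Sum.inr p)) := by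
  set t : P ⊕ L → Finset (Option (L ⊕ P)) := fun x => univ.filter (fun y => y = none ∨
    (match x with
      | Sum.inl p => ∃ l, A p l ∧ y = some (Sum.inl l)
      | Sum.inr l => y = some (Sum.inl l) ∨ ∃ p, ¬ A p l ∧ y = some (Sum.inr p))) with ht
  obtain ⟨f, hf, hft⟩ := (Finset.all_card_le_biUnion_card_iff_exists_injective t).mp (by
    intro s
    rcases s.eq_empty_or_nonempty with rfl | hs
    · simp
    set U : Finset P := univ.filter (fun p => Sum.inl p ∈ s) with hU
    set K : Finset L := univ.filter (fun l => Sum.inr l ∈ s) with hK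
    have hscard : s.card = U.card + K.card := by
      have : s = U.disjSum K := by
        ext x
        rw [mem_disjSum]
        constructor
        · intro hx
          cases x with
          | inl p => exact Or.inl ⟨p, by rw [hU, mem_filter]; exact ⟨mem_univ _, hx⟩, rfl⟩
          | inr l => exact Or.inr ⟨l, by rw [hK, mem_filter]; exact ⟨mem_univ _, hx⟩, rfl⟩
        · rintro (⟨p, hp, rfl⟩ | ⟨l, hl, rfl⟩)
          · rw [hU, mem_filter] at hp; exact hp.2
          · rw [hK, mem_filter] at hl; exact hl.2
      rw [this, card_disjSum]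
    set W : Finset P := univ.filter (fun p => ∀ l ∈ K, A p l) with hW
    set C : Finset L := cuts A U W with hC
    have hdisj : Disjoint K C := by
      rw [disjoint_left]
      intro l hl hl'
      rw [hC, cuts, mem_filter] at hl'
      obtain ⟨-, -, w, hw, hwl⟩ := hl'
      rw [hW, mem_filter] at hw
      exact hwl (hw.2 l hl)
    have hsub : insertNone ((K ∪ C).disjSum Wᶜ) ⊆ s.biUnion t := by
      intro y hy
      rw [mem_biUnion]
      cases y with
      | none =>
        obtain ⟨x, hx⟩ := hs
        exact ⟨x, hx, by simp [ht]⟩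
      | some y =>
        rw [some_mem_insertNone, mem_disjSum] at hy
        rcases hy with ⟨l, hl, rfl⟩ | ⟨p, hp, rfl⟩
        · rw [mem_union] at hl
          rcases hl with hl | hl
          · rw [hK, mem_filter] at hl
            exact ⟨_, hl.2, by simp [ht]⟩
          · rw [hC, cuts, mem_filter] at hl
            obtain ⟨-, ⟨u, hu, hul⟩, -⟩ := hl
            rw [hU, mem_filter] at hu
            exact ⟨_, hu.2, by simp [ht, hul]⟩
        · rw [mem_compl, hW, mem_filter] at hp
          push Not at hp
          obtain ⟨l, hl, hpl⟩ := hp (mem_univ _)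
          rw [hK, mem_filter] at hl
          exact ⟨_, hl.2, by simp [ht, hpl]⟩
    have h1 := card_le_card hsub
    rw [card_insertNone, card_disjSum, card_union_of_disjoint hdisj] at h1
    have h2 : W.card + Wᶜ.card = n := by rw [card_add_card_compl, hP]
    have h3 := hcrit U W
    rw [← hC] at h3
    omega)
  refine ⟨f, hf, fun p => ?_, fun l => ?_⟩
  · simpa [ht] using hft (Sum.inl p)
  · simpa [ht] using hft (Sum.inr l)

open Classical in
/-- **The criterion is sufficient.** -/
theorem altOrder_of_criterion {P L : Type*} [Fintype P] [Fintype L] (A : P → L → Prop) (n : ℕ)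
    (hP : Fintype.card P = n)
    (hcrit : ∀ U W : Finset P, U.card + W.card ≤ (cuts A U W).card + n + 1) : AltOrder A n := by
  rcases Nat.eq_zero_or_pos n with hn | hn
  · subst hn
    have hP' : IsEmpty P := Fintype.card_eq_zero_iff.mp hP
    exact ⟨fun i => i.elim0, fun i => (Nat.not_lt_zero _ i.2).elim,
      ⟨fun i => i.elim0, fun x => (hP'.false x).elim⟩, fun i => (Nat.not_lt_zero _ i.2).elim,
      fun i h => by omega⟩
  obtain ⟨f, hf, h1, h2⟩ := representatives A n hP hcrit
  -- the good points
  set good : Finset P := univ.filter (fun p => ∃ (l : L) (q : P), A p l ∧ ¬ A q l ∧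
    f (Sum.inl p) = some (Sum.inl l) ∧ f (Sum.inr l) = some (Sum.inr q)) with hgood
  have hbad : ∀ p, p ∉ good → ∃ x : P ⊕ L, f x = none ∧
      (x = Sum.inl p ∨ ∃ l, f (Sum.inl p) = some (Sum.inl l) ∧ x = Sum.inr l) := by
    intro p hp
    rcases h1 p with h | ⟨l, hpl, h⟩
    · exact ⟨_, h, Or.inl rfl⟩
    · rcases h2 l with h' | h' | ⟨q, hql, h'⟩
      · exact ⟨_, h', Or.inr ⟨l, h, rfl⟩⟩
      · exfalso
        have := hf (h.trans h'.symm)
        exact absurd this (by simp)
      · exfalso
        apply hp
        rw [hgood, mem_filter]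
        exact ⟨mem_univ _, l, q, hpl, hql, h, h'⟩
  have hbad1 : (goodᶜ).card ≤ 1 := by
    rw [card_le_one]
    intro p hp p' hp'
    rw [mem_compl] at hp hp'
    obtain ⟨x, hx, hx'⟩ := hbad p hp
    obtain ⟨y, hy, hy'⟩ := hbad p' hp'
    have hxy : x = y := hf (hx.trans hy.symm)
    subst hxy
    rcases hx' with rfl | ⟨l, hl, rfl⟩
    · rcases hy' with h | ⟨l', _, h⟩
      · exact Sum.inl_injective h
      · exact absurd h (by simp)
    · rcases hy' with h | ⟨l', hl', h⟩
      · exact absurd h (by simp)
      · have : l = l' := Sum.inr_injective h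
        subst this
        exact Sum.inl_injective (hf (hl.trans hl'.symm))
  have hgc : n - 1 ≤ good.card := by
    have := card_add_card_compl good
    rw [hP] at this
    omega
  obtain ⟨G, hG, hGc⟩ := exists_subset_card_eq hgc
  have hch : ∀ g : G, ∃ lq : L × P, A g.1 lq.1 ∧ ¬ A lq.2 lq.1 ∧
      f (Sum.inl g.1) = some (Sum.inl lq.1) ∧ f (Sum.inr lq.1) = some (Sum.inr lq.2) := by
    intro g
    have := hG g.2
    rw [hgood, mem_filter] at this
    obtain ⟨-, l, q, h⟩ := this
    exact ⟨(l, q), h⟩
  choose lq hA hnA hfl hfq using hch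
  have hlinj : Function.Injective (fun g : G => (lq g).1) := by
    intro g g' hgg
    simp only at hgg
    have : f (Sum.inl g.1) = f (Sum.inl g'.1) := by rw [hfl, hfl, hgg]
    exact Subtype.ext (Sum.inl_injective (hf this))
  have hqinj : Function.Injective (fun g : G => (lq g).2) := by
    intro g g' hgg
    simp only at hgg
    have : f (Sum.inr (lq g).1) = f (Sum.inr (lq g').1) := by rw [hfq, hfq, hgg]
    exact hlinj (Sum.inr_injective (hf this))
  have hGP : Fintype.card G + 1 = Fintype.card P := by
    rw [Fintype.card_coe, hGc, hP]; omega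
  obtain ⟨s₀, hs₀⟩ := extendOption (fun g : G => g.1) Subtype.val_injective hGP
  obtain ⟨r₀, hr₀⟩ := extendOption (fun g : G => (lq g).2) hqinj hGP
  obtain ⟨p, l, hp, hl, h⟩ := merge (L := Option G)
    (fun x o => o.elim False (fun g => A x (lq g).1)) n
    (by rw [Fintype.card_option, hGP, hP]) none s₀ r₀ (by
      intro o ho
      cases o with
      | none => exact absurd rfl ho
      | some g =>
        rw [hs₀, hr₀]
        exact ⟨hA g, hnA g⟩)
  have hsome : ∀ i : Fin (n - 1), ∃ g : G, l ⟨i.1, by omega⟩ = some g := by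
    intro i
    have := (h i.1 (by have := i.2; omega)).1
    exact Option.ne_none_iff_exists'.mp this
  choose g hg using hsome
  refine ⟨p, fun i => (lq (g i)).1, hp, ?_, ?_⟩
  · intro i j hij
    have h3 := hlinj hij
    have h4 := hl.1 ((hg i).trans ((congrArg some h3).trans (hg j).symm))
    exact Fin.ext (by simpa using h4)
  · intro i hi
    have h3 := h i hi
    rw [hg ⟨i, by omega⟩] at h3
    exact ⟨h3.2.1, h3.2.2⟩

/-- **The Hall type criterion.** -/
theorem altOrder_iff {P L : Type*} [Fintype P] [Fintype L] (A : P → L → Prop) :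
    AltOrder A (Fintype.card P) ↔
      ∀ U W : Finset P, U.card + W.card ≤ (cuts A U W).card + Fintype.card P + 1 :=
  ⟨fun h U W => criterion_of_altOrder A _ h U W, fun h => altOrder_of_criterion A _ rfl h⟩

open Classical in
/-- The deficiency-one condition implies the criterion. -/
theorem criterion_of_deficiency {P L : Type*} [Fintype P] [Fintype L] (A : P → L → Prop)
    (h : ∀ X : Finset P, X.card ≤ (cuts A X X).card + 1) (U W : Finset P) :
    U.card + W.card ≤ (cuts A U W).card + Fintype.card P + 1 := by
  have h1 := h (U ∩ W)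
  have h2 : (cuts A (U ∩ W) (U ∩ W)).card ≤ (cuts A U W).card := by
    apply card_le_card
    intro l hl
    rw [cuts, mem_filter] at hl ⊢
    obtain ⟨-, ⟨u, hu, hul⟩, w, hw, hwl⟩ := hl
    exact ⟨mem_univ _, ⟨u, inter_subset_left hu, hul⟩, w, inter_subset_right hw, hwl⟩
  have h3 := card_union_add_card_inter U W
  have h4 : (U ∪ W).card ≤ Fintype.card P := card_le_univ _
  omega

end Pool.Agent.KS6_19.AO
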