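import Mathlib

set_option autoImplicit false

/-!
# Differential operators on polynomial rings in positive characteristic: definitions and tools
-/

open MvPolynomial Filter

namespace Pool.Agent.KS6_19.DN

universe u

/-- The divided power derivation `D_t`, `t ∈ ℕ^n`: the `k`-linear map
`x^v ↦ ∏ i, (v_i choose t_i) • x^(v - t)` of `k[x_1, …, x_n]`. For `t = single i m` this is
`D_{m,i}`. -/
noncomputable def D (k : Type u) [Field k] {n : ℕ} (t : Fin n →₀ ℕ) :
    MvPolynomial (Fin n) k →ₗ[k] MvPolynomial (Fin n) k :=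
  (MvPolynomial.basisMonomials (Fin n) k).constr k
    (fun v => monomial (v - t) ((∏ i, (v i).choose (t i) : ℕ) : k))

section basic

variable {k : Type u} [Field k] {n : ℕ}

theorem D_monomial (t v : Fin n →₀ ℕ) (c : k) :
    D k t (monomial v c) = monomial (v - t) (((∏ i, (v i).choose (t i) : ℕ) : k) * c) := by
  have h : (monomial v c : MvPolynomial (Fin n) k) =
      c • (MvPolynomial.basisMonomials (Fin n) k) v := by
    rw [MvPolynomial.coe_basisMonomials, smul_monomial, smul_eq_mul, mul_one]
  rw [h, map_smul, D, Module.Basis.constr_basis, smul_monomial, smul_eq_mul, mul_comm]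

theorem coeff_D (t u : Fin n →₀ ℕ) (q : MvPolynomial (Fin n) k) :
    coeff u (D k t q) = ((∏ i, (u i + t i).choose (t i) : ℕ) : k) * coeff (u + t) q := by
  induction q using MvPolynomial.induction_on' with
  | monomial v c =>
    rw [D_monomial, coeff_monomial, coeff_monomial]
    by_cases h : v = u + t
    · have h2 : v - t = u := by rw [h]; exact add_tsub_cancel_right u t
      rw [if_pos h2, if_pos h, h]
      rfl
    · rw [if_neg h, mul_zero]
      split_ifs with h2
      · have : ∃ i, v i < t i := by
          by_contra hc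
          push Not at hc
          apply h
          rw [← h2]
          exact (tsub_add_cancel_of_le (fun i => hc i)).symm
        obtain ⟨i, hi⟩ := this
        rw [Finset.prod_eq_zero (Finset.mem_univ i) (Nat.choose_eq_zero_of_lt hi)]
        simp
      · rfl
  | add p q hp hq =>
    rw [map_add, coeff_add, coeff_add, hp, hq, mul_add]

/-- The ring `𝒟` of `k`-linear differential operators on `R = k[x_1, …, x_n]`: the
`k`-subalgebra of `End_k R` generated by the multiplications by elements of `R` and by the
`D_{t,i}`. -/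
noncomputable def diffOps (k : Type u) [Field k] (n : ℕ) :
    Subalgebra k (Module.End k (MvPolynomial (Fin n) k)) :=
  Algebra.adjoin k
    (Set.range (fun r : MvPolynomial (Fin n) k => LinearMap.mulLeft k r) ∪
      Set.range (fun x : Fin n × ℕ => (D k (Finsupp.single x.1 x.2) :
        MvPolynomial (Fin n) k →ₗ[k] MvPolynomial (Fin n) k)))

/-- The ring `𝒟`, as a type. -/
def DO (k : Type u) [Field k] (n : ℕ) : Type u := diffOps k n

noncomputable instance (k : Type u) [Field k] (n : ℕ) : Ring (DO k n) :=
  inferInstanceAs (Ring (diffOps k n))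

noncomputable instance (k : Type u) [Field k] (n : ℕ) : Algebra k (DO k n) :=
  inferInstanceAs (Algebra k (diffOps k n))

/-- `𝒟` acts on `R` by applying operators. -/
noncomputable instance (k : Type u) [Field k] (n : ℕ) : Module (DO k n) (MvPolynomial (Fin n) k) :=
  inferInstanceAs (Module (diffOps k n) (MvPolynomial (Fin n) k))

instance (k : Type u) [Field k] (n : ℕ) : IsScalarTower k (DO k n) (MvPolynomial (Fin n) k) :=
  inferInstanceAs (IsScalarTower k (diffOps k n) (MvPolynomial (Fin n) k))

/-- The inclusion `𝒟 → End_k R`. -/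
noncomputable def toEnd (k : Type u) [Field k] (n : ℕ) :
    DO k n →ₐ[k] Module.End k (MvPolynomial (Fin n) k) := (diffOps k n).val

/-- The Bernstein filtration: `F_s` is the `k`-span of the products `x^a D_t` with
`∑ a_i + ∑ t_i ≤ s`. -/
noncomputable def bernstein (k : Type u) [Field k] (n s : ℕ) : Submodule k (DO k n) :=
  Submodule.span k {P | ∃ a t : Fin n →₀ ℕ, ∑ i, a i + ∑ i, t i ≤ s ∧
    toEnd k n P = LinearMap.mulLeft k (monomial a (1 : k)) *
      (D k t : MvPolynomial (Fin n) k →ₗ[k] MvPolynomial (Fin n) k)}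

/-- `F` is a `k`-filtration of the `𝒟`-module `M`: `F_0 ⊆ F_1 ⊆ …` are subspaces exhausting `M`
and `F_i F_j ⊆ F_(i+j)` for the Bernstein filtration. -/
structure IsFiltration (k : Type u) [Field k] (n : ℕ) {M : Type u} [AddCommGroup M] [Module k M]
    [Module (DO k n) M] (F : ℕ → Submodule k M) : Prop where
  mono : Monotone F
  exhaust : ∀ m : M, ∃ i, m ∈ F i
  smul_mem : ∀ i j : ℕ, ∀ P ∈ bernstein k n i, ∀ m ∈ F j, P • m ∈ F (i + j)

/-- `M` is holonomic: it has a `k`-filtration with `dim_k F_i ≤ C i^n` for all `i ≥ 1`. -/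
def IsHolonomic (k : Type u) [Field k] (n : ℕ) (M : Type u) [AddCommGroup M] [Module k M]
    [Module (DO k n) M] : Prop :=
  ∃ (F : ℕ → Submodule k M) (C : ℝ), IsFiltration k n F ∧
    ∀ i : ℕ, 1 ≤ i → Module.Finite k (F i) ∧ (Module.finrank k (F i) : ℝ) ≤ C * (i : ℝ) ^ n

theorem smul_apply' (P : DO k n) (v : MvPolynomial (Fin n) k) : P • v = toEnd k n P v := rfl

theorem D_zero : (D k (0 : Fin n →₀ ℕ)) = 1 := by
  ext v u
  simp [coeff_D]

theorem D_single_add (i : Fin n) (a : ℕ) (t : Fin n →₀ ℕ) (hi : t i = 0) :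
    D k (Finsupp.single i a + t) = (D k (Finsupp.single i a)) * (D k t) := by
  apply LinearMap.ext
  intro q
  ext u
  rw [Module.End.mul_apply, coeff_D, coeff_D, coeff_D, ← mul_assoc, ← Nat.cast_mul,
    ← Finset.prod_mul_distrib, add_assoc]
  congr 2
  refine Finset.prod_congr rfl fun j _ => ?_
  by_cases hj : j = i
  · subst hj
    simp [hi]
  · have h0 : (Finsupp.single i a) j = 0 := by
      rw [Finsupp.single_apply, if_neg (fun e => hj e.symm)]
    simp [h0]

theorem D_mem (t : Fin n →₀ ℕ) : D k t ∈ diffOps k n := by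
  induction t using Finsupp.induction with
  | zero => rw [D_zero]; exact (diffOps k n).one_mem
  | single_add i a t hi ha ih =>
    rw [D_single_add i a t (Finsupp.notMem_support_iff.1 hi)]
    exact (diffOps k n).mul_mem (Algebra.subset_adjoin (Or.inr ⟨(i, a), rfl⟩)) ih

/-- The operator `x^a D_t` as an element of `𝒟`. -/
noncomputable def op (k : Type u) [Field k] {n : ℕ} (a t : Fin n →₀ ℕ) : DO k n :=
  (⟨LinearMap.mulLeft k (monomial a (1 : k)) *
      (D k t : MvPolynomial (Fin n) k →ₗ[k] MvPolynomial (Fin n) k),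
    (diffOps k n).mul_mem (Algebra.subset_adjoin (Or.inl ⟨_, rfl⟩)) (D_mem t)⟩ : diffOps k n)

theorem op_mem {a t : Fin n →₀ ℕ} {s : ℕ} (h : ∑ i, a i + ∑ i, t i ≤ s) :
    op k a t ∈ bernstein k n s :=
  Submodule.subset_span ⟨a, t, h, rfl⟩

theorem op_smul (a t : Fin n →₀ ℕ) (v : MvPolynomial (Fin n) k) :
    op k a t • v = monomial a (1 : k) * D k t v := rfl

/-- filtrations pass to images -/
theorem IsHolonomic.of_surjective {M N : Type u} [AddCommGroup M] [Module k M]
    [Module (DO k n) M] [IsScalarTower k (DO k n) M] [AddCommGroup N] [Module k N]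
    [Module (DO k n) N] [IsScalarTower k (DO k n) N] (f : M →ₗ[DO k n] N)
    (hf : Function.Surjective f) (h : IsHolonomic k n M) : IsHolonomic k n N := by
  obtain ⟨F, C, ⟨hmono, hex, hmul⟩, hdim⟩ := h
  refine ⟨fun i => (F i).map (f.restrictScalars k), C, ⟨?_, ?_, ?_⟩, ?_⟩
  · intro i j hij
    exact Submodule.map_mono (hmono hij)
  · intro n
    obtain ⟨m, rfl⟩ := hf n
    obtain ⟨i, hi⟩ := hex m
    exact ⟨i, ⟨m, hi, rfl⟩⟩
  · rintro i j P hP _ ⟨m, hm, rfl⟩
    refine ⟨P • m, hmul i j P hP m hm, ?_⟩
    simp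
  · intro i hi
    obtain ⟨h1, h2⟩ := hdim i hi
    refine ⟨inferInstance, ?_⟩
    refine le_trans ?_ h2
    exact_mod_cast Submodule.finrank_map_le _ _

/-- polynomials of degree at most `i` in every variable -/
noncomputable def box (k : Type u) [Field k] (n i : ℕ) :
    Submodule k (MvPolynomial (Fin n) k) where
  carrier := {q | ∀ v, coeff v q ≠ 0 → ∀ j, v j ≤ i}
  zero_mem' := by
    intro v hv
    simp at hv
  add_mem' := by
    intro a b ha hb v hv
    by_cases h : coeff v a = 0
    · apply hb v
      intro h2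
      apply hv
      rw [coeff_add, h, h2, add_zero]
    · exact ha v h
  smul_mem' := by
    intro c a ha v hv
    apply ha v
    intro h2
    apply hv
    rw [coeff_smul, h2, smul_zero]

theorem mem_box {i : ℕ} {q : MvPolynomial (Fin n) k} :
    q ∈ box k n i ↔ ∀ v, coeff v q ≠ 0 → ∀ j, v j ≤ i := Iff.rfl

theorem box_finrank (i : ℕ) : Module.Finite k (box k n i) ∧
    Module.finrank k (box k n i) ≤ (i + 1) ^ n := by
  let φ : box k n i →ₗ[k] ((Fin n → Fin (i + 1)) → k) :=
    { toFun := fun q v => coeff (Finsupp.equivFunOnFinite.symm (fun j => (v j : ℕ))) q.1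
      map_add' := by
        intro a b; ext v; simp
      map_smul' := by
        intro c a; ext v; simp }
  have hφ : Function.Injective φ := by
    rw [← LinearMap.ker_eq_bot, LinearMap.ker_eq_bot']
    intro q hq
    apply Subtype.ext
    ext v
    by_contra hne
    have hv : coeff v q.1 ≠ 0 := hne
    have hb := q.2 v hv
    have h1 := congrFun hq (fun j => ⟨v j, Nat.lt_succ_of_le (hb j)⟩)
    apply hv
    have h2 : (Finsupp.equivFunOnFinite.symm (fun j => v j) : Fin n →₀ ℕ) = v := by
      ext j; rfl
    have h3 : φ q (fun j => ⟨v j, Nat.lt_succ_of_le (hb j)⟩) =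
        coeff (Finsupp.equivFunOnFinite.symm (fun j => v j)) q.1 := rfl
    rw [h3, h2] at h1
    exact h1
  refine ⟨Module.Finite.of_injective φ hφ, ?_⟩
  have h := LinearMap.finrank_le_finrank_of_injective hφ
  simpa using h

theorem isHolonomic_poly : IsHolonomic k n (MvPolynomial (Fin n) k) := by
  refine ⟨fun i => box k n i, 2 ^ n, ⟨?_, ?_, ?_⟩, ?_⟩
  · intro i j hij q hq v hv l
    exact (hq v hv l).trans hij
  · intro q
    refine ⟨q.support.sup (fun v => Finset.univ.sup (fun j => v j)), ?_⟩
    intro v hv j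
    exact (Finset.le_sup (f := fun j => v j) (Finset.mem_univ j)).trans
      (Finset.le_sup (f := fun v : Fin n →₀ ℕ => Finset.univ.sup (fun j => v j))
        (MvPolynomial.mem_support_iff.2 hv))
  · intro i j P hP m hm
    induction hP using Submodule.span_induction with
    | mem P h =>
      obtain ⟨a, t, hat, hP⟩ := h
      rw [smul_apply', hP]
      intro v hv l
      rw [Module.End.mul_apply, LinearMap.mulLeft_apply, coeff_monomial_mul'] at hv
      split_ifs at hv with hav
      · rw [one_mul, coeff_D] at hv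
        have h1 := hm _ (right_ne_zero_of_mul hv) l
        have h2 : a l ≤ ∑ i, a i := Finset.single_le_sum (fun _ _ => Nat.zero_le _)
          (Finset.mem_univ l)
        have h3 : a l ≤ v l := hav l
        simp only [Finsupp.coe_add, Finsupp.coe_tsub, Pi.add_apply, Pi.sub_apply] at h1
        omega
      · exact absurd rfl hv
    | zero => rw [zero_smul]; exact Submodule.zero_mem _
    | add x y _ _ hx hy => rw [add_smul]; exact Submodule.add_mem _ hx hy
    | smul c x _ hx => rw [smul_assoc]; exact Submodule.smul_mem _ _ hx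
  · intro i hi
    obtain ⟨h1, h2⟩ := box_finrank (k := k) (n := n) i
    refine ⟨h1, ?_⟩
    have h3 : ((Module.finrank k (box k n i) : ℕ) : ℝ) ≤ (((i + 1) ^ n : ℕ) : ℝ) := by
      exact_mod_cast h2
    refine h3.trans ?_
    push_cast
    rw [← mul_pow]
    apply pow_le_pow_left₀ (by positivity)
    have : (1 : ℝ) ≤ i := by exact_mod_cast hi
    linarith

end basic

end Pool.Agent.KS6_19.DN
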