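import Mathlib
import Pool.Agent.KS6_19.DN

set_option autoImplicit false

/-!
# A self-extension of `k[x_1, …, x_n]` of maximal growth
-/

open MvPolynomial Filter

namespace Pool.Agent.KS6_19.DN

universe u

section arith

variable (p : ℕ) [hp : Fact p.Prime]

include hp in
theorem choose_mul_pow (f a b : ℕ) : (p ^ f * a).choose (p ^ f * b) ≡ a.choose b [MOD p] := by
  induction f with
  | zero => simpa using Nat.ModEq.refl _
  | succ f ih =>
    have h := Choose.choose_modEq_choose_mod_mul_choose_div_nat (p := p)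
      (n := p ^ (f + 1) * a) (k := p ^ (f + 1) * b)
    have e1 : p ^ (f + 1) * a = p * (p ^ f * a) := by ring
    have e2 : p ^ (f + 1) * b = p * (p ^ f * b) := by ring
    rw [e1, e2] at h ⊢
    rw [Nat.mul_mod_right, Nat.mul_mod_right, Nat.mul_div_cancel_left _ hp.out.pos,
      Nat.mul_div_cancel_left _ hp.out.pos, Nat.choose_self, one_mul] at h
    exact h.trans ih

include hp in
theorem choose_add_pow (f j h t : ℕ) (ht : t < p ^ f) :
    (j + p ^ f * h).choose t ≡ j.choose t [MOD p] := by
  induction f generalizing j t with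
  | zero =>
    have : t = 0 := by simpa using ht
    subst this
    simpa using Nat.ModEq.refl _
  | succ f ih =>
    have h1 := Choose.choose_modEq_choose_mod_mul_choose_div_nat (p := p)
      (n := j + p ^ (f + 1) * h) (k := t)
    have h2 := Choose.choose_modEq_choose_mod_mul_choose_div_nat (p := p)
      (n := j) (k := t)
    have e1 : j + p ^ (f + 1) * h = j + p * (p ^ f * h) := by ring
    rw [e1] at h1 ⊢
    rw [Nat.add_mul_mod_self_left, Nat.add_mul_div_left _ _ hp.out.pos] at h1
    have h3 := ih (j / p) (t / p) (by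
      rw [Nat.div_lt_iff_lt_mul hp.out.pos]
      calc t < p ^ (f + 1) := ht
        _ = p ^ f * p := by ring)
    exact h1.trans ((Nat.ModEq.mul_left _ h3).trans h2.symm)

end arith

section expo

variable (p n : ℕ)

/-- heights of the blocks -/
def TT : ℕ → ℕ
  | 0 => 2
  | (f + 1) => TT f + 4 * (p ^ (f * f)) ^ n + 7

theorem TT_mono {f f' : ℕ} (h : f < f') : TT p n f + 4 * (p ^ (f * f)) ^ n + 7 ≤ TT p n f' := by
  induction f', h using Nat.le_induction with
  | base => exact le_refl _
  | succ m hm ih =>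
    have : TT p n (m + 1) = TT p n m + 4 * (p ^ (m * m)) ^ n + 7 := rfl
    omega

theorem TT_ge (f : ℕ) : 2 ≤ TT p n f := by
  cases f with
  | zero => exact le_refl _
  | succ f =>
    have : TT p n (f + 1) = TT p n f + 4 * (p ^ (f * f)) ^ n + 7 := rfl
    omega

/-- the indices of block `f` -/
abbrev Idx (f : ℕ) : Type := Fin n → Fin (p ^ (f * f))

/-- a number attached to every index -/
noncomputable def idx (f : ℕ) (j : Idx p n f) : ℕ := (Fintype.equivFin (Idx p n f) j : ℕ)

theorem idx_lt (f : ℕ) (j : Idx p n f) : idx p n f j < (p ^ (f * f)) ^ n := by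
  have h := (Fintype.equivFin (Idx p n f) j).2
  have e : Fintype.card (Idx p n f) = (p ^ (f * f)) ^ n := by simp
  exact lt_of_lt_of_eq h e

theorem idx_inj (f : ℕ) {j j' : Idx p n f} (h : idx p n f j = idx p n f j') : j = j' :=
  (Fintype.equivFin (Idx p n f)).injective (Fin.ext h)

/-- the exponent vector divided by `p ^ f` -/
noncomputable def mm (f : ℕ) (j : Idx p n f) : Fin n →₀ ℕ :=
  Finsupp.equivFunOnFinite.symm
    (fun i => (j i : ℕ) + p ^ (f * f) * (TT p n f + 4 * idx p n f j))

/-- the exponent vectors of block `f` -/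
noncomputable def ex (f : ℕ) (j : Idx p n f) : Fin n →₀ ℕ := (p ^ f) • mm p n f j

theorem mm_apply (f : ℕ) (j : Idx p n f) (i : Fin n) :
    mm p n f j i = (j i : ℕ) + p ^ (f * f) * (TT p n f + 4 * idx p n f j) := rfl

theorem ex_apply (f : ℕ) (j : Idx p n f) (i : Fin n) :
    ex p n f j i = p ^ f * ((j i : ℕ) + p ^ (f * f) * (TT p n f + 4 * idx p n f j)) := by
  rw [ex, Finsupp.smul_apply, mm_apply, smul_eq_mul]

theorem ex_upper (f : ℕ) (j : Idx p n f) (i : Fin n) :
    ex p n f j i + p ^ f * p ^ (f * f) * 2 ≤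
      p ^ f * p ^ (f * f) * (TT p n f + 4 * (p ^ (f * f)) ^ n) := by
  rw [ex_apply]
  have h1 := idx_lt p n f j
  have h2 : (j i : ℕ) < p ^ (f * f) := (j i).2
  generalize idx p n f j = e at *
  generalize (j i : ℕ) = a at *
  generalize (p ^ (f * f)) ^ n = N at *
  generalize p ^ (f * f) = q at *
  generalize TT p n f = T at *
  generalize p ^ f = Q at *
  have h3 : a + q * (T + 4 * e) + q * 2 ≤ q * (T + 4 * N) := by
    have : q * (4 * e + 4) ≤ q * (4 * N) := Nat.mul_le_mul_left _ (by omega)
    nlinarith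
  calc Q * (a + q * (T + 4 * e)) + Q * q * 2
      = Q * (a + q * (T + 4 * e) + q * 2) := by ring
    _ ≤ Q * (q * (T + 4 * N)) := Nat.mul_le_mul_left _ h3
    _ = Q * q * (T + 4 * N) := by ring

theorem ex_lower (f : ℕ) (j : Idx p n f) (i : Fin n) :
    p ^ f * p ^ (f * f) * TT p n f + p ^ f * (j i : ℕ) ≤ ex p n f j i := by
  rw [ex_apply]
  generalize idx p n f j = e at *
  generalize (j i : ℕ) = a at *
  generalize p ^ (f * f) = q at *
  generalize TT p n f = T at *
  generalize p ^ f = Q at *
  nlinarith [Nat.zero_le (Q * q * e)]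

variable [hp : Fact p.Prime]

include hp in
theorem pow_mono' {f f' : ℕ} (h : f ≤ f') : p ^ f * p ^ (f * f) ≤ p ^ f' * p ^ (f' * f') :=
  Nat.mul_le_mul (Nat.pow_le_pow_right hp.out.pos h)
    (Nat.pow_le_pow_right hp.out.pos (Nat.mul_le_mul h h))

include hp in
theorem sep {f f' : ℕ} (j : Idx p n f) (j' : Idx p n f')
    (hne : (⟨f, j⟩ : Σ f, Idx p n f) ≠ ⟨f', j'⟩) (i : Fin n) :
    ex p n f j i + 2 * (p ^ f * p ^ (f * f)) ≤ ex p n f' j' i ∨
      ex p n f' j' i + 2 * (p ^ f * p ^ (f * f)) ≤ ex p n f j i := by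
  rcases lt_trichotomy f f' with h | h | h
  · left
    have h1 := ex_upper p n f j i
    have h2 := ex_lower p n f' j' i
    have h3 := TT_mono p n h
    have h4 := pow_mono' p h.le
    have h5 : p ^ f * p ^ (f * f) * (TT p n f + 4 * (p ^ (f * f)) ^ n) ≤
        p ^ f' * p ^ (f' * f') * TT p n f' := Nat.mul_le_mul h4 (by omega)
    omega
  · subst h
    have hjj : j ≠ j' := by
      rintro rfl
      exact hne rfl
    have key : ∀ a b : Idx p n f, idx p n f a < idx p n f b →
        ex p n f a i + 2 * (p ^ f * p ^ (f * f)) ≤ ex p n f b i := by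
      intro a b hab
      rw [ex_apply, ex_apply]
      have h2 : (a i : ℕ) < p ^ (f * f) := (a i).2
      generalize idx p n f a = x at *
      generalize idx p n f b = y at *
      generalize (a i : ℕ) = a' at *
      generalize (b i : ℕ) = b' at *
      generalize p ^ (f * f) = q at *
      generalize TT p n f = T at *
      generalize p ^ f = Q at *
      have h3 : a' + q * (T + 4 * x) + 2 * q ≤ b' + q * (T + 4 * y) := by
        have : q * (4 * x + 4) ≤ q * (4 * y) := Nat.mul_le_mul_left _ (by omega)
        nlinarith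
      calc Q * (a' + q * (T + 4 * x)) + 2 * (Q * q) = Q * (a' + q * (T + 4 * x) + 2 * q) := by ring
        _ ≤ Q * (b' + q * (T + 4 * y)) := Nat.mul_le_mul_left _ h3
    rcases lt_trichotomy (idx p n f j) (idx p n f j') with h | h | h
    · exact Or.inl (key _ _ h)
    · exact absurd (idx_inj p n f h) hjj
    · exact Or.inr (key _ _ h)
  · right
    have h1 := ex_upper p n f' j' i
    have h2 := ex_lower p n f j i
    have h3 := TT_mono p n h
    have h4 := pow_mono' p h.le
    have h5 : p ^ f' * p ^ (f' * f') * (TT p n f' + 4 * (p ^ (f' * f')) ^ n) ≤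
        p ^ f * p ^ (f * f) * (TT p n f' + 4 * (p ^ (f' * f')) ^ n) := Nat.mul_le_mul_right _ h4
    have h6 : p ^ f * p ^ (f * f) * (TT p n f' + 4 * (p ^ (f' * f')) ^ n + 7) ≤
        p ^ f * p ^ (f * f) * TT p n f := Nat.mul_le_mul_left _ h3
    have h7 : p ^ f * p ^ (f * f) * (TT p n f' + 4 * (p ^ (f' * f')) ^ n + 7) =
        p ^ f * p ^ (f * f) * (TT p n f' + 4 * (p ^ (f' * f')) ^ n) + 7 * (p ^ f * p ^ (f * f)) := by
      ring
    omega

end expo

section construction

variable (p : ℕ) [hp : Fact p.Prime]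
variable {k : Type u} [Field k] [CharP k p] {n : ℕ}

include hp in
theorem D_pow_mul {f : ℕ} {t : Fin n →₀ ℕ} (ht : ∀ i, t i < p ^ f) (m : Fin n →₀ ℕ)
    (v : MvPolynomial (Fin n) k) :
    D k t (monomial (p ^ f • m) 1 * v) = monomial (p ^ f • m) 1 * D k t v := by
  induction v using MvPolynomial.induction_on' with
  | monomial w c =>
    rw [monomial_mul, one_mul, D_monomial, D_monomial, monomial_mul, one_mul]
    have hc : ((∏ i, ((p ^ f • m + w) i).choose (t i) : ℕ) : k) =
        ((∏ i, (w i).choose (t i) : ℕ) : k) := by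
      rw [Nat.cast_prod, Nat.cast_prod]
      refine Finset.prod_congr rfl fun i _ => ?_
      have h := choose_add_pow p f (w i) (m i) (t i) (ht i)
      have h2 := CharP.natCast_eq_natCast' k p h
      rw [Finsupp.add_apply, Finsupp.smul_apply, smul_eq_mul, add_comm]
      exact h2
    rw [hc]
    by_cases h : t ≤ w
    · rw [add_tsub_assoc_of_le h]
    · have : ∃ i, w i < t i := by
        by_contra hcon
        push Not at hcon
        exact h (fun i => hcon i)
      obtain ⟨i, hi⟩ := this
      rw [Finset.prod_eq_zero (Finset.mem_univ i) (Nat.choose_eq_zero_of_lt hi)]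
      simp
  | add a b ha hb =>
    rw [mul_add, map_add, ha, hb, map_add, mul_add]

include hp in
theorem commute_eventually (P : Module.End k (MvPolynomial (Fin n) k)) (hP : P ∈ diffOps k n) :
    ∃ f0 : ℕ, ∀ f, f0 ≤ f → ∀ (m : Fin n →₀ ℕ) (v : MvPolynomial (Fin n) k),
      P (monomial (p ^ f • m) 1 * v) = monomial (p ^ f • m) 1 * P v := by
  unfold diffOps at hP
  induction hP using Algebra.adjoin_induction with
  | mem x hx =>
    rcases hx with ⟨r, rfl⟩ | ⟨⟨i, t⟩, rfl⟩
    · refine ⟨0, fun f _ m v => ?_⟩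
      simp only [LinearMap.mulLeft_apply]
      ring
    · refine ⟨t, fun f hf m v => ?_⟩
      have h1 : t < p ^ f := lt_of_le_of_lt hf (Nat.lt_pow_self hp.out.one_lt)
      refine D_pow_mul p (fun j => ?_) m v
      rw [Finsupp.single_apply]
      split_ifs
      · exact h1
      · exact lt_of_le_of_lt (Nat.zero_le _) h1
  | algebraMap r =>
    refine ⟨0, fun f _ m v => ?_⟩
    simp [Module.algebraMap_end_apply]
  | add x y _ _ hx hy =>
    obtain ⟨f1, h1⟩ := hx
    obtain ⟨f2, h2⟩ := hy
    refine ⟨max f1 f2, fun f hf m v => ?_⟩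
    rw [LinearMap.add_apply, LinearMap.add_apply, h1 f (le_trans (le_max_left _ _) hf),
      h2 f (le_trans (le_max_right _ _) hf), mul_add]
  | mul x y _ _ hx hy =>
    obtain ⟨f1, h1⟩ := hx
    obtain ⟨f2, h2⟩ := hy
    refine ⟨max f1 f2, fun f hf m v => ?_⟩
    rw [Module.End.mul_apply, Module.End.mul_apply, h2 f (le_trans (le_max_right _ _) hf),
      h1 f (le_trans (le_max_left _ _) hf)]

/-- Block `f` of the formal element `w`. -/
noncomputable def block (k : Type u) [Field k] (n f : ℕ) : MvPolynomial (Fin n) k :=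
  ∑ j : Idx p n f, monomial (ex p n f j) 1

/-- The truncations of the formal element `w`. -/
noncomputable def wseq (k : Type u) [Field k] (n N : ℕ) : MvPolynomial (Fin n) k :=
  ∑ f ∈ Finset.range N, block p k n f

include hp in
theorem stab (P : DO k n) (v : MvPolynomial (Fin n) k) :
    ∃ c : MvPolynomial (Fin n) k,
      ∀ᶠ N in atTop, P • (v * wseq p k n N) = c + (P • v) * wseq p k n N := by
  obtain ⟨f0, h⟩ := commute_eventually p (toEnd k n P) (by exact (P : diffOps k n).2)
  have hb : ∀ f, f0 ≤ f → P • (v * block p k n f) = (P • v) * block p k n f := by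
    intro f hf
    rw [smul_apply', smul_apply', block, Finset.mul_sum, Finset.mul_sum, map_sum]
    refine Finset.sum_congr rfl fun j _ => ?_
    unfold ex
    rw [mul_comm v, h f hf, mul_comm]
  refine ⟨P • (v * wseq p k n f0) - (P • v) * wseq p k n f0, ?_⟩
  filter_upwards [eventually_ge_atTop f0] with N hN
  induction N, hN using Nat.le_induction with
  | base => ring
  | succ N hN ih =>
    have e : wseq p k n (N + 1) = wseq p k n N + block p k n N := Finset.sum_range_succ _ _
    rw [e, mul_add, smul_add, ih, hb N hN]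
    ring

/-- Sequences of polynomials that are eventually zero. -/
def evZero (k : Type u) [Field k] (n : ℕ) : Submodule (DO k n) (ℕ → MvPolynomial (Fin n) k) where
  carrier := {g | ∀ᶠ N in atTop, g N = 0}
  zero_mem' := Eventually.of_forall fun N => rfl
  add_mem' := by
    intro a b ha hb
    filter_upwards [ha, hb] with N h1 h2
    rw [Pi.add_apply, h1, h2, add_zero]
  smul_mem' := by
    intro P a ha
    filter_upwards [ha] with N h1
    rw [Pi.smul_apply, h1, smul_zero]

/-- The ambient `𝒟`-module of all sequences modulo the eventually zero ones. -/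
abbrev Seqs (k : Type u) [Field k] (n : ℕ) : Type u :=
  (ℕ → MvPolynomial (Fin n) k) ⧸ evZero k n

omit [CharP k p] hp in
theorem mk_eq {g h : ℕ → MvPolynomial (Fin n) k} :
    (Submodule.Quotient.mk g : Seqs k n) = Submodule.Quotient.mk h ↔
      ∀ᶠ N in atTop, g N = h N := by
  rw [Submodule.Quotient.eq]
  constructor
  · intro h
    filter_upwards [h] with N hN
    exact sub_eq_zero.1 hN
  · intro h
    change ∀ᶠ N in atTop, (g - _) N = 0
    filter_upwards [h] with N hN
    rw [Pi.sub_apply, hN, sub_self]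

/-- The `𝒟`-module `M = R + R w`. -/
noncomputable def bigM (k : Type u) [Field k] [CharP k p] (n : ℕ) :
    Submodule (DO k n) (Seqs k n) where
  carrier := {g | ∃ u v : MvPolynomial (Fin n) k,
    g = Submodule.Quotient.mk (fun N => u + v * wseq p k n N)}
  zero_mem' := by
    refine ⟨0, 0, ?_⟩
    rw [← Submodule.Quotient.mk_zero, mk_eq]
    exact Eventually.of_forall fun N => by simp
  add_mem' := by
    rintro _ _ ⟨u, v, rfl⟩ ⟨u', v', rfl⟩
    refine ⟨u + u', v + v', ?_⟩
    rw [← Submodule.Quotient.mk_add, mk_eq]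
    refine Eventually.of_forall fun N => ?_
    simp only [Pi.add_apply]
    ring
  smul_mem' := by
    rintro P _ ⟨u, v, rfl⟩
    obtain ⟨c, hc⟩ := stab p P v
    refine ⟨P • u + c, P • v, ?_⟩
    rw [← Submodule.Quotient.mk_smul, mk_eq]
    filter_upwards [hc] with N hN
    rw [Pi.smul_apply, smul_add, hN]
    ring

theorem mem_bigM (u v : MvPolynomial (Fin n) k) :
    (Submodule.Quotient.mk (fun N => u + v * wseq p k n N) : Seqs k n) ∈ bigM p k n :=
  ⟨u, v, rfl⟩

/-- The element `u + v w` of `M`. -/
noncomputable def elt (u v : MvPolynomial (Fin n) k) : bigM p k n :=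
  ⟨Submodule.Quotient.mk (fun N => u + v * wseq p k n N), mem_bigM p u v⟩

theorem elt_surj (m : bigM p k n) : ∃ u v : MvPolynomial (Fin n) k, m = elt p u v := by
  obtain ⟨_, u, v, rfl⟩ := m
  exact ⟨u, v, rfl⟩

theorem mk_elt (u v : MvPolynomial (Fin n) k) : (elt p u v : Seqs k n) =
    Submodule.Quotient.mk (fun N => u + v * wseq p k n N) := rfl

/-- The constants `R ⊆ M`. -/
noncomputable def constMap (k : Type u) [Field k] [CharP k p] (n : ℕ) :
    MvPolynomial (Fin n) k →ₗ[DO k n] bigM p k n where
  toFun u := elt p u 0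
  map_add' a b := by
    apply Subtype.ext
    rw [Submodule.coe_add, mk_elt, mk_elt, mk_elt, ← Submodule.Quotient.mk_add, mk_eq]
    refine Eventually.of_forall fun N => ?_
    simp only [Pi.add_apply]
    ring
  map_smul' P v := by
    apply Subtype.ext
    rw [RingHom.id_apply, Submodule.coe_smul, mk_elt, mk_elt, ← Submodule.Quotient.mk_smul, mk_eq]
    refine Eventually.of_forall fun N => ?_
    simp only [Pi.smul_apply, zero_mul, add_zero]

theorem constMap_injective : Function.Injective (constMap p k n) := by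
  intro a b h
  have h2 : (elt p a 0 : Seqs k n) = elt p b 0 := congrArg Subtype.val h
  rw [mk_elt, mk_elt, mk_eq] at h2
  obtain ⟨N, hN⟩ := h2.exists
  simpa using hN

/-- The submodule `M' = R` of `M`. -/
noncomputable def subM (k : Type u) [Field k] [CharP k p] (n : ℕ) :
    Submodule (DO k n) (bigM p k n) :=
  LinearMap.range (constMap p k n)

/-- The map `R → M / M'`, `v ↦ [v w]`. -/
noncomputable def quotMap (k : Type u) [Field k] [CharP k p] (n : ℕ) :
    MvPolynomial (Fin n) k →ₗ[DO k n] (bigM p k n ⧸ subM p k n) where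
  toFun v := Submodule.Quotient.mk (elt p 0 v)
  map_add' a b := by
    rw [← Submodule.Quotient.mk_add]
    congr 1
    apply Subtype.ext
    rw [Submodule.coe_add, mk_elt, mk_elt, mk_elt, ← Submodule.Quotient.mk_add, mk_eq]
    refine Eventually.of_forall fun N => ?_
    simp only [Pi.add_apply]
    ring
  map_smul' P v := by
    rw [RingHom.id_apply, ← Submodule.Quotient.mk_smul, eq_comm, Submodule.Quotient.eq]
    obtain ⟨c, hc⟩ := stab p P v
    refine ⟨c, ?_⟩
    apply Subtype.ext
    rw [Submodule.coe_sub, Submodule.coe_smul]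
    change (elt p c 0 : Seqs k n) = _
    rw [mk_elt, mk_elt, mk_elt, ← Submodule.Quotient.mk_smul, ← Submodule.Quotient.mk_sub, mk_eq]
    filter_upwards [hc] with N hN
    simp only [Pi.sub_apply, Pi.smul_apply, zero_add]
    rw [hN]
    ring

theorem quotMap_surjective : Function.Surjective (quotMap p k n) := by
  intro m
  obtain ⟨m, rfl⟩ := Submodule.Quotient.mk_surjective _ m
  obtain ⟨u, v, rfl⟩ := elt_surj p m
  refine ⟨v, ?_⟩
  change Submodule.Quotient.mk (elt p 0 v) = _
  rw [eq_comm, Submodule.Quotient.eq]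
  refine ⟨u, ?_⟩
  apply Subtype.ext
  rw [Submodule.coe_sub]
  change (elt p u 0 : Seqs k n) = _
  rw [mk_elt, mk_elt, mk_elt, ← Submodule.Quotient.mk_sub, mk_eq]
  refine Eventually.of_forall fun N => ?_
  simp only [Pi.sub_apply]
  ring

end construction

end Pool.Agent.KS6_19.DN
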