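import Mathlib
import Pool.Agent.KS6_19.DM

set_option autoImplicit false

/-!
# Growth of the extension
-/

open MvPolynomial Filter

namespace Pool.Agent.KS6_19.DN

universe u

/-- a function to `Fin` as an exponent vector -/
noncomputable def av {n N : ℕ} (a : Fin n → Fin N) : Fin n →₀ ℕ :=
  Finsupp.equivFunOnFinite.symm (fun i => (a i : ℕ))

theorem av_apply {n N : ℕ} (a : Fin n → Fin N) (i : Fin n) : av a i = (a i : ℕ) := rfl

theorem av_inj {n N : ℕ} {a b : Fin n → Fin N} (h : av a = av b) : a = b := by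
  funext i
  apply Fin.ext
  have := DFunLike.congr_fun h i
  exact this

section construction

variable (p : ℕ) [hp : Fact p.Prime]
variable {k : Type u} [Field k] [CharP k p] {n : ℕ}

omit [CharP k p] in
theorem wcoeff {f N : ℕ} (hf : f < N) (j : Idx p n f) (i0 : Fin n) (m : Fin n →₀ ℕ)
    (h1 : m i0 < ex p n f j i0 + 2 * (p ^ f * p ^ (f * f)))
    (h2 : ex p n f j i0 < m i0 + 2 * (p ^ f * p ^ (f * f))) :
    coeff m (wseq p k n N) = if m = ex p n f j then 1 else 0 := by
  unfold wseq block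
  rw [Finset.sum_sigma', coeff_sum, Finset.sum_eq_single ⟨f, j⟩]
  · rw [coeff_monomial]
    by_cases h : m = ex p n f j
    · rw [if_pos h, if_pos h.symm]
    · rw [if_neg h, if_neg (fun e => h e.symm)]
  · rintro ⟨f', j'⟩ _ hne
    rw [coeff_monomial, if_neg]
    intro he
    have := sep p n j j' (fun e => hne e.symm) i0
    have he' : ex p n f' j' i0 = m i0 := by rw [← he]
    omega
  · intro h
    exact absurd (by simp [hf]) h

omit [CharP k p] in
theorem block_ne_zero (i0 : Fin n) (f : ℕ) : block p k n f ≠ 0 := by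
  intro h
  have j : Idx p n f := fun _ => ⟨0, Nat.pow_pos hp.out.pos⟩
  have h1 : wseq p k n (f + 1) = wseq p k n f + block p k n f := Finset.sum_range_succ _ _
  have h2 : coeff (ex p n f j) (block p k n f) = 1 := by
    unfold block
    rw [coeff_sum, Finset.sum_eq_single j]
    · simp
    · intro j' _ hne
      rw [coeff_monomial, if_neg]
      intro he
      have := sep p n j j' (fun e => hne (by
        have := eq_of_heq (Sigma.mk.inj e).2
        exact this.symm)) i0
      have hpos : 0 < p ^ f * p ^ (f * f) :=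
        Nat.mul_pos (Nat.pow_pos hp.out.pos) (Nat.pow_pos hp.out.pos)
      rw [he] at this
      omega
    · intro h
      exact absurd (Finset.mem_univ _) h
  rw [h, coeff_zero] at h2
  exact zero_ne_one h2

theorem quotMap_injective (i0 : Fin n) : Function.Injective (quotMap p k n) := by
  rw [← LinearMap.ker_eq_bot, LinearMap.ker_eq_bot']
  intro v hv
  have h1 : (Submodule.Quotient.mk (elt p 0 v) : bigM p k n ⧸ subM p k n) = 0 := hv
  rw [Submodule.Quotient.mk_eq_zero] at h1
  obtain ⟨c, hc⟩ := h1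
  have h2 : (elt p c 0 : Seqs k n) = elt p 0 v := congrArg Subtype.val hc
  rw [mk_elt, mk_elt, mk_eq] at h2
  obtain ⟨N0, hN0⟩ := eventually_atTop.1 h2
  have e1 := hN0 N0 le_rfl
  have e2 := hN0 (N0 + 1) (Nat.le_succ _)
  have e : wseq p k n (N0 + 1) = wseq p k n N0 + block p k n N0 := Finset.sum_range_succ _ _
  rw [e] at e2
  have e3 : v * block p k n N0 = 0 := by
    have : v * (wseq p k n N0 + block p k n N0) = v * wseq p k n N0 := by
      have a1 : c + 0 * wseq p k n N0 = c := by ring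
      have a2 : c + 0 * (wseq p k n N0 + block p k n N0) = c := by ring
      have b1 : v * wseq p k n N0 = c := by
        rw [a1, zero_add] at e1; exact e1.symm
      have b2 : v * (wseq p k n N0 + block p k n N0) = c := by
        rw [a2, zero_add] at e2; exact e2.symm
      rw [b1, b2]
    rw [mul_add] at this
    simpa using this
  exact (mul_eq_zero.1 e3).resolve_right (block_ne_zero p i0 N0)

include hp in
theorem choose_ex {f : ℕ} (j : Idx p n f) (i : Fin n) {b : ℕ} (hb : b < p ^ (f * f)) :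
    (((ex p n f j i).choose (p ^ f * b) : ℕ) : k) = (((j i : ℕ).choose b : ℕ) : k) := by
  have h := (choose_mul_pow p f ((j i : ℕ) + p ^ (f * f) * (TT p n f + 4 * idx p n f j)) b).trans
    (choose_add_pow p (f * f) (j i) (TT p n f + 4 * idx p n f j) b hb)
  rw [ex_apply]
  exact (CharP.natCast_eq_natCast' k p h)

/-- the order of the derivations used -/
noncomputable def tv (f : ℕ) (b : Idx p n f) : Fin n →₀ ℕ :=
  Finsupp.equivFunOnFinite.symm (fun i => p ^ f * (b i : ℕ))

omit hp in
theorem tv_apply (f : ℕ) (b : Idx p n f) (i : Fin n) : tv p f b i = p ^ f * (b i : ℕ) := rfl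

include hp in
theorem tv_lt (f : ℕ) (b : Idx p n f) (i : Fin n) : tv p f b i < p ^ f * p ^ (f * f) := by
  rw [tv_apply]
  exact Nat.mul_lt_mul_of_pos_left (b i).2 (Nat.pow_pos hp.out.pos)

omit hp in
theorem tv_le_ex (f : ℕ) (b : Idx p n f) : tv p f b ≤ ex p n f b := by
  intro i
  have := ex_lower p n f b i
  rw [tv_apply]
  omega

include hp in
theorem indep {f N : ℕ} (hf : f < N) (i0 : Fin n)
    (g : (Fin n → Fin (p ^ f * p ^ (f * f))) × Idx p n f → k)
    (h : ∑ x, g x • (monomial (av x.1) (1 : k) * D k (tv p f x.2) (wseq p k n N)) = 0) :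
    ∀ x, g x = 0 := by
  have key : ∀ m : ℕ, ∀ x : (Fin n → Fin (p ^ f * p ^ (f * f))) × Idx p n f,
      ∑ i, (x.2 i : ℕ) = m → g x = 0 := by
    intro m
    induction m using Nat.strong_induction_on with
    | _ m ih =>
    rintro ⟨a0, b0⟩ hm
    have hu0 : tv p f b0 ≤ ex p n f b0 := tv_le_ex p f b0
    set u : Fin n →₀ ℕ := (ex p n f b0 - tv p f b0) + av a0 with hu
    have h0 := congrArg (fun q : MvPolynomial (Fin n) k => coeff u q) h
    simp only [coeff_sum, coeff_smul, coeff_zero] at h0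
    rw [Finset.sum_eq_single (a0, b0)] at h0
    · rw [coeff_monomial_mul', if_pos (by rw [hu]; exact le_add_self), one_mul, coeff_D] at h0
      have e1 : u - av a0 = ex p n f b0 - tv p f b0 := by
        rw [hu]; exact add_tsub_cancel_right _ _
      have e2 : u - av a0 + tv p f b0 = ex p n f b0 := by
        rw [e1]; exact tsub_add_cancel_of_le hu0
      have e3 : ((∏ i, ((u - av a0) i + tv p f b0 i).choose (tv p f b0 i) : ℕ) : k) = 1 := by
        rw [Nat.cast_prod]
        apply Finset.prod_eq_one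
        intro i _
        have e4 : (u - av a0) i + tv p f b0 i = ex p n f b0 i := DFunLike.congr_fun e2 i
        rw [e4, tv_apply, choose_ex p b0 i (b0 i).2, Nat.choose_self, Nat.cast_one]
      have hpos : 0 < p ^ f * p ^ (f * f) :=
        Nat.mul_pos (Nat.pow_pos hp.out.pos) (Nat.pow_pos hp.out.pos)
      simp only at h0
      rw [e3, e2, wcoeff p hf b0 i0 _ (by omega) (by omega), if_pos rfl, mul_one, smul_eq_mul,
        mul_one] at h0
      exact h0
    · rintro ⟨a, b⟩ _ hne
      simp only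
      rw [coeff_monomial_mul']
      split_ifs with hau
      swap
      · rw [smul_zero]
      rw [one_mul, coeff_D]
      have hbnd1 : (u - av a + tv p f b) i0 < ex p n f b0 i0 + 2 * (p ^ f * p ^ (f * f)) := by
        have h3 := tv_lt p f b i0
        have h4 : (a0 i0 : ℕ) < p ^ f * p ^ (f * f) := (a0 i0).2
        rw [hu]
        simp only [Finsupp.coe_add, Finsupp.coe_tsub, Pi.add_apply, Pi.sub_apply, av_apply]
        omega
      have hbnd2 : ex p n f b0 i0 < (u - av a + tv p f b) i0 + 2 * (p ^ f * p ^ (f * f)) := by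
        have h3 := tv_lt p f b0 i0
        have h4 : (a i0 : ℕ) < p ^ f * p ^ (f * f) := (a i0).2
        have h5 : tv p f b0 i0 ≤ ex p n f b0 i0 := hu0 i0
        have h6 := hau i0
        rw [hu] at h6 ⊢
        simp only [Finsupp.coe_add, Finsupp.coe_tsub, Pi.add_apply, Pi.sub_apply, av_apply] at h6 ⊢
        omega
      rw [wcoeff p hf b0 i0 _ hbnd1 hbnd2]
      split_ifs with hm2
      swap
      · rw [mul_zero, smul_zero]
      have e5 : ((∏ i, ((u - av a) i + tv p f b i).choose (tv p f b i) : ℕ) : k) =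
          ((∏ i, (b0 i : ℕ).choose (b i) : ℕ) : k) := by
        rw [Nat.cast_prod, Nat.cast_prod]
        refine Finset.prod_congr rfl fun i _ => ?_
        have e4 : (u - av a) i + tv p f b i = ex p n f b0 i := DFunLike.congr_fun hm2 i
        rw [e4, tv_apply, choose_ex p b0 i (b i).2]
      rw [e5]
      by_cases hle : ∀ i, (b i : ℕ) ≤ b0 i
      · by_cases hbb : b = b0
        · exfalso
          subst hbb
          apply hne
          have e6 : u - av a + tv p f b = ex p n f b - tv p f b + tv p f b := by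
            rw [hm2]; exact (tsub_add_cancel_of_le hu0).symm
          have e7 : u - av a = ex p n f b - tv p f b := add_right_cancel e6
          have e8 : u = ex p n f b - tv p f b + av a := by
            rw [← e7]; exact (tsub_add_cancel_of_le hau).symm
          have e9 : av a0 = av a := by
            rw [hu] at e8; exact add_left_cancel e8
          rw [av_inj e9]
        · have hlt : ∑ i, (b i : ℕ) < m := by
            rw [← hm]
            apply Finset.sum_lt_sum (fun i _ => hle i)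
            by_contra hcon
            push Not at hcon
            apply hbb
            funext i
            exact Fin.ext (le_antisymm (hle i) (hcon i (Finset.mem_univ i)))
          rw [ih _ hlt (a, b) rfl, zero_smul]
      · push Not at hle
        obtain ⟨i, hi⟩ := hle
        rw [Finset.prod_eq_zero (Finset.mem_univ i) (Nat.choose_eq_zero_of_lt hi)]
        simp
    · intro h
      exact absurd (Finset.mem_univ _) h
  exact fun x => key _ x rfl

include hp in
theorem card_le (i0 : Fin n) {F : ℕ → Submodule k (bigM p k n)} (hF : IsFiltration k n F)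
    {j0 : ℕ} (hj0 : elt p 0 1 ∈ F j0) (f : ℕ)
    [Module.Finite k (F (2 * n * (p ^ f * p ^ (f * f)) + j0))] :
    (p ^ f * p ^ (f * f)) ^ n * (p ^ (f * f)) ^ n ≤
      Module.finrank k (F (2 * n * (p ^ f * p ^ (f * f)) + j0)) := by
  let y : (Fin n → Fin (p ^ f * p ^ (f * f))) × Idx p n f → bigM p k n := fun x =>
    op k (av x.1) (tv p f x.2) • elt p 0 1
  have hyF : ∀ x, y x ∈ F (2 * n * (p ^ f * p ^ (f * f)) + j0) := fun x =>
    hF.smul_mem _ _ _ (op_mem (by
      have h1 : ∑ i, av x.1 i ≤ n * (p ^ f * p ^ (f * f)) := by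
        have := Finset.sum_le_card_nsmul Finset.univ (fun i => av x.1 i) (p ^ f * p ^ (f * f))
          (fun i _ => (x.1 i).2.le)
        simpa using this
      have h2 : ∑ i, tv p f x.2 i ≤ n * (p ^ f * p ^ (f * f)) := by
        have := Finset.sum_le_card_nsmul Finset.univ (fun i => tv p f x.2 i) (p ^ f * p ^ (f * f))
          (fun i _ => (tv_lt p f x.2 i).le)
        simpa using this
      have h3 : 2 * n * (p ^ f * p ^ (f * f)) =
        n * (p ^ f * p ^ (f * f)) + n * (p ^ f * p ^ (f * f)) := by ring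
      omega)) _ hj0
  have hy : LinearIndependent k y := by
    refine (Fintype.linearIndependent_iff (R := k) (v := y)).2 fun g hg => ?_
    have h2 : ∑ i, g i • ((y i : bigM p k n) : Seqs k n) = 0 := by
      have := congrArg ((bigM p k n).subtype.restrictScalars k) hg
      simpa using this
    have h3 : (Submodule.Quotient.mk (∑ i, g i • (fun N => monomial (av i.1) (1 : k) *
        D k (tv p f i.2) (wseq p k n N))) : Seqs k n) = 0 := by
      rw [← h2]
      have e3 : ∀ q : ℕ → MvPolynomial (Fin n) k, (Submodule.Quotient.mk q : Seqs k n) =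
        ((evZero k n).mkQ.restrictScalars k) q := fun q => rfl
      rw [e3, map_sum]
      refine Finset.sum_congr rfl fun i _ => ?_
      rw [map_smul]
      congr 1
      change _ = ((op k (av i.1) (tv p f i.2) • elt p 0 1 : bigM p k n) : Seqs k n)
      rw [Submodule.coe_smul, mk_elt, ← Submodule.Quotient.mk_smul, ← e3]
      congr 1
      funext N
      simp only [Pi.smul_apply, op_smul, zero_add, one_mul]
    rw [← Submodule.Quotient.mk_zero, mk_eq] at h3
    obtain ⟨N, hN, hfN⟩ := (h3.and (eventually_gt_atTop f)).exists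
    refine indep p hfN i0 g ?_
    simpa [Finset.sum_apply] using hN
  have hc := finrank_span_eq_card hy
  have hc2 : Module.finrank k (Submodule.span k (Set.range y)) ≤
      Module.finrank k (F (2 * n * (p ^ f * p ^ (f * f)) + j0)) :=
    Submodule.finrank_mono (Submodule.span_le.2 (by
      rintro _ ⟨i, rfl⟩
      exact hyF i))
  rw [hc] at hc2
  simpa using hc2

include hp in
theorem growth (i0 : Fin n) {F : ℕ → Submodule k (bigM p k n)} (hF : IsFiltration k n F)
    (r C : ℝ) (hr : r < 2 * n)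
    (hdim : ∀ i : ℕ, 1 ≤ i → Module.Finite k (F i) ∧
      (Module.finrank k (F i) : ℝ) ≤ C * (i : ℝ) ^ r) : False := by
  obtain ⟨j0, hj0⟩ := hF.exhaust (elt p 0 1)
  have hn : 1 ≤ n := by have := i0.2; omega
  have hn' : (1 : ℝ) ≤ n := by exact_mod_cast hn
  set r' : ℝ := max r 0 with hr'
  have hr0 : 0 ≤ r' := le_max_right _ _
  have hr2 : r' < 2 * n := max_lt hr (by linarith)
  set δ : ℝ := 2 * n - r' with hδ
  have hδ0 : 0 < δ := by linarith
  set K : ℝ := |C| * (2 * n + j0) ^ r' with hK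
  have hp1 : (1 : ℝ) < p := by exact_mod_cast hp.out.one_lt
  -- choose `f`
  obtain ⟨f1, hf1⟩ := pow_unbounded_of_one_lt K hp1
  obtain ⟨f2, hf2⟩ := exists_nat_ge ((n + 1 : ℝ) / δ)
  set f : ℕ := max f1 f2 with hf
  have hP1 : (1 : ℝ) ≤ (p : ℝ) ^ f := one_le_pow₀ hp1.le
  have hPK : K < (p : ℝ) ^ f :=
    lt_of_lt_of_le hf1 (pow_le_pow_right₀ hp1.le (le_max_left _ _))
  have hfδ : (n + 1 : ℝ) ≤ (1 + f) * δ := by
    have h1 : (n + 1 : ℝ) / δ ≤ f := hf2.trans (by exact_mod_cast le_max_right f1 f2)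
    have h2 : (n + 1 : ℝ) ≤ f * δ := by rwa [div_le_iff₀ hδ0] at h1
    nlinarith
  set P : ℝ := (p : ℝ) ^ f with hP
  set s : ℝ := P ^ (1 + f) with hs
  have hs1 : 1 ≤ s := one_le_pow₀ hP1
  have hs0 : 0 < s := by linarith
  have hsn : ((p ^ f * p ^ (f * f) : ℕ) : ℝ) = s := by
    push_cast
    rw [hs, hP, ← pow_mul, ← pow_add]
    congr 1
    ring
  have hposn : 0 < p ^ f * p ^ (f * f) :=
    Nat.mul_pos (Nat.pow_pos hp.out.pos) (Nat.pow_pos hp.out.pos)
  obtain ⟨hfin, hd⟩ := hdim (2 * n * (p ^ f * p ^ (f * f)) + j0) (by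
    have : 1 * 1 ≤ n * (p ^ f * p ^ (f * f)) := Nat.mul_le_mul hn hposn
    have h3 : 2 * n * (p ^ f * p ^ (f * f)) = 2 * (n * (p ^ f * p ^ (f * f))) := by ring
    omega)
  have hcard := card_le p i0 hF hj0 f
  have h1 : (((p ^ f * p ^ (f * f)) ^ n * (p ^ (f * f)) ^ n : ℕ) : ℝ) ≤
      C * ((2 * n * (p ^ f * p ^ (f * f)) + j0 : ℕ) : ℝ) ^ r := le_trans (by exact_mod_cast hcard) hd
  have h2 : ((2 * n * (p ^ f * p ^ (f * f)) + j0 : ℕ) : ℝ) ≤ (2 * n + j0) * s := by
    have : ((2 * n * (p ^ f * p ^ (f * f)) + j0 : ℕ) : ℝ) = 2 * n * s + j0 := by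
      rw [Nat.cast_add, Nat.cast_mul, hsn]; push_cast; ring
    rw [this]
    have hj : (j0 : ℝ) ≤ j0 * s := le_mul_of_one_le_right (by positivity) hs1
    nlinarith
  have h2' : (1 : ℝ) ≤ ((2 * n * (p ^ f * p ^ (f * f)) + j0 : ℕ) : ℝ) := by
    have : 1 * 1 ≤ n * (p ^ f * p ^ (f * f)) := Nat.mul_le_mul hn hposn
    have h3 : 2 * n * (p ^ f * p ^ (f * f)) = 2 * (n * (p ^ f * p ^ (f * f))) := by ring
    have : 1 ≤ 2 * n * (p ^ f * p ^ (f * f)) + j0 := by omega
    exact_mod_cast this
  have h3 : C * ((2 * n * (p ^ f * p ^ (f * f)) + j0 : ℕ) : ℝ) ^ r ≤ K * s ^ r' := by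
    have a1 : ((2 * n * (p ^ f * p ^ (f * f)) + j0 : ℕ) : ℝ) ^ r ≤
        ((2 * n * (p ^ f * p ^ (f * f)) + j0 : ℕ) : ℝ) ^ r' :=
      Real.rpow_le_rpow_of_exponent_le h2' (le_max_left _ _)
    have a2 : ((2 * n * (p ^ f * p ^ (f * f)) + j0 : ℕ) : ℝ) ^ r' ≤ ((2 * n + j0) * s) ^ r' :=
      Real.rpow_le_rpow (by positivity) h2 hr0
    have a3 : ((2 * n + j0) * s : ℝ) ^ r' = (2 * n + j0) ^ r' * s ^ r' :=
      Real.mul_rpow (by positivity) hs0.le
    calc C * ((2 * n * (p ^ f * p ^ (f * f)) + j0 : ℕ) : ℝ) ^ r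
        ≤ |C| * ((2 * n * (p ^ f * p ^ (f * f)) + j0 : ℕ) : ℝ) ^ r :=
          mul_le_mul_of_nonneg_right (le_abs_self C) (by positivity)
      _ ≤ |C| * ((2 * n + j0) ^ r' * s ^ r') :=
          mul_le_mul_of_nonneg_left (a1.trans (a2.trans a3.le)) (abs_nonneg C)
      _ = K * s ^ r' := by rw [hK]; ring
  have h4 : (((p ^ f * p ^ (f * f)) ^ n * (p ^ (f * f)) ^ n : ℕ) : ℝ) * P ^ n = s ^ (2 * n) := by
    have b1 : (((p ^ (f * f)) : ℕ) : ℝ) * P = s := by
      rw [← hsn, hP]; push_cast; ring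
    have b2 : (((p ^ f * p ^ (f * f)) ^ n * (p ^ (f * f)) ^ n : ℕ) : ℝ) =
        s ^ n * (((p ^ (f * f)) : ℕ) : ℝ) ^ n := by
      rw [Nat.cast_mul, Nat.cast_pow, hsn, Nat.cast_pow (p ^ (f * f)) n]
    rw [b2, mul_assoc, ← mul_pow, b1]
    ring
  have h5 : s ^ (2 * n) = s ^ r' * s ^ δ := by
    rw [← Real.rpow_add hs0, hδ, ← Real.rpow_natCast]
    congr 1
    push_cast
    ring
  have h6 : P ^ (n + 1) ≤ s ^ δ := by
    have c1 : s ^ δ = P ^ ((1 + f : ℝ) * δ) := by
      rw [hs, ← Real.rpow_natCast, ← Real.rpow_mul (by linarith)]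
      push_cast
      ring_nf
    rw [c1, ← Real.rpow_natCast]
    apply Real.rpow_le_rpow_of_exponent_le hP1
    push_cast
    linarith
  have hsr : 0 < s ^ r' := Real.rpow_pos_of_pos hs0 _
  have hPn : 0 < P ^ n := by positivity
  have h7 : s ^ r' * s ^ δ ≤ K * s ^ r' * P ^ n := by
    rw [← h5, ← h4]
    exact mul_le_mul_of_nonneg_right (h1.trans h3) hPn.le
  have h8 : s ^ δ ≤ K * P ^ n := by
    have : s ^ r' * s ^ δ ≤ s ^ r' * (K * P ^ n) := by
      calc s ^ r' * s ^ δ ≤ K * s ^ r' * P ^ n := h7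
        _ = s ^ r' * (K * P ^ n) := by ring
    exact le_of_mul_le_mul_left this hsr
  have h9 : P ^ (n + 1) ≤ K * P ^ n := h6.trans h8
  have h10 : P * P ^ n ≤ K * P ^ n := by
    calc P * P ^ n = P ^ (n + 1) := by ring
      _ ≤ K * P ^ n := h9
  have h11 : P ≤ K := le_of_mul_le_mul_right h10 hPn
  linarith

end construction

end Pool.Agent.KS6_19.DN
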