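import Mathlib
import Pool.Agent.KS6_19.DN
import Pool.Agent.KS6_19.DM
import Pool.Agent.KS6_19.DG

set_option autoImplicit false

open MvPolynomial Filter

namespace Pool.Agent.KS6_19.DR

open Pool.Agent.KS6_19.DN

universe u

/-- multiplication by a polynomial, as an element of `𝒟` -/
noncomputable def mulOp (k : Type u) [Field k] {n : ℕ} (u : MvPolynomial (Fin n) k) : DO k n :=
  (⟨LinearMap.mulLeft k u, Algebra.subset_adjoin (Or.inl ⟨u, rfl⟩)⟩ : diffOps k n)

theorem mulOp_smul {k : Type u} [Field k] {n : ℕ} (u v : MvPolynomial (Fin n) k) :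
    mulOp k u • v = u * v := rfl

theorem bigM_finite (p : ℕ) [Fact p.Prime] (k : Type u) [Field k] [CharP k p] (n : ℕ) :
    Module.Finite (DO k n) (bigM p k n) := by
  classical
  refine ⟨⟨{elt p 1 0, elt p 0 1}, ?_⟩⟩
  rw [eq_top_iff]
  rintro m -
  obtain ⟨u, v, rfl⟩ := elt_surj p m
  have e : elt p u v = mulOp k u • elt p 1 0 + mulOp k v • (elt p 0 1 : bigM p k n) := by
    apply Subtype.ext
    rw [Submodule.coe_add, Submodule.coe_smul, Submodule.coe_smul, mk_elt, mk_elt, mk_elt,
      ← Submodule.Quotient.mk_smul, ← Submodule.Quotient.mk_smul, ← Submodule.Quotient.mk_add,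
      mk_eq]
    refine Eventually.of_forall fun N => ?_
    simp only [Pi.add_apply, Pi.smul_apply, mulOp_smul]
    ring
  rw [e]
  refine Submodule.add_mem _ (Submodule.smul_mem _ _ (Submodule.subset_span ?_))
    (Submodule.smul_mem _ _ (Submodule.subset_span ?_))
  · simp
  · simp

/-- For every prime `p`, every field `k` of characteristic `p` and every `n ≥ 1`: the `𝒟`-module
`R = k[x_1, …, x_n]` is holonomic, and there is a finitely generated `𝒟`-module `M` with a
submodule `M'` such that `M'` and `M / M'` are isomorphic to `R` (hence holonomic), while `M` is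
not holonomic; moreover no `k`-filtration of `M` satisfies `dim M_i ≤ C i^r` for all `i ≥ 1`, for
any real `C` and any real `r < 2n`. -/
theorem maximalGrowth (p : ℕ) [Fact p.Prime] (k : Type u) [Field k] [CharP k p] (n : ℕ) (hn : 1 ≤ n) :
    IsHolonomic k n (MvPolynomial (Fin n) k) ∧
    ∃ (M : Type u) (_ : AddCommGroup M) (_ : Module k M) (_ : Module (DO k n) M)
      (_ : IsScalarTower k (DO k n) M) (M' : Submodule (DO k n) M),
      Module.Finite (DO k n) M ∧
      Nonempty (MvPolynomial (Fin n) k ≃ₗ[DO k n] M') ∧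
      Nonempty (MvPolynomial (Fin n) k ≃ₗ[DO k n] (M ⧸ M')) ∧
      IsHolonomic k n M' ∧ IsHolonomic k n (M ⧸ M') ∧ ¬ IsHolonomic k n M ∧
      ∀ F : ℕ → Submodule k M, IsFiltration k n F → ∀ r C : ℝ, r < 2 * n →
        ∃ i : ℕ, 1 ≤ i ∧ ¬ (Module.Finite k (F i) ∧
          (Module.finrank k (F i) : ℝ) ≤ C * (i : ℝ) ^ r) := by
  have hR : IsHolonomic k n (MvPolynomial (Fin n) k) := isHolonomic_poly
  have hgr : ∀ F : ℕ → Submodule k (bigM p k n), IsFiltration k n F → ∀ r C : ℝ, r < 2 * n →
        ∃ i : ℕ, 1 ≤ i ∧ ¬ (Module.Finite k (F i) ∧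
          (Module.finrank k (F i) : ℝ) ≤ C * (i : ℝ) ^ r) := by
    intro F hF r C hr
    by_contra hcon
    push Not at hcon
    refine growth p ⟨0, hn⟩ hF r C hr fun i hi => ?_
    exact hcon i hi
  refine ⟨hR, bigM p k n, inferInstance, inferInstance, inferInstance, inferInstance,
    subM p k n, bigM_finite p k n, ?_, ?_, ?_, ?_, ?_, hgr⟩
  · exact ⟨LinearEquiv.ofInjective (constMap p k n) (constMap_injective p)⟩
  · exact ⟨LinearEquiv.ofBijective (quotMap p k n)
      ⟨quotMap_injective p ⟨0, hn⟩, quotMap_surjective p⟩⟩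
  · exact hR.of_surjective
      (LinearEquiv.ofInjective (constMap p k n) (constMap_injective p)).toLinearMap
      (LinearEquiv.surjective _)
  · exact hR.of_surjective (quotMap p k n) (quotMap_surjective p)
  · rintro ⟨F, C, hF, hdim⟩
    have hn' : (1 : ℝ) ≤ n := by exact_mod_cast hn
    obtain ⟨i, hi, hnot⟩ := hgr F hF (n : ℝ) C (by linarith)
    apply hnot
    rw [Real.rpow_natCast]
    exact hdim i hi

end Pool.Agent.KS6_19.DR
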