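import Mathlib
import Pool.Agent.KS6_19.MW1

namespace Pool.Agent.KS6_19.MW

universe u v

open Finset Matrix

variable {R : Type u} {d m : ℕ}

abbrev M (d : ℕ) (R : Type u) := Matrix (Fin d) (Fin d) R

/-- The value of the word `x_s x_(l_1) x_(l_2) …` in the letters `x_0, …, x_(m-1)` at the matrices
`A_0, …, A_(m-1)`. -/
def ev [NonUnitalRing R] (A : Fin m → M d R) (s : Fin m) (l : List (Fin m)) : M d R :=
  l.foldl (fun P t => P * A t) (A s)

/-- The sum of the values of the word at all `m`-tuples of matrices. -/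
def T (d : ℕ) (R : Type u) [NonUnitalRing R] [Fintype R] (s : Fin m) (l : List (Fin m)) : M d R :=
  ∑ A : Fin m → M d R, ev A s l

@[simp] lemma ev_nil [NonUnitalRing R] (A : Fin m → M d R) (s : Fin m) : ev A s [] = A s := rfl

@[simp] lemma ev_snoc [NonUnitalRing R] (A : Fin m → M d R) (s t : Fin m) (l : List (Fin m)) :
    ev A s (l ++ [t]) = ev A s l * A t := by
  simp [ev, List.foldl_append]

section
variable {Q : Type u} [Ring Q] {x : Q} (hx : x * x = 0)
include hx

lemma i1 : (1 - x) * (1 + x) = 1 := by noncomm_ring; simp [hx]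
lemma i2 : (1 + x) * (1 - x) = 1 := by noncomm_ring; simp [hx]
lemma g1 (y : Q) : (1 - x) * ((1 + x) * y * (1 - x)) * (1 + x) = y := by
  rw [← mul_assoc, ← mul_assoc, i1 hx, one_mul, mul_assoc, i1 hx, mul_one]
lemma g2 (y z : Q) : (1 + x) * y * (1 - x) * ((1 + x) * z * (1 - x)) = (1 + x) * (y * z) * (1 - x) := by
  simp only [mul_assoc]
  rw [← mul_assoc (1 - x), i1 hx, one_mul]
lemma g3 (y : Q) (h : y = (1 + x) * y * (1 - x)) : x * y = y * x := by
  have := congrArg (· * (1 + x)) h
  simp only [mul_assoc, i1 hx, mul_one] at this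
  rw [mul_add, add_mul, mul_one, one_mul] at this
  exact (add_left_cancel this).symm
lemma g4 (y : Q) (h : x * y = y * x) : (1 + x) * y * (1 - x) = y := by
  rw [add_mul, one_mul, h, ← mul_one_add, mul_assoc, i2 hx, mul_one]
lemma g5 (n : ℕ) (y : Q) : (1 + x) * ((1 + n • x) * y * (1 - n • x)) * (1 - x) =
    (1 + (n + 1) • x) * y * (1 - (n + 1) • x) := by
  have a : (1 + x) * (1 + n • x) = 1 + (n + 1) • x := by
    simp only [mul_add, add_mul, mul_smul_comm, hx, succ_nsmul]; simp; abel
  have b : (1 - n • x) * (1 - x) = 1 - (n + 1) • x := by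
    simp only [mul_sub, sub_mul, smul_mul_assoc, hx, succ_nsmul]; simp; abel
  rw [← a, ← b]
  simp only [mul_assoc]
omit hx in
lemma g6 (p : ℕ) (y : Q) (z : p • y = 0) : (1 + p • x) * y * (1 - p • x) = y := by
  rw [add_mul, smul_mul_assoc, ← mul_smul_comm, z, mul_zero, add_zero, one_mul, mul_sub,
    mul_smul_comm, ← smul_mul_assoc, z, zero_mul, sub_zero, mul_one]
end

section
variable [NonUnitalRing R]

def j (A : M d R) : M d (Unitization ℤ R) := A.map (Unitization.inrNonUnitalAlgHom ℤ R)

lemma j_apply (A : M d R) (a b) : j A a b = (A a b : Unitization ℤ R) := rfl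
lemma j_mul (A B : M d R) : j (A * B) = j A * j B := Matrix.map_mul
lemma j_add (A B : M d R) : j (A + B) = j A + j B :=
  Matrix.ext (fun a b => by simp [j_apply])
lemma j_inj {A B : M d R} (h : j A = j B) : A = B := by
  ext a b; exact Unitization.inr_injective (R := ℤ) (congrFun (congrFun h a) b)
lemma j_single (a b : Fin d) (r : R) : j (single a b r) = single a b (r : Unitization ℤ R) := by
  refine Matrix.ext (fun x y => ?_); simp only [j_apply, single_apply]; split_ifs <;> simp

lemma conj (x : M d (Unitization ℤ R)) (hx : x * x = 0) : ∃ σ : M d R →+ M d R,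
    (∀ A, j (σ A) = (1 + x) * j A * (1 - x)) ∧ (∀ A B, σ (A * B) = σ A * σ B) ∧
    (∀ A, σ A = A ↔ x * j A = j A * x) ∧ Function.Injective σ ∧
    ∀ p : ℕ, (∀ r : R, p • r = 0) → ∀ A, σ^[p] A = A := by
  have h1 : ∀ A : M d R, j (((1 + x) * j A * (1 - x)).map (fun z => z.snd)) = (1 + x) * j A * (1 - x) := by
    intro A
    refine Matrix.ext (fun a b => Unitization.ext ?_ (by simp [j_apply]))
    have : ∀ f : Fin d → Unitization ℤ R, (∑ i, f i).fst = ∑ i, (f i).fst :=
      fun f => map_sum (Unitization.fstHom ℤ R) f univ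
    simp [j_apply, mul_apply, this]
  let σ : M d R →+ M d R := AddMonoidHom.mk' (fun A => ((1 + x) * j A * (1 - x)).map (fun z => z.snd))
    (fun A B => j_inj (by rw [h1, j_add, j_add, h1, h1, Matrix.mul_add, Matrix.add_mul]))
  have h2 : ∀ A, j (σ A) = (1 + x) * j A * (1 - x) := h1
  have h3 : ∀ A, (1 - x) * j (σ A) * (1 + x) = j A := fun A => by
    rw [h2]; exact g1 (Q := M d (Unitization ℤ R)) hx _
  refine ⟨σ, h2, fun A B => ?_, fun A => ⟨fun h => ?_, fun h => j_inj ?_⟩,
    fun A B h => j_inj (by rw [← h3, h, h3]), fun p hp A => j_inj ?_⟩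
  · refine j_inj ?_
    rw [j_mul, h2, h2, h2, j_mul]
    exact (g2 (Q := M d (Unitization ℤ R)) hx _ _).symm
  · have := h2 A
    rw [h] at this
    exact g3 (Q := M d (Unitization ℤ R)) hx _ this
  · rw [h2]; exact g4 (Q := M d (Unitization ℤ R)) hx _ h
  · have e : ∀ n : ℕ, j (σ^[n] A) = (1 + n • x) * j A * (1 - n • x) := fun n => by
      induction n with
      | zero => simp
      | succ n ih =>
        rw [Function.iterate_succ_apply', h2, ih]
        exact g5 (Q := M d (Unitization ℤ R)) hx _ _
    have z : p • j A = 0 := by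
      refine Matrix.ext (fun a b => ?_)
      rw [Matrix.smul_apply, j_apply, ← Unitization.inr_smul, hp]; rfl
    rw [e]; exact g6 (Q := M d (Unitization ℤ R)) _ _ z

lemma ev_map {S : Type v} [NonUnitalRing S] {e : ℕ} (σ : M d R → M e S)
    (hσ : ∀ A B, σ (A * B) = σ A * σ B)
    (A : Fin m → M d R) (s : Fin m) (l : List (Fin m)) : ev (fun t => σ (A t)) s l = σ (ev A s l) := by
  induction l using List.reverseRecOn with
  | nil => rfl
  | append_singleton l t ih => rw [ev_snoc, ev_snoc, ih, hσ]

lemma tup_iter {X : Type u} (σ : X → X) (n : ℕ) (A : Fin m → X) :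
    (fun (A : Fin m → X) t => σ (A t))^[n] A = fun t => σ^[n] (A t) := by
  induction n generalizing A with
  | zero => rfl
  | succ n ih =>
    rw [Function.iterate_succ_apply, ih]
    funext t
    rw [Function.iterate_succ_apply]

lemma row (A : Fin m → M (d + 2) R) (ρ : Fin m → R) (s : Fin m)
    (h : ∀ l t, ev A s l 0 1 * ρ t = 0) (l : List (Fin m)) :
    ∀ c, ev (A + fun t => single 1 0 (ρ t)) s l 0 c = ev A s l 0 c := by
  induction l using List.reverseRecOn with
  | nil => intro c; simp
  | append_singleton l t ih =>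
    intro c
    rw [ev_snoc, ev_snoc, mul_apply]
    simp only [ih]
    rw [← mul_apply, Pi.add_apply, Matrix.mul_add, Matrix.add_apply]
    by_cases hl : c = 0
    · rw [hl, mul_single_apply_same, h, add_zero]
    · rw [mul_single_apply_of_ne _ _ _ _ _ hl, add_zero]

variable [Fintype R]

lemma scalar (s : Fin m) (l : List (Fin m)) {a b : Fin d} (h : a ≠ b) :
    T d R s l b a = 0 ∧ T d R s l a a = T d R s l b b := by
  obtain ⟨σ, -, s2, s3, s4, -⟩ := conj (R := R) (single a b 1) (single_mul_single_of_ne _ _ _ _ h.symm _)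
  have e := (s3 (T d R s l)).1 (by
    rw [T, map_sum]
    simp only [← ev_map σ s2]
    have s4' : Function.Injective (fun (A : Fin m → M d R) t => σ (A t)) :=
      fun A B h => funext fun t => s4 (congrFun h t)
    exact (Finite.injective_iff_bijective.1 s4').sum_comp (fun A => ev A s l))
  have e1 := congrFun (congrFun e a) a
  have e2 := congrFun (congrFun e a) b
  rw [single_mul_apply_same, mul_single_apply_of_ne _ _ _ _ _ h, one_mul, j_apply] at e1
  rw [single_mul_apply_same, mul_single_apply_same, one_mul, mul_one, j_apply, j_apply] at e2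
  exact ⟨Unitization.inr_injective (R := ℤ) e1, (Unitization.inr_injective (R := ℤ) e2).symm⟩

lemma T_eq (s : Fin m) (l : List (Fin m)) :
    T (d + 1) R s l = diagonal (fun _ => T (d + 1) R s l 0 0) := by
  ext a b
  by_cases h : a = b
  · subst h
    by_cases h0 : a = 0
    · simp [h0]
    · simp [(scalar s l h0).2]
  · rw [diagonal_apply_ne _ h, (scalar s l (Ne.symm h)).1]

lemma T_apply (s : Fin m) (l : List (Fin m)) (a b : Fin d) :
    T d R s l a b = ∑ A : Fin m → M d R, ev A s l a b := by
  rw [T, Matrix.sum_apply]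

lemma big {p : ℕ} (hp : p.Prime) (hR : ∀ r : R, p • r = 0) (r : R) (hr : r ≠ 0)
    (s : Fin m) (l : List (Fin m)) : T (d + 3) R s l 0 0 = 0 := by
  classical
  have n12 : (2 : Fin (d + 3)) ≠ 1 := Fin.ne_of_val_ne (by rw [Fin.val_two]; simp)
  have n02 : (0 : Fin (d + 3)) ≠ 2 := Fin.ne_of_val_ne (by rw [Fin.val_two]; simp)
  obtain ⟨σ, s1, s2, s3, -, s5⟩ := conj (R := R) (single (1 : Fin (d + 3)) 2 1)
    (single_mul_single_of_ne _ _ _ _ n12 _)
  rw [T_apply, orbit hp univ _ (fun (A : Fin m → M (d + 3) R) t => σ (A t)) (by simp)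
    (fun A _ => by rw [tup_iter]; funext t; exact s5 p hR (A t)) (fun A _ => by
    apply Unitization.inr_injective (R := ℤ)
    rw [ev_map σ s2, ← j_apply, s1, ← j_apply]
    simp [mul_sub, add_mul, mul_single_apply_of_ne _ _ _ _ _ n02]) hR]
  refine transl hp _ _ (fun t => single 1 0 (if t = s then r else 0))
    (fun h => hr (by simpa using congrFun (congrFun (congrFun h s) 1) 0))
    (by funext t; ext; simp [hR]) (fun A hA => ?_)
    (fun A hA => row A _ s (fun l t => ?_) l 0) hR
  · refine mem_filter.2 ⟨mem_univ _, ?_⟩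
    funext t
    rw [Pi.add_apply, map_add, congrFun (mem_filter.1 hA).2 t, (s3 _).2]
    rw [j_single, single_mul_single_of_ne _ _ _ _ n12, single_mul_single_of_ne _ _ _ _ (by simp)]
  · have c : ∀ t i, i ≠ 1 → A t i 1 = 0 := fun t i hi => by
      have := congrFun (congrFun ((s3 (A t)).1 (congrFun (mem_filter.1 hA).2 t)) i) 2
      rw [single_mul_apply_of_ne _ _ _ _ _ hi, mul_single_apply_same, mul_one, j_apply] at this
      exact Unitization.inr_injective (R := ℤ) this.symm
    have : ev A s l 0 1 = 0 := by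
      induction l using List.reverseRecOn with
      | nil => exact c s 0 (by simp)
      | append_singleton l u ih =>
        rw [ev_snoc, mul_apply]
        exact sum_eq_zero (fun i _ => by
          by_cases hi : i = 1
          · rw [hi, ih, zero_mul]
          · rw [c u i hi, mul_zero])
    rw [this, zero_mul]

lemma oddp {p : ℕ} (hp : p.Prime) (h2 : p ≠ 2) (hR : ∀ r : R, p • r = 0) (r : R) (hr : r ≠ 0)
    (s : Fin m) (l : List (Fin m)) : T 2 R s l 0 0 = 0 := by
  classical
  obtain ⟨σ, s1, s2, s3, -, s5⟩ := conj (R := R) (single (0 : Fin 2) 1 1)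
    (single_mul_single_of_ne _ _ _ _ (by simp) _)
  have e : T 2 R s l 0 0 + T 2 R s l 1 1 = 0 := by
    rw [T_apply, T_apply, ← sum_add_distrib,
      orbit hp univ _ (fun (A : Fin m → M 2 R) t => σ (A t)) (by simp)
        (fun A _ => by rw [tup_iter]; funext t; exact s5 p hR (A t)) (fun A _ => by
        apply Unitization.inr_injective (R := ℤ)
        rw [ev_map σ s2, Unitization.inr_add, Unitization.inr_add, ← j_apply, ← j_apply, s1, ← j_apply, ← j_apply]
        simp [mul_sub, add_mul]) hR]
    refine transl hp _ _ (fun t => single 0 1 (if t = s then r else 0))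
      (fun h => hr (by simpa using congrFun (congrFun (congrFun h s) 0) 1))
      (by funext t; ext; simp [hR]) (fun A hA => ?_)
      (fun A hA => ?_) hR
    · refine mem_filter.2 ⟨mem_univ _, ?_⟩
      funext t
      rw [Pi.add_apply, map_add, congrFun (mem_filter.1 hA).2 t, (s3 _).2]
      rw [j_single, single_mul_single_of_ne _ _ _ _ (by simp), single_mul_single_of_ne _ _ _ _ (by simp)]
    · have c : ∀ t, A t 1 0 = 0 := fun t => by
        have := congrFun (congrFun ((s3 (A t)).1 (congrFun (mem_filter.1 hA).2 t)) 0) 0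
        rw [single_mul_apply_same, mul_single_apply_of_ne _ _ _ _ _ (by simp), one_mul, j_apply] at this
        exact Unitization.inr_injective (R := ℤ) this
      set B : Fin m → M 2 R := A + fun t => single 0 1 (if t = s then r else 0) with hB
      have this : ev A s l 1 0 = 0 ∧ ev B s l 1 0 = 0 ∧
          ev B s l 0 0 = ev A s l 0 0 ∧ ev B s l 1 1 = ev A s l 1 1 := by
        induction l using List.reverseRecOn with
        | nil => simp [hB, c]
        | append_singleton l u ih =>
          obtain ⟨i1, i2, i3, i4⟩ := ih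
          simp only [ev_snoc, mul_apply, Fin.sum_univ_two, i1, i2, i3, i4]
          simp [hB, c]
      rw [this.2.2.1, this.2.2.2]
  rw [← (scalar s l (show (0 : Fin 2) ≠ 1 by simp)).2] at e
  obtain ⟨q, rfl⟩ := hp.odd_of_ne_two h2
  have := hR (T 2 R s l 0 0)
  rwa [succ_nsmul, mul_comm, mul_nsmul', two_nsmul, e, smul_zero, zero_add] at this

lemma nil (hR : ∀ r : R, 2 • r = 0) (r : R) (hr : r ≠ 0) (h : r * r = 0)
    (s : Fin m) (l : List (Fin m)) : T 2 R s l 0 0 = 0 := by
  classical
  have z : (r : Unitization ℤ R) * r = 0 := by rw [← Unitization.inr_mul, h]; rfl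
  obtain ⟨σ, s1, s2, s3, -, s5⟩ := conj (R := R) (single (1 : Fin 2) 1 r)
    (by rw [single_mul_single_same, z, single_zero])
  rw [T_apply, orbit Nat.prime_two univ _ (fun (A : Fin m → M 2 R) t => σ (A t)) (by simp)
    (fun A _ => by rw [tup_iter]; funext t; exact s5 2 hR (A t)) (fun A _ => by
    apply Unitization.inr_injective (R := ℤ)
    rw [ev_map σ s2, ← j_apply, s1, ← j_apply]
    simp [mul_sub, add_mul]) hR]
  refine transl Nat.prime_two _ _ (fun t => single 1 0 (if t = s then r else 0))
    (fun h => hr (by simpa using congrFun (congrFun (congrFun h s) 1) 0))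
    (by funext t; ext; simp [hR]) (fun A hA => ?_)
    (fun A hA => row A _ s (fun l t => ?_) l 0) hR
  · refine mem_filter.2 ⟨mem_univ _, ?_⟩
    funext t
    rw [Pi.add_apply, map_add, congrFun (mem_filter.1 hA).2 t, (s3 _).2]
    rw [j_single]
    by_cases ht : t = s
    · rw [if_pos ht, single_mul_single_same, z, single_zero, single_mul_single_of_ne _ _ _ _ (by simp)]
    · rw [if_neg ht]; simp
  · have c1 : ∀ u, A u 0 1 * r = 0 := fun u => by
      have := congrFun (congrFun ((s3 (A u)).1 (congrFun (mem_filter.1 hA).2 u)) 0) 1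
      rw [single_mul_apply_of_ne _ _ _ _ _ (by simp), mul_single_apply_same, j_apply,
        ← Unitization.inr_mul] at this
      exact Unitization.inr_injective (R := ℤ) this.symm
    have c2 : ∀ u, A u 1 1 * r = r * A u 1 1 := fun u => by
      have := congrFun (congrFun ((s3 (A u)).1 (congrFun (mem_filter.1 hA).2 u)) 1) 1
      rw [single_mul_apply_same, mul_single_apply_same, j_apply,
        ← Unitization.inr_mul, ← Unitization.inr_mul] at this
      exact Unitization.inr_injective (R := ℤ) this.symm
    have key : ev A s l 0 1 * r = 0 := by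
      induction l using List.reverseRecOn with
      | nil => exact c1 s
      | append_singleton l u ih =>
        rw [ev_snoc, mul_apply, Fin.sum_univ_two, add_mul, mul_assoc, c1, mul_assoc, c2, ← mul_assoc, ih]
        simp
    split_ifs
    · exact key
    · simp

lemma sum_all (hR : ∀ r : R, 2 • r = 0) (a b : R) (ha : a ≠ 0) (hb : b ≠ 0) (hab : a ≠ b) :
    ∑ x : R, x = 0 := by
  classical
  have key : ∀ a : R, a ≠ 0 → ∑ x : R, x = 0 ∨ ∑ x : R, x = a := fun a ha => by
    have := transl Nat.prime_two univ (QuotientAddGroup.mk' (AddSubgroup.zmultiples a)) a ha (hR a)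
      (by simp) (by simp) (fun q => by
        obtain ⟨y, rfl⟩ := QuotientAddGroup.mk'_surjective _ q
        rw [← map_nsmul, hR, map_zero])
    rw [← map_sum, QuotientAddGroup.mk'_apply, QuotientAddGroup.eq_zero_iff] at this
    obtain ⟨n, hn⟩ := AddSubgroup.mem_zmultiples_iff.1 this
    have h2 : (2 : ℤ) • a = 0 := by rw [two_zsmul, ← two_nsmul, hR]
    rcases Int.even_or_odd' n with ⟨m, rfl | rfl⟩
    · left; rw [← hn, mul_comm, mul_smul, h2, smul_zero]
    · right; rw [← hn, add_smul, mul_comm, mul_smul, h2, smul_zero, zero_add, one_smul]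
  rcases key a ha with h | h
  · exact h
  · rcases key b hb with h' | h'
    · exact h'
    · exact absurd (h.symm.trans h') hab

end

end Pool.Agent.KS6_19.MW
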