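import Mathlib
import Pool.Agent.KS6_19.MW2

namespace Pool.Agent.KS6_19.MW

universe u v

open Finset Matrix

variable {R : Type u} {d m : ℕ} [NonUnitalRing R]

lemma add_self (hR : ∀ r : R, 2 • r = 0) (r : R) : r + r = 0 := by rw [← two_nsmul, hR]

lemma unip (hR : ∀ r : R, 2 • r = 0) (r : R) : ∃ σ : M 2 R →+ M 2 R,
    (∀ A B, σ (A * B) = σ A * σ B) ∧ (∀ A, σ (σ A) = A) ∧ (∀ A, σ A 1 0 = A 1 0) ∧
    (∀ A, σ A 0 0 = A 0 0 + r * A 1 0) := by
  obtain ⟨σ, s1, s2, -, -, s5⟩ := conj (R := R) (single (0 : Fin 2) 1 r)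
    (single_mul_single_of_ne _ _ _ _ (by simp) _)
  refine ⟨σ, s2, fun A => s5 2 hR A, fun A => ?_, fun A => ?_⟩
  · apply Unitization.inr_injective (R := ℤ)
    rw [← j_apply, s1, ← j_apply]
    simp [mul_sub, add_mul]
  · apply Unitization.inr_injective (R := ℤ)
    rw [← j_apply, s1, Unitization.inr_add, Unitization.inr_mul, ← j_apply, ← j_apply]
    simp [mul_sub, add_mul]

variable [Fintype R]

lemma comm4 (hR : ∀ r : R, 2 • r = 0) (hc : ∀ x y : R, x * y = y * x) (a b : R) (ha : a ≠ 0)
    (hb : b ≠ 0) (hab : a ≠ b) (s : Fin m) (l : List (Fin m)) : T 2 R s l 0 0 = 0 := by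
  classical
  rw [T_apply, ← sum_fiberwise (s := univ) (g := fun A : Fin m → M 2 R => fun t => A t 1 0)]
  refine sum_eq_zero fun c _ => ?_
  by_cases hz : ∃ z : R, z ≠ 0 ∧ ∀ t, z * c t = 0
  · obtain ⟨z, hz0, hz⟩ := hz
    have hζ : ∀ u t, (if u = s then z else 0) * c t = 0 := fun u t => by
      split_ifs
      · exact hz t
      · exact zero_mul _
    refine transl Nat.prime_two _ _ (fun t => single 0 1 (if t = s then z else 0))
      (fun h => hz0 (by simpa using congrFun (congrFun (congrFun h s) 0) 1))
      (by funext t; ext; simp [hR]) (fun A hA => ?_) (fun A hA => ?_) hR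
    · refine mem_filter.2 ⟨mem_univ _, ?_⟩
      rw [← (mem_filter.1 hA).2]
      funext t
      simp
    · have hA' : ∀ t, A t 1 0 = c t := fun t => congrFun (mem_filter.1 hA).2 t
      set B : Fin m → M 2 R := A + fun t => single 0 1 (if t = s then z else 0) with hB
      have b0 : ∀ u i, B u i 0 = A u i 0 := fun u i => by simp [hB]
      have b1 : ∀ u, B u 1 1 = A u 1 1 := fun u => by simp [hB]
      have b2 : ∀ u, B u 0 1 = A u 0 1 + (if u = s then z else 0) := fun u => by simp [hB]
      have key : ∀ i, ev B s l i 0 = ev A s l i 0 ∧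
          ∀ t, ev B s l i 1 * c t = ev A s l i 1 * c t := by
        induction l using List.reverseRecOn with
        | nil =>
          intro i
          refine ⟨b0 s i, fun t => ?_⟩
          fin_cases i
          · simp only [ev_nil]
            change B s 0 1 * c t = A s 0 1 * c t
            rw [b2, add_mul, hζ, add_zero]
          · simp only [ev_nil]
            change B s 1 1 * c t = A s 1 1 * c t
            rw [b1]
        | append_singleton l u ih =>
          intro i
          obtain ⟨i1, i2⟩ := ih i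
          rw [ev_snoc, ev_snoc]
          refine ⟨?_, fun t => ?_⟩
          · rw [mul_apply, mul_apply, Fin.sum_univ_two, Fin.sum_univ_two, i1, b0, b0, hA', i2]
          · rw [mul_apply, mul_apply, Fin.sum_univ_two, Fin.sum_univ_two, i1, b1, b2, add_mul,
              add_mul, mul_assoc, add_mul, hζ, add_zero, mul_assoc, mul_assoc, mul_assoc,
              hc (A u 1 1), ← mul_assoc (ev B s l i 1), i2, mul_assoc]
      exact (key 0).1
  · push Not at hz
    let _ : Module (ZMod 2) R := AddCommGroup.zmodModule hR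
    let ψ : R →+ (Fin m → R) :=
      { toFun := fun z t => z * c t
        map_zero' := by funext t; simp
        map_add' := fun x y => by funext t; simp [add_mul] }
    obtain ⟨ℓ, hℓ⟩ := LinearMap.exists_leftInverse_of_injective (ψ.toZModLinearMap 2) (by
      rw [LinearMap.ker_eq_bot']
      intro x hx
      by_contra h0
      obtain ⟨t, ht⟩ := hz x h0
      exact ht (congrFun hx t))
    have hℓ' : ∀ r : R, ℓ (fun t => r * c t) = r := fun r => LinearMap.congr_fun hℓ r
    choose σ s2 s3 s4 s5 using unip (R := R) hR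
    rw [← sum_fiberwise (g := fun A : Fin m → M 2 R => ℓ (fun t => A t 0 0))]
    have e : ∀ r : R, ∑ A ∈ ({A ∈ ({A | (fun t => A t 1 0) = c} : Finset (Fin m → M 2 R)) |
        ℓ (fun t => A t 0 0) = r} : Finset (Fin m → M 2 R)), ev A s l 0 0 =
        ∑ A ∈ ({A ∈ ({A | (fun t => A t 1 0) = c} : Finset (Fin m → M 2 R)) |
        ℓ (fun t => A t 0 0) = 0} : Finset (Fin m → M 2 R)), (ev A s l 0 0 + r * ev A s l 1 0) := by
      intro r
      have hmem : ∀ A : Fin m → M 2 R, (fun t => A t 1 0) = c →
          (fun t => σ r (A t) 1 0) = c ∧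
          ℓ (fun t => σ r (A t) 0 0) = ℓ (fun t => A t 0 0) + r := by
        intro A hA
        refine ⟨by rw [← hA]; funext t; exact s4 r (A t), ?_⟩
        have : (fun t => σ r (A t) 0 0) = (fun t => A t 0 0) + (fun t => r * c t) := by
          funext t
          rw [s5, Pi.add_apply, ← hA]
        rw [this, map_add, hℓ']
      symm
      refine sum_nbij' (fun A t => σ r (A t)) (fun A t => σ r (A t)) ?_ ?_ ?_ ?_ ?_
      · intro A hA
        simp only [mem_filter, mem_univ, true_and] at hA ⊢
        obtain ⟨h1, h2⟩ := hmem A hA.1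
        exact ⟨h1, by rw [h2, hA.2, zero_add]⟩
      · intro A hA
        simp only [mem_filter, mem_univ, true_and] at hA ⊢
        obtain ⟨h1, h2⟩ := hmem A hA.1
        exact ⟨h1, by rw [h2, hA.2, add_self hR]⟩
      · intro A _
        funext t
        exact s3 r (A t)
      · intro A _
        funext t
        exact s3 r (A t)
      · intro A _
        rw [ev_map (σ r) (s2 r), s5]
    rw [sum_congr rfl fun r _ => e r]
    simp only [sum_add_distrib, ← mul_sum]
    rw [← sum_mul, sum_all hR a b ha hb hab, zero_mul, add_zero]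
    exact transl Nat.prime_two univ (fun _ : R => _) a ha (hR _) (by simp) (by simp) hR

end Pool.Agent.KS6_19.MW
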