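import Mathlib
import Pool.Agent.KS6_19.MW3

namespace Pool.Agent.KS6_19.MW

universe u v

open Finset Matrix

variable {R : Type u} {m : ℕ} [NonUnitalRing R]

lemma ev_ringmap {S : Type v} [NonUnitalRing S] {d : ℕ} (φ : R →ₙ+* S) (A : Fin m → M d R)
    (s : Fin m) (l : List (Fin m)) :
    ev (fun t => (A t).map φ) s l = (ev A s l).map φ :=
  ev_map (fun A : M d R => A.map φ) (fun _ _ => Matrix.map_mul) A s l

variable [Fintype R]

lemma exc (hR : ∀ r : R, 2 • r = 0) (e : R) (e0 : e ≠ 0) (ee : e * e = e) (h : ∀ r : R, r = 0 ∨ r = e)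
    (s : Fin m) (l : List (Fin m)) :
    T 2 R s l 0 0 = if T 2 (ZMod 2) s l 0 0 = 1 then e else 0 := by
  classical
  have c2 : ∀ x : ZMod 2, x = 0 ∨ x = 1 := by decide
  have h11 : (1 : ZMod 2) + 1 = 0 := by decide
  have aa : e + e = 0 := by rw [← two_nsmul, hR]
  let φ : ZMod 2 →ₙ+* R :=
    { toFun := fun x => if x = 0 then 0 else e
      map_zero' := if_pos rfl
      map_add' := fun x y => by
        rcases c2 x with rfl | rfl <;> rcases c2 y with rfl | rfl <;> simp [h11, aa]
      map_mul' := fun x y => by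
        rcases c2 x with rfl | rfl <;> rcases c2 y with rfl | rfl <;> simp [ee] }
  have f0 : φ 0 = 0 := map_zero φ
  have h10 : ¬ (1 : ZMod 2) = 0 := by decide
  have f1 : φ 1 = e := by
    change (if (1 : ZMod 2) = 0 then (0 : R) else e) = e
    exact if_neg h10
  have fb : Function.Bijective φ := by
    constructor
    · intro x y hxy
      rcases c2 x with rfl | rfl <;> rcases c2 y with rfl | rfl
      · rfl
      · rw [f0, f1] at hxy; exact absurd hxy.symm e0
      · rw [f0, f1] at hxy; exact absurd hxy e0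
      · rfl
    · intro r
      rcases h r with rfl | rfl
      · exact ⟨0, f0⟩
      · exact ⟨1, f1⟩
  obtain ⟨ψ, h1, h2⟩ := Function.bijective_iff_has_inverse.1 fb
  have bij : Function.Bijective (fun (A : Fin m → M 2 (ZMod 2)) t => (A t).map φ) := by
    refine Function.bijective_iff_has_inverse.2 ⟨fun B t => (B t).map ψ, fun A => ?_, fun B => ?_⟩
    · funext t; ext a b; exact h1 _
    · funext t; ext a b; exact h2 _
  rw [T_apply, T_apply, ← bij.sum_comp (fun B : Fin m → M 2 R => ev B s l 0 0)]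
  have : ∀ A : Fin m → M 2 (ZMod 2), ev (fun t => (A t).map φ) s l 0 0 = φ (ev A s l 0 0) := by
    intro A
    rw [ev_ringmap]; rfl
  simp only [this]
  rw [← map_sum]
  generalize ∑ A : Fin m → M 2 (ZMod 2), ev A s l 0 0 = x
  rcases c2 x with rfl | rfl
  · rw [f0, if_neg (by decide)]
  · rw [f1, if_pos rfl]

lemma expp {p : ℕ} (hp : p.Prime) (hR : ∀ r : R, p • r = 0) (d : ℕ) (s : Fin m) (l : List (Fin m)) :
    T (d + 2) R s l 0 0 = 0 ∨ (p = 2 ∧ d = 0 ∧ ∃ e : R, e ≠ 0 ∧ e * e = e ∧ ∀ r : R, r = 0 ∨ r = e) := by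
  classical
  by_cases h0 : ∀ r : R, r = 0
  · exact Or.inl (h0 _)
  push Not at h0
  obtain ⟨r, hr⟩ := h0
  rcases d with _ | d
  swap
  · exact Or.inl (big hp hR r hr s l)
  by_cases h2 : p = 2
  swap
  · exact Or.inl (oddp hp h2 hR r hr s l)
  subst h2
  by_cases hn : ∀ r : R, r * r = 0 → r = 0
  swap
  · push Not at hn
    obtain ⟨n, n1, n2⟩ := hn
    exact Or.inl (nil hR n n2 n1 s l)
  by_cases h : ∀ s : R, s = 0 ∨ s = r
  · exact Or.inr ⟨rfl, rfl, r, hr, (h _).resolve_left (fun a => hr (hn r a)), h⟩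
  push Not at h
  obtain ⟨s', s1, s2⟩ := h
  exact Or.inl (comm4 hR (comm_red R hR hn) s' r s1 hr s2 s l)

omit [Fintype R] in
lemma lin {d : ℕ} (n : ℕ) (hm : ∀ r : R, (n * n) • r = 0) (A : Fin m → M d R) (s : Fin m)
    (l : List (Fin m)) :
    ∃ D : (Fin m → M d R) →+ M d R, ∀ B, ev (A + n • B) s l = ev A s l + D (n • B) := by
  induction l using List.reverseRecOn with
  | nil => exact ⟨Pi.evalAddMonoidHom _ s, fun _ => rfl⟩
  | append_singleton l u ih =>
    obtain ⟨D, hD⟩ := ih
    refine ⟨(AddMonoidHom.mulRight (A u)).comp D +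
      (AddMonoidHom.mulLeft (ev A s l)).comp (Pi.evalAddMonoidHom _ u), fun B => ?_⟩
    have z : D (n • B) * (n • B u) = 0 := by
      rw [map_nsmul, smul_mul_smul_comm]; ext; simp [hm]
    rw [ev_snoc, ev_snoc, hD, Pi.add_apply, Pi.smul_apply, add_mul, mul_add, mul_add, z]
    simp only [AddMonoidHom.add_apply, AddMonoidHom.comp_apply, AddMonoidHom.mulRight_apply,
      AddMonoidHom.coe_mulLeft, Pi.evalAddMonoidHom_apply, Pi.smul_apply]
    abel

lemma cardM (d : ℕ) (X : Type u) [Fintype X] : Fintype.card (M d X) = (Fintype.card X ^ d) ^ d := by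
  rw [Fintype.card_congr Matrix.of.symm]; simp

lemma cardT (d : ℕ) (X : Type u) [Fintype X] :
    Fintype.card (Fin m → M d X) = ((Fintype.card X ^ d) ^ d) ^ m := by
  rw [Fintype.card_fun, Fintype.card_fin, cardM]

lemma sumT {X : Type u} [AddCommGroup X] [Fintype X] (d : ℕ) :
    ∑ N : Fin m → M (d + 2) X, N = 0 := by
  classical
  funext t
  refine Matrix.ext (fun a b => ?_)
  obtain ⟨c, hc⟩ := exists_ne a
  have := ((Finite.injective_iff_bijective (f := fun (N : Fin m → M (d + 2) X) u =>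
      N u + single c b (if u = t then N t a b else 0))).1
    (fun N N' h => by
      have h1 := congrFun (congrFun (congrFun h t) a) b
      simp only [Matrix.add_apply, single_apply_of_row_ne hc, add_zero] at h1
      funext u
      have h2 := congrFun h u
      simp only [h1] at h2
      exact add_right_cancel h2)).sum_comp (fun N => N t c b)
  simp only [Matrix.add_apply, single_apply_same, if_true, sum_add_distrib, add_eq_left] at this
  rw [Finset.sum_apply, Matrix.sum_apply, this]; rfl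

lemma caseB {p a n : ℕ} (hp : p.Prime) (h1 : ∀ r : R, (p ^ (a + 2) * n) • r = 0) (r0 : R)
    (h2 : (p ^ (a + 1) * n) • r0 ≠ 0) (d : ℕ) (s : Fin m) (l : List (Fin m)) :
    n • T (d + 2) R s l = 0 := by
  classical
  have hm1 : 1 ≤ m := by have := s.2; omega
  have := Fact.mk hp
  obtain ⟨t, ht⟩ : ∃ t, t = a / 2 := ⟨_, rfl⟩
  obtain ⟨q, hq⟩ : ∃ q, q = p ^ (a + 1 - t) * n := ⟨_, rfl⟩
  have dv : ∀ c, p ^ (a + 2) * n ∣ c → ∀ r : R, c • r = 0 := by
    rintro _ ⟨c, rfl⟩ r; rw [mul_nsmul', h1]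
  have mm := dv (q * q) (by
    rw [hq, mul_mul_mul_comm, ← pow_add]
    exact mul_dvd_mul (pow_dvd_pow _ (by omega)) (dvd_mul_left _ _))
  let I : AddSubgroup R := (nsmulAddMonoidHom q).range
  have c1 : p ^ (t + 1) ∣ Fintype.card I := by
    rw [← addOrderOf_eq_prime_pow (x := (⟨q • r0, r0, rfl⟩ : I)) (fun h => h2 (by
      have := congrArg Subtype.val h
      simp only [AddSubgroup.coe_nsmul, smul_smul, hq, ← mul_assoc, ← pow_add] at this
      rwa [show t + (a + 1 - t) = a + 1 by omega] at this)) (Subtype.ext (by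
      simp only [AddSubgroup.coe_nsmul, smul_smul, hq, ← mul_assoc, ← pow_add]
      rw [show t + 1 + (a + 1 - t) = a + 2 by omega]; exact h1 _))]
    exact addOrderOf_dvd_card
  rw [T, smul_sum]
  refine coset (H := Fin m → M (d + 2) I) ((AddMonoidHom.mapMatrix I.subtype).compLeft (Fin m))
    (fun A B h => by
      funext u; ext a b; exact congrFun (congrFun (congrFun h u) a) b) _ (fun A => ?_)
  obtain ⟨D, hD⟩ := lin q mm A s l
  have e1 : ∀ N : Fin m → M (d + 2) I,
      ev (A + (AddMonoidHom.mapMatrix I.subtype).compLeft (Fin m) N) s l =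
      ev A s l + D ((AddMonoidHom.mapMatrix I.subtype).compLeft (Fin m) N) := fun N => by
    choose B hB using fun u a b => (N u a b).2
    have : (AddMonoidHom.mapMatrix I.subtype).compLeft (Fin m) N =
        q • (fun u => Matrix.of (B u)) := by
      funext u; ext a b; exact (hB u a b).symm
    rw [this, hD]
  simp only [e1]
  rw [← smul_sum, sum_add_distrib, ← map_sum, ← map_sum, sumT, map_zero, map_zero, add_zero,
    sum_const, smul_smul]
  ext x y
  refine dv _ ?_ _
  rw [mul_comm]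
  refine mul_dvd_mul_left _ ?_
  rw [card_univ, cardT, ← pow_mul, ← pow_mul]
  refine dvd_trans ?_ (pow_dvd_pow_of_dvd c1 _)
  rw [← pow_mul]
  refine pow_dvd_pow _ (le_trans ?_ (Nat.mul_le_mul_left _
    (by nlinarith [Nat.mul_le_mul (by nlinarith : 4 ≤ (d + 2) * (d + 2)) hm1] :
      4 ≤ (d + 2) * ((d + 2) * m))))
  omega

end Pool.Agent.KS6_19.MW
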