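import Mathlib
import Pool.Agent.KS6_19.MW4

namespace Pool.Agent.KS6_19.MW

universe u v

open Finset Matrix

variable {R : Type u} {m : ℕ} [NonUnitalRing R] [Fintype R]

omit [Fintype R] in
/-- the elements killed by `p` -/
def Rp (p : ℕ) (R : Type u) [NonUnitalRing R] : NonUnitalSubring R where
  carrier := {x | p • x = 0}
  add_mem' := fun ha hb => by simp_all
  zero_mem' := by simp
  mul_mem' := fun ha _ => by simp only [Set.mem_ofPred_eq] at *; rw [← smul_mul_assoc, ha, zero_mul]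
  neg_mem' := fun ha => by simp_all

lemma loc {p : ℕ} (hp : p.Prime) (d : ℕ) (s : Fin m) (l : List (Fin m)) : ∃ ε : ℕ, ¬ p ∣ ε ∧
    (∀ c, Nat.Coprime c p → c ∣ Fintype.card R → c ∣ ε) ∧
    ((ε • T (d + 2) R s l 0 0 = 0 ∧ (p = 2 → d = 0 → Fintype.card R % 4 = 2 →
        ∃ e : R, e ≠ 0 ∧ 2 • e = 0 ∧ e * e ≠ e)) ∨
      (p = 2 ∧ d = 0 ∧ Fintype.card R % 4 = 2 ∧ ∃ e : R, e ≠ 0 ∧ e * e = e ∧
        (∀ r : R, 2 • r = 0 ↔ r = 0 ∨ r = e) ∧ ε • T (d + 2) R s l 0 0 =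
          if T 2 (ZMod 2) s l 0 0 = 1 then e else 0)) := by
  classical
  have hm1 : m ≠ 0 := by have := s.2; omega
  have := Fact.mk hp
  obtain ⟨a, n, hn, hc⟩ := Nat.exists_eq_pow_mul_and_not_dvd (Fintype.card_ne_zero (α := R)) p hp.ne_one
  have cn : ∀ c, Nat.Coprime c p → c ∣ Fintype.card R → c ∣ n := fun c h1 h2 =>
    (h1.pow_right a).dvd_of_dvd_mul_left (hc ▸ h2)
  by_cases hA : ∀ r : R, (p * n) • r = 0
  swap
  · have ex : ∃ s, ∀ r : R, (p ^ (s + 2) * n) • r = 0 := ⟨a, fun r => by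
      rw [pow_add, mul_right_comm, ← hc, mul_nsmul, card_nsmul_eq_zero, smul_zero]⟩
    have h2 : ¬ ∀ r : R, (p ^ (Nat.find ex + 1) * n) • r = 0 := by
      rcases h : Nat.find ex with _ | s
      · simpa using hA
      · exact Nat.find_min ex (by omega)
    push Not at h2
    obtain ⟨r0, h2⟩ := h2
    refine ⟨n, hn, cn, Or.inl ⟨congrFun (congrFun (caseB hp (Nat.find_spec ex) r0 h2 d s l) 0) 0,
      fun h _ h4 => absurd (fun r => ?_) hA⟩⟩
    subst h
    have : a ≤ 1 := by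
      by_contra ha
      obtain ⟨b, rfl⟩ : ∃ b, a = b + 2 := ⟨a - 2, by omega⟩
      rw [pow_add, mul_right_comm] at hc
      omega
    obtain ⟨c, h5⟩ : Fintype.card R ∣ 2 * n :=
      hc ▸ mul_dvd_mul_right (by simpa using pow_dvd_pow 2 this) _
    rw [h5, mul_nsmul, card_nsmul_eq_zero, smul_zero]
  obtain ⟨μ, -, hm⟩ := Nat.exists_mul_mod_eq_one_of_coprime (hp.coprime_iff_not_dvd.2 hn).symm hp.one_lt
  obtain ⟨q, hq⟩ : ∃ q, n * μ = p * q + 1 := ⟨n * μ / p, by rw [← hm, Nat.div_add_mod]⟩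
  have f1 : ∀ r : R, p • (n * μ) • r = 0 := fun r => by
    rw [smul_smul, ← mul_assoc, mul_nsmul, hA, smul_zero]
  have f2 : ∀ r : R, p • r = 0 → (n * μ) • r = r := fun r h => by
    rw [hq, succ_nsmul, mul_nsmul, h, smul_zero, zero_add]
  let π : R →ₙ+* Rp p R :=
    { toFun := fun r => ⟨(n * μ) • r, f1 r⟩
      map_zero' := Subtype.ext (smul_zero _)
      map_add' := fun x y => Subtype.ext (smul_add _ x y)
      map_mul' := fun x y => Subtype.ext (by
        show (n * μ) • (x * y) = (n * μ) • x * (n * μ) • y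
        rw [smul_mul_assoc, mul_smul_comm, f2 _ (f1 _)]) }
  have sj : Function.Surjective π := fun y => ⟨y, Subtype.ext (f2 _ y.2)⟩
  obtain ⟨κ, k1, -⟩ := fiber (β := R) (π : R →+ Rp p R) sj
  obtain ⟨κ', k2, k3⟩ := fiber (β := Rp p R) (G := Fin m → M (d + 2) R) (H := Fin m → M (d + 2) (Rp p R))
    ((AddMonoidHom.mapMatrix (π : R →+ Rp p R)).compLeft (Fin m))
    (fun B => ⟨fun t => (B t).map Subtype.val, by
      funext t; ext a b; exact f2 _ (B t a b).2⟩)
  have k4 : κ' = ((κ ^ (d + 2)) ^ (d + 2)) ^ m := by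
    refine Nat.eq_of_mul_eq_mul_right Fintype.card_pos (k2.trans ?_)
    rw [cardT, cardT, ← k1, mul_pow, mul_pow, mul_pow]
  have e : (n * μ) • T (d + 2) R s l 0 0 = κ' • (T (d + 2) (Rp p R) s l 0 0 : R) := by
    have := congrArg Subtype.val (k3 (fun B => ev B s l 0 0))
    rw [T_apply, T_apply, smul_sum, ← AddSubmonoidClass.coe_nsmul, ← this,
      AddSubmonoidClass.coe_finsetSum]
    exact sum_congr rfl (fun A _ =>
      (congrArg Subtype.val (congrFun (congrFun (ev_ringmap π A s l) 0) 0)).symm)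
  have hR : ∀ r : Rp p R, p • r = 0 := fun r => Subtype.ext r.2
  refine ⟨n * μ, by rw [hq]; exact fun h => hp.one_lt.ne' (Nat.dvd_one.1 ((Nat.dvd_add_right ⟨q, rfl⟩).1 h)),
    fun c h1 h2 => (cn c h1 h2).mul_right _, ?_⟩
  by_cases hx : p = 2 ∧ d = 0 ∧ Fintype.card R % 4 = 2 ∧ ∀ e : R, e ≠ 0 → 2 • e = 0 → e * e = e
  · obtain ⟨rfl, rfl, h4, he⟩ := hx
    obtain ⟨x, hx⟩ := exists_prime_addOrderOf_dvd_card (G := R) 2 (by omega)
    have x0 : x ≠ 0 := by rintro rfl; simp at hx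
    have x2 : 2 • x = 0 := hx ▸ addOrderOf_nsmul_eq_zero x
    let _ : Module (ZMod 2) (Rp 2 R) := AddCommGroup.zmodModule hR
    have c2 := Module.card_eq_pow_finrank (K := ZMod 2) (V := Rp 2 R)
    rw [ZMod.card] at c2
    have c3 : Fintype.card (Rp 2 R) ≤ 2 := by
      by_contra ha
      obtain ⟨b, hb⟩ : ∃ b, Module.finrank (ZMod 2) (Rp 2 R) = b + 2 := ⟨_, (Nat.sub_add_cancel (by
        by_contra h
        have := Nat.pow_le_pow_right (n := 2) (by omega) (show Module.finrank (ZMod 2) (Rp 2 R) ≤ 1 by omega)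
        omega)).symm⟩
      rw [c2, hb, pow_add, ← mul_assoc] at k1
      omega
    have c4 : ∀ r : Rp 2 R, r = 0 ∨ r = ⟨x, x2⟩ := fun r => by
      by_contra h
      push Not at h
      have := Fintype.two_lt_card_iff.2 ⟨r, 0, ⟨x, x2⟩, h.1, h.2, fun a => x0 (congrArg Subtype.val a).symm⟩
      omega
    have c5 : Fintype.card (Rp 2 R) = 2 := le_antisymm c3 (Fintype.one_lt_card_iff.2
      ⟨0, ⟨x, x2⟩, fun a => x0 (congrArg Subtype.val a).symm⟩)
    obtain ⟨w, hw⟩ : Odd κ' := by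
      rw [k4]; exact (((Nat.odd_iff.2 (by rw [c5] at k1; omega)).pow).pow).pow
    refine Or.inr ⟨rfl, rfl, h4, x, x0, he x x0 x2, fun r => ⟨fun h => (c4 ⟨r, h⟩).imp
      (congrArg Subtype.val) (congrArg Subtype.val), by rintro (rfl | rfl); exacts [smul_zero _, x2]⟩, ?_⟩
    rw [e, exc hR ⟨x, x2⟩ (fun a => x0 (congrArg Subtype.val a)) (Subtype.ext (he x x0 x2)) c4, hw]
    split_ifs
    · rw [succ_nsmul, mul_nsmul]; simp [x2]
    · simp
  · refine Or.inl ⟨?_, fun h1 h2 h3 => by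
      by_contra h
      push Not at h
      exact hx ⟨h1, h2, h3, h⟩⟩
    rcases expp hp hR d s l with h | ⟨rfl, rfl, x, x0, xx, h⟩
    · rw [e, h]; simp
    · have c5 : Fintype.card (Rp 2 R) = 2 := by
        rw [← card_univ, show (univ : Finset (Rp 2 R)) = {0, x} by ext r; simpa using h r, card_pair x0.symm]
      obtain ⟨w, hw⟩ : Even κ' := by
        rw [k4]
        refine Nat.even_pow.2 ⟨Nat.even_pow.2 ⟨Nat.even_pow.2 ⟨Nat.even_iff.2 ?_, by omega⟩, by omega⟩, hm1⟩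
        by_contra ho
        refine hx ⟨rfl, rfl, by rw [c5] at k1; omega, fun r r0 r2 => ?_⟩
        rcases h ⟨r, r2⟩ with a | a
        · exact absurd (congrArg Subtype.val a) r0
        · rw [← a] at xx; exact congrArg Subtype.val xx
      rw [e, hw, ← two_mul, mul_nsmul, (T 2 (Rp 2 R) s l 0 0).2, smul_zero]

omit [Fintype R] in
lemma crit [Finite R] (z : R) (h : ∀ p : ℕ, p.Prime → ∃ ε : ℕ, ¬ p ∣ ε ∧ ε • z = 0) : z = 0 := by
  by_contra hz
  obtain ⟨ε, h1, h2⟩ := h _ (Nat.minFac_prime (n := addOrderOf z) (by simpa using hz))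
  exact h1 ((Nat.minFac_dvd _).trans (addOrderOf_dvd_of_nsmul_eq_zero h2))

/-- conditions under which the sum can be nonzero -/
def Exceptional (d : ℕ) (R : Type u) [NonUnitalRing R] [Fintype R] : Prop :=
  d = 2 ∧ Fintype.card R % 4 = 2 ∧ ∀ e : R, e ≠ 0 → 2 • e = 0 → e * e = e

theorem main (d : ℕ) (hd : 1 < d) (s : Fin m) (l : List (Fin m)) :
    (¬ Exceptional d R → T d R s l = 0) ∧
    (Exceptional d R → ∀ e : R, e ≠ 0 → 2 • e = 0 →
      T d R s l = if T 2 (ZMod 2) s l 0 0 = 1 then Matrix.diagonal (fun _ => e) else 0) := by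
  obtain ⟨d, rfl⟩ : ∃ c, d = c + 2 := ⟨d - 2, by omega⟩
  rw [T_eq]
  refine ⟨fun h => ?_, fun h e e0 e2 => ?_⟩
  · rw [crit (T (d + 2) R s l 0 0) (fun p hp => ?_), diagonal_zero]
    obtain ⟨ε, h1, -, h2 | ⟨-, rfl, h4, e, e0, ee, h5, h6⟩⟩ := loc (R := R) hp d s l
    · exact ⟨ε, h1, h2.1⟩
    · exact absurd ⟨rfl, h4, fun r r0 r2 => by rw [((h5 r).1 r2).resolve_left r0, ee]⟩ h
  · obtain ⟨h0, h4, h9⟩ := h
    have key : T (d + 2) R s l 0 0 = if T 2 (ZMod 2) s l 0 0 = 1 then e else 0 := by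
      refine sub_eq_zero.1 (crit _ (fun p hp => ?_))
      obtain ⟨ε, h1, h3, h2 | ⟨rfl, -, -, x, x0, xx, h5, h6⟩⟩ := loc (R := R) hp d s l
      · refine ⟨ε, h1, ?_⟩
        by_cases hp2 : p = 2
        · obtain ⟨x, a, b, c⟩ := h2.2 hp2 (by omega) h4
          exact absurd (h9 x a b) c
        · obtain ⟨w, rfl⟩ := h3 2 ((Nat.coprime_primes Nat.prime_two hp).2 (Ne.symm hp2)) (by omega)
          rw [smul_sub, h2.1]
          split_ifs
          · rw [mul_nsmul, e2, smul_zero, sub_zero]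
          · simp
      · obtain ⟨w, rfl⟩ : Odd ε := Nat.odd_iff.2 (by omega)
        refine ⟨_, h1, ?_⟩
        rw [smul_sub, h6]
        split_ifs
        · rw [succ_nsmul, mul_nsmul, e2, smul_zero, zero_add,
            ((h5 e).1 e2).resolve_left e0, sub_self]
        · simp
    rw [key]
    split_ifs
    · rfl
    · exact diagonal_zero

end Pool.Agent.KS6_19.MW
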