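import Mathlib
import Pool.Agent.KS6_19.MW5

namespace Pool.Agent.KS6_19.MW

universe u v

open Finset Matrix

lemma mul2 (a b c d a' b' c' d' : ZMod 2) :
    (!![a, b; c, d] : Matrix (Fin 2) (Fin 2) (ZMod 2)) * !![a', b'; c', d'] =
    !![a * a' + b * c', a * b' + b * d'; c * a' + d * c', c * b' + d * d'] := by
  simp

theorem A8 (A : Matrix (Fin 2) (Fin 2) (ZMod 2)) : A ^ 8 = A ^ 2 := by
  rw [Matrix.eta_fin_two A]
  generalize A 0 0 = a
  generalize A 0 1 = b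
  generalize A 1 0 = c
  generalize A 1 1 = d
  rw [show (8 : ℕ) = 2 * 2 * 2 from rfl, pow_mul, pow_mul, pow_two, pow_two, pow_two, mul2, mul2,
    mul2]
  revert a b c d
  decide

def pw (k : ℕ) : Matrix (Fin 2) (Fin 2) (ZMod 2) := ∑ A : Matrix (Fin 2) (Fin 2) (ZMod 2), A ^ k

theorem vals : pw 1 0 0 = 0 ∧ pw 2 0 0 = 0 ∧ pw 3 0 0 = 0 ∧ pw 4 0 0 = 0 ∧ pw 5 0 0 = 1 ∧
    pw 6 0 0 = 1 ∧ pw 7 0 0 = 1 := by
  have h : ∀ f : Matrix (Fin 2) (Fin 2) (ZMod 2) → ZMod 2, ∑ A, f A =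
      ∑ a : ZMod 2, ∑ b : ZMod 2, ∑ c : ZMod 2, ∑ d : ZMod 2, f !![a, b; c, d] := by
    intro f
    rw [← Fintype.sum_prod_type', ← Fintype.sum_prod_type', ← Fintype.sum_prod_type']
    symm
    refine Fintype.sum_bijective (fun x : ((ZMod 2 × ZMod 2) × ZMod 2) × ZMod 2 =>
      !![x.1.1.1, x.1.1.2; x.1.2, x.2]) ?_ _ _ (fun _ => rfl)
    refine Function.bijective_iff_has_inverse.2
      ⟨fun A => (((A 0 0, A 0 1), A 1 0), A 1 1), fun x => rfl, fun A => ?_⟩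
    ext i j; fin_cases i <;> fin_cases j <;> rfl
  simp only [pw, Matrix.sum_apply]
  simp only [h, pow_succ, pow_zero, one_mul, mul2]
  simp only [Matrix.of_apply, Matrix.cons_val', Matrix.cons_val_zero]
  decide

lemma pw_add (k : ℕ) (hk : 2 ≤ k) : pw (k + 6) = pw k := by
  refine sum_congr rfl fun A _ => ?_
  obtain ⟨j, rfl⟩ : ∃ j, k = j + 2 := ⟨k - 2, by omega⟩
  rw [show j + 2 + 6 = j + 8 by ring, pow_add, A8, ← pow_add]

lemma pw_iff (k : ℕ) (hk : 1 ≤ k) :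
    pw k 0 0 = 1 ↔ 1 < k ∧ (k % 6 = 5 ∨ k % 6 = 0 ∨ k % 6 = 1) := by
  induction k using Nat.strong_induction_on with
  | _ k ih =>
    obtain ⟨v1, v2, v3, v4, v5, v6, v7⟩ := vals
    have h01 : ¬ (0 : ZMod 2) = 1 := by decide
    by_cases h : k ≤ 7
    · interval_cases k
      · rw [v1]; simp
      · rw [v2]; simp
      · rw [v3]; simp
      · rw [v4]; simp
      · rw [v5]; simp
      · rw [v6]; simp
      · rw [v7]; simp
    · obtain ⟨j, rfl⟩ : ∃ j, k = j + 6 := ⟨k - 6, by omega⟩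
      rw [pw_add j (by omega), ih j (by omega) (by omega)]
      omega

variable {R : Type u} [NonUnitalRing R] {d : ℕ}

/-- `A ^ k` for `k ≥ 1`, in a ring without identity -/
def mpow {R : Type u} [NonUnitalRing R] {d : ℕ} (A : Matrix (Fin d) (Fin d) R) :
    ℕ → Matrix (Fin d) (Fin d) R
  | 0 => 0
  | 1 => A
  | k + 2 => mpow A (k + 1) * A

lemma ev_replicate (A : Fin 1 → Matrix (Fin d) (Fin d) R) (n : ℕ) :
    ev A 0 (List.replicate n 0) = mpow (A 0) (n + 1) := by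
  induction n with
  | zero => rfl
  | succ n ih => rw [List.replicate_succ', ev_snoc, ih, mpow]

lemma mpow_eq {S : Type v} [Ring S] (A : Matrix (Fin d) (Fin d) S) (n : ℕ) :
    mpow A (n + 1) = A ^ (n + 1) := by
  induction n with
  | zero => rw [zero_add, pow_one]; rfl
  | succ n ih => rw [mpow, ih, ← pow_succ]

lemma T_replicate [Fintype R] (n : ℕ) :
    T d R (0 : Fin 1) (List.replicate n 0) = ∑ A : Matrix (Fin d) (Fin d) R, mpow A (n + 1) := by
  rw [T, ← (Equiv.funUnique (Fin 1) (Matrix (Fin d) (Fin d) R)).sum_comp]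
  exact sum_congr rfl fun A _ => ev_replicate A n

lemma T_pw (n : ℕ) : T 2 (ZMod 2) (0 : Fin 1) (List.replicate n 0) = pw (n + 1) := by
  rw [T_replicate, pw]
  exact sum_congr rfl fun A _ => mpow_eq A n

lemma T_two {m : ℕ} (s : Fin m) (l : List (Fin m)) :
    (T 2 (ZMod 2) s l = 0 ∨ T 2 (ZMod 2) s l = 1) ∧
      (T 2 (ZMod 2) s l 0 0 = 1 ↔ T 2 (ZMod 2) s l = 1) := by
  have c2 : ∀ x : ZMod 2, x = 0 ∨ x = 1 := by decide
  have h := T_eq (R := ZMod 2) (d := 1) s l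
  change T 2 (ZMod 2) s l = diagonal (fun _ => T 2 (ZMod 2) s l 0 0) at h
  constructor
  · rcases c2 (T 2 (ZMod 2) s l 0 0) with h0 | h0
    · left; rw [h, h0, diagonal_zero]
    · right; rw [h, h0]; exact diagonal_one
  · constructor
    · intro h0; rw [h, h0]; exact diagonal_one
    · intro h0; rw [h0, one_apply_eq]

end Pool.Agent.KS6_19.MW
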