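import Mathlib

/-!
# `⊥P`-dimension: general facts

Definitions of `⊥P` and of the `⊥P`-dimension, its characterisation by vanishing of `Ext`, and
the fact that for a nonzero module the projective dimension is the `⊥P`-dimension or infinite.
-/

namespace Pool.Agent.KS6_19.PT

open CategoryTheory Abelian Limits

/-- `M ∈ ⊥P`: `Ext^i(M, P) = 0` for all `i ≥ 1` and all projective modules `P`. -/
def Perp {R : Type} [Ring R] (M : ModuleCat.{0} R) : Prop :=
  ∀ P : ModuleCat.{0} R, Projective P → ∀ i : ℕ, 1 ≤ i → Subsingleton (Ext M P i)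

/-- `PerpDimLE n A`: there is an exact sequence `0 → T_n → ⋯ → T_0 → A → 0` with all
`T_i ∈ ⊥P`. -/
def PerpDimLE {R : Type} [Ring R] : ℕ → ModuleCat.{0} R → Prop
  | 0, A => Perp A
  | (n + 1), A => ∃ (T : ModuleCat.{0} R) (f : T ⟶ A), Epi f ∧ Perp T ∧ PerpDimLE n (kernel f)

/-- The `⊥P`-dimension of `A`, in `{0, 1, …, ∞}`. -/
noncomputable def perpDim {R : Type} [Ring R] (A : ModuleCat.{0} R) : ℕ∞ :=
  ⨅ (n : ℕ) (_ : PerpDimLE n A), (n : ℕ∞)

variable {R : Type} [Ring R]

/-- vanishing of `Ext^i(A, P)` for all projective `P` and all `i > n` -/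
def ExtVan (n : ℕ) (A : ModuleCat.{0} R) : Prop :=
  ∀ P : ModuleCat.{0} R, Projective P → ∀ i : ℕ, n < i → Subsingleton (Ext A P i)

/-- The short complex attached to `K → P → M`. -/
abbrev sc {K P M : Type} [AddCommGroup K] [Module R K] [AddCommGroup P] [Module R P]
    [AddCommGroup M] [Module R M]
    (f : K →ₗ[R] P) (g : P →ₗ[R] M) (h : g ∘ₗ f = 0) : ShortComplex (ModuleCat.{0} R) :=
  ShortComplex.mk (ModuleCat.ofHom f) (ModuleCat.ofHom g)
    (by rw [← ModuleCat.ofHom_comp, h]; rfl)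

lemma sc_shortExact {K P M : Type} [AddCommGroup K] [Module R K] [AddCommGroup P] [Module R P]
    [AddCommGroup M] [Module R M]
    (f : K →ₗ[R] P) (g : P →ₗ[R] M) (hf : Function.Injective f)
    (hg : Function.Surjective g) (hfg : Function.Exact f g) :
    (sc f g (by ext x; exact hfg.apply_apply_eq_zero x)).ShortExact := by
  have h0 : g ∘ₗ f = 0 := by ext x; exact hfg.apply_apply_eq_zero x
  exact { exact := by
            rw [ShortComplex.moduleCat_exact_iff]
            intro x hx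
            exact (hfg x).1 hx
          mono_f := (ModuleCat.mono_iff_injective _).2 hf
          epi_g := (ModuleCat.epi_iff_surjective _).2 hg }

/-- Extension criterion for `Ext^1 = 0`. -/
theorem subsingleton_ext_one_of_extend {K P M N : Type} [AddCommGroup K] [Module R K]
    [AddCommGroup P] [Module R P] [AddCommGroup M] [Module R M] [AddCommGroup N] [Module R N]
    (f : K →ₗ[R] P) (g : P →ₗ[R] M)
    (hf : Function.Injective f) (hg : Function.Surjective g) (hfg : Function.Exact f g)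
    [Module.Projective R P]
    (h : ∀ φ : K →ₗ[R] N, ∃ ψ : P →ₗ[R] N, ψ ∘ₗ f = φ) :
    Subsingleton (Ext (ModuleCat.of R M) (ModuleCat.of R N) 1) := by
  have hS := sc_shortExact f g hf hg hfg
  refine subsingleton_of_forall_eq 0 fun x => ?_
  have : Projective (ModuleCat.of R P) := IsProjective.iff_projective P |>.1 inferInstance
  obtain ⟨y, hy⟩ := Ext.contravariant_sequence_exact₃ hS (ModuleCat.of R N) x
    (@Ext.eq_zero_of_projective _ _ _ _ (ModuleCat.of R P) _ 0 this _) (add_zero 1)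
  obtain ⟨φ, rfl⟩ := (Ext.mk₀_bijective _ _).2 y
  obtain ⟨ψ, hψ⟩ := h φ.hom
  have : φ = (sc f g (by ext x; exact hfg.apply_apply_eq_zero x)).f ≫ ModuleCat.ofHom ψ := by
    ext z
    have := LinearMap.congr_fun hψ z
    exact this.symm
  rw [← hy, this, ← Ext.mk₀_comp_mk₀]
  exact hS.extClass_comp_assoc (Ext.mk₀ _) (h := rfl)

lemma ker_se {T A : ModuleCat.{0} R} (f : T ⟶ A) [Epi f] :
    (ShortComplex.mk _ _ (kernel.condition f)).ShortExact :=
  { exact := ShortComplex.exact_kernel f }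

/-- dimension shift, down -/
lemma shift_down {K T A P : ModuleCat.{0} R} (f : K ⟶ T) (g : T ⟶ A) (w : f ≫ g = 0)
    (hS : (ShortComplex.mk f g w).ShortExact) (i : ℕ) (hi : 1 ≤ i)
    (hT : Subsingleton (Ext T P (i + 1))) (hK : Subsingleton (Ext K P i)) :
    Subsingleton (Ext A P (i + 1)) := by
  refine subsingleton_of_forall_eq 0 fun x => ?_
  obtain ⟨y, hy⟩ := Ext.contravariant_sequence_exact₃ hS P x (hT.elim _ _) (n₀ := i) (by omega)
  rw [← hy, hK.elim y 0, Ext.comp_zero]

/-- dimension shift, up -/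
lemma shift_up {K T A P : ModuleCat.{0} R} (f : K ⟶ T) (g : T ⟶ A) (w : f ≫ g = 0)
    (hS : (ShortComplex.mk f g w).ShortExact) (i : ℕ)
    (hT : Subsingleton (Ext T P i)) (hA : Subsingleton (Ext A P (i + 1))) :
    Subsingleton (Ext K P i) := by
  refine subsingleton_of_forall_eq 0 fun x => ?_
  obtain ⟨y, hy⟩ := Ext.contravariant_sequence_exact₁ hS P x (n₁ := i + 1) (by omega) (hA.elim _ _)
  rw [← hy, hT.elim y 0, Ext.comp_zero]

lemma proj_sub {T P : ModuleCat.{0} R} (hT : Projective T) (i : ℕ) (hi : 1 ≤ i) :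
    Subsingleton (Ext T P i) := by
  obtain ⟨n, rfl⟩ : ∃ n, i = n + 1 := ⟨i - 1, by omega⟩
  refine subsingleton_of_forall_eq 0 fun x => ?_
  exact Ext.eq_zero_of_projective x

theorem perpDimLE_iff (n : ℕ) (A : ModuleCat.{0} R) : PerpDimLE n A ↔ ExtVan n A := by
  induction n generalizing A with
  | zero => exact Iff.rfl
  | succ n ih =>
    constructor
    · rintro ⟨T, f, hf, hT, hK⟩ P hP i hi
      rw [ih] at hK
      obtain ⟨i, rfl⟩ : ∃ j, i = j + 1 := ⟨i - 1, by omega⟩
      exact shift_down _ _ _ (ker_se f) i (by omega) (hT P hP _ (by omega)) (hK P hP i (by omega))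
    · intro h
      refine ⟨Projective.over A, Projective.π A, inferInstance, ?_, ?_⟩
      · intro P hP i hi
        exact proj_sub inferInstance i hi
      · rw [ih]
        intro P hP i hi
        exact shift_up _ _ _ (ker_se (Projective.π A)) i (proj_sub inferInstance i (by omega))
          (h P hP _ (by omega))

lemma ExtVan.mono {n m : ℕ} (h : n ≤ m) {A : ModuleCat.{0} R} (hA : ExtVan n A) : ExtVan m A :=
  fun P hP i hi => hA P hP i (by omega)

theorem perpDim_le_iff (A : ModuleCat.{0} R) (n : ℕ) : perpDim A ≤ n ↔ ExtVan n A := by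
  constructor
  · intro h
    by_contra hn
    have h1 : ((n + 1 : ℕ) : ℕ∞) ≤ perpDim A := by
      refine le_iInf₂ fun m hm => ?_
      rw [perpDimLE_iff] at hm
      have : n < m := by
        by_contra hlt
        exact hn (hm.mono (by omega))
      exact_mod_cast this
    have h2 := h1.trans h
    have : n + 1 ≤ n := by exact_mod_cast h2
    omega
  · intro h
    exact iInf₂_le_of_le n ((perpDimLE_iff n A).2 h) le_rfl

lemma extVan_of_pdLT {n : ℕ} {A : ModuleCat.{0} R} (h : HasProjectiveDimensionLT A (n + 1)) :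
    ExtVan n A := fun P _ i hi => HasProjectiveDimensionLT.subsingleton A (n + 1) i (by omega) P

lemma pdLT_step (n : ℕ) (A : ModuleCat.{0} R) (h : HasProjectiveDimensionLT A (n + 2))
    (he : ∀ P : ModuleCat.{0} R, Projective P → Subsingleton (Ext A P (n + 1))) :
    HasProjectiveDimensionLT A (n + 1) := by
  induction n generalizing A with
  | zero =>
    have hS := ker_se (Projective.π A)
    have hK : HasProjectiveDimensionLT (kernel (Projective.π A)) 1 :=
      (hS.hasProjectiveDimensionLT_X₃_iff 0 (Projective.projective_over A)).1 h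
    have hKp : Projective (kernel (Projective.π A)) :=
      projective_iff_hasProjectiveDimensionLT_one.2 hK
    have hE := he _ hKp
    obtain ⟨y, hy⟩ := Ext.covariant_sequence_exact₃ A hS
      (Ext.mk₀ (𝟙 A)) (zero_add 1) (hE.elim _ _)
    obtain ⟨s, rfl⟩ := (Ext.mk₀_bijective _ _).2 y
    rw [Ext.mk₀_comp_mk₀] at hy
    have hsec := (Ext.mk₀_bijective _ _).1 hy
    have hret : Retract A (Projective.over A) := ⟨s, Projective.π A, hsec⟩
    exact hret.hasProjectiveDimensionLT 1
  | succ n ih =>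
    have hS := ker_se (Projective.π A)
    have hK : HasProjectiveDimensionLT (kernel (Projective.π A)) (n + 2) :=
      (hS.hasProjectiveDimensionLT_X₃_iff (n + 1) (Projective.projective_over A)).1 h
    refine (hS.hasProjectiveDimensionLT_X₃_iff n (Projective.projective_over A)).2 (ih _ hK ?_)
    intro P hP
    exact shift_up _ _ _ hS (n + 1) (proj_sub inferInstance _ (by omega)) (he P hP)

lemma pdLT_of_extVan (n m : ℕ) (A : ModuleCat.{0} R) (h : HasProjectiveDimensionLT A (n + 1))
    (hv : ExtVan m A) : HasProjectiveDimensionLT A (m + 1) := by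
  induction n with
  | zero => exact hasProjectiveDimensionLT_of_ge A 1 (m + 1) (by omega)
  | succ n ih =>
    by_cases hnm : n + 1 ≤ m
    · exact hasProjectiveDimensionLT_of_ge A (n + 2) (m + 1) (by omega)
    · exact ih (pdLT_step n A h fun P hP => hv P hP (n + 1) (by omega))

lemma ENat_le_of (x y : ℕ∞) (h : ∀ n : ℕ, y ≤ n → x ≤ n) : x ≤ y := by
  cases y with
  | top => exact le_top
  | coe n => exact h n le_rfl

lemma perpDim_eq_of {A : ModuleCat.{0} R} {b : ℕ∞} (h : ∀ n : ℕ, ExtVan n A ↔ b ≤ n) :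
    perpDim A = b := by
  refine le_antisymm (ENat_le_of _ _ fun n hn => ?_) (ENat_le_of _ _ fun n hn => ?_)
  · exact (perpDim_le_iff A n).2 ((h n).2 hn)
  · exact (h n).1 ((perpDim_le_iff A n).1 hn)

lemma WB_le_of (x : WithBot ℕ∞) (hx : x ≠ ⊥) (y : ℕ∞) (h : ∀ n : ℕ, y ≤ n → x ≤ n)
    (h' : ∀ n : ℕ, x ≤ n → y ≤ n) : x = (y : WithBot ℕ∞) := by
  induction x with
  | bot => exact absurd rfl hx
  | coe x =>
    have e1 : ∀ n : ℕ, ((x : WithBot ℕ∞) ≤ n ↔ x ≤ n) := fun n => by
      exact WithBot.coe_le_coe (a := x) (b := (n : ℕ∞))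
    congr 1
    refine le_antisymm (ENat_le_of _ _ fun n hn => ?_) (ENat_le_of _ _ fun n hn => ?_)
    · exact (e1 n).1 (h n hn)
    · exact h' n ((e1 n).2 hn)

lemma pd_eq_of {A : ModuleCat.{0} R} (hA : Nontrivial A) {c : ℕ∞}
    (h : ∀ n : ℕ, HasProjectiveDimensionLT A (n + 1) ↔ c ≤ n) :
    projectiveDimension A = (c : WithBot ℕ∞) := by
  apply WB_le_of
  · intro hb
    rw [projectiveDimension_eq_bot_iff] at hb
    have := ModuleCat.subsingleton_of_isZero hb
    exact not_subsingleton A this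
  · intro n hn
    rw [projectiveDimension_le_iff]
    exact (h n).2 hn
  · intro n hn
    rw [projectiveDimension_le_iff] at hn
    exact (h n).1 hn

lemma id_eq_of {A : ModuleCat.{0} R} (hA : Nontrivial A) {c : ℕ∞}
    (h : ∀ n : ℕ, HasInjectiveDimensionLT A (n + 1) ↔ c ≤ n) :
    injectiveDimension A = (c : WithBot ℕ∞) := by
  apply WB_le_of
  · intro hb
    rw [injectiveDimension_eq_bot_iff] at hb
    have := ModuleCat.subsingleton_of_isZero hb
    exact not_subsingleton A this
  · intro n hn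
    rw [injectiveDimension_le_iff]
    exact (h n).2 hn
  · intro n hn
    rw [injectiveDimension_le_iff] at hn
    exact (h n).1 hn

/-- For a nonzero module, the projective dimension is the `⊥P`-dimension or infinite. -/
theorem pd_eq_perpDim_or_top (A : ModuleCat.{0} R) (hA : Nontrivial A) :
    projectiveDimension A = (perpDim A : WithBot ℕ∞) ∨ projectiveDimension A = ⊤ := by
  by_cases h : projectiveDimension A = ⊤
  · exact Or.inr h
  · left
    obtain ⟨n, hn⟩ := (projectiveDimension_ne_top_iff A).1 h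
    refine pd_eq_of hA fun m => ?_
    rw [perpDim_le_iff]
    exact ⟨extVan_of_pdLT, pdLT_of_extVan n m A hn⟩

/-- `Ext` vanishing for a biproduct -/
lemma extVan_biprod {X W : ModuleCat.{0} R} (n : ℕ) :
    ExtVan n (X ⊞ W) ↔ ExtVan n X ∧ ExtVan n W := by
  constructor
  · intro h
    constructor
    · intro P hP i hi
      refine subsingleton_of_forall_eq 0 fun x => ?_
      have h1 : (Ext.mk₀ (biprod.inl : X ⟶ X ⊞ W)).comp
          ((Ext.mk₀ (biprod.fst : X ⊞ W ⟶ X)).comp x (zero_add i)) (zero_add i) = x := by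
        rw [Ext.mk₀_comp_mk₀_assoc, biprod.inl_fst, Ext.mk₀_id_comp]
      rw [← h1, (h P hP i hi).elim ((Ext.mk₀ (biprod.fst : X ⊞ W ⟶ X)).comp x (zero_add i)) 0,
        Ext.comp_zero]
    · intro P hP i hi
      refine subsingleton_of_forall_eq 0 fun x => ?_
      have h1 : (Ext.mk₀ (biprod.inr : W ⟶ X ⊞ W)).comp
          ((Ext.mk₀ (biprod.snd : X ⊞ W ⟶ W)).comp x (zero_add i)) (zero_add i) = x := by
        rw [Ext.mk₀_comp_mk₀_assoc, biprod.inr_snd, Ext.mk₀_id_comp]
      rw [← h1, (h P hP i hi).elim ((Ext.mk₀ (biprod.snd : X ⊞ W ⟶ W)).comp x (zero_add i)) 0,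
        Ext.comp_zero]
  · rintro ⟨hX, hW⟩ P hP i hi
    refine subsingleton_of_forall_eq 0 fun x => ?_
    have h1 : x = (Ext.mk₀ ((biprod.fst : X ⊞ W ⟶ X) ≫ biprod.inl + biprod.snd ≫ biprod.inr)).comp
        x (zero_add i) := by
      rw [biprod.total, Ext.mk₀_id_comp]
    rw [h1, Ext.mk₀_add, Ext.add_comp, ← Ext.mk₀_comp_mk₀_assoc, ← Ext.mk₀_comp_mk₀_assoc,
      (hX P hP i hi).elim ((Ext.mk₀ (biprod.inl : X ⟶ X ⊞ W)).comp x (zero_add i)) 0,
      (hW P hP i hi).elim ((Ext.mk₀ (biprod.inr : W ⟶ X ⊞ W)).comp x (zero_add i)) 0,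
      Ext.comp_zero, Ext.comp_zero, add_zero]

lemma pdLT_biprod {X W : ModuleCat.{0} R} (n : ℕ) :
    HasProjectiveDimensionLT (X ⊞ W) n ↔
      HasProjectiveDimensionLT X n ∧ HasProjectiveDimensionLT W n := by
  constructor
  · intro h
    have r1 : Retract X (X ⊞ W) := ⟨biprod.inl, biprod.fst, biprod.inl_fst⟩
    have r2 : Retract W (X ⊞ W) := ⟨biprod.inr, biprod.snd, biprod.inr_snd⟩
    exact ⟨r1.hasProjectiveDimensionLT n, r2.hasProjectiveDimensionLT n⟩
  · rintro ⟨h1, h2⟩
    infer_instance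

lemma idLT_biprod {X W : ModuleCat.{0} R} (n : ℕ) :
    HasInjectiveDimensionLT (X ⊞ W) n ↔
      HasInjectiveDimensionLT X n ∧ HasInjectiveDimensionLT W n := by
  constructor
  · intro h
    have r1 : Retract X (X ⊞ W) := ⟨biprod.inl, biprod.fst, biprod.inl_fst⟩
    have r2 : Retract W (X ⊞ W) := ⟨biprod.inr, biprod.snd, biprod.inr_snd⟩
    exact ⟨r1.hasInjectiveDimensionLT n, r2.hasInjectiveDimensionLT n⟩
  · rintro ⟨h1, h2⟩
    infer_instance

/-- `Ext` vanishing passes to retracts -/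
lemma ExtVan.retract {X Y : ModuleCat.{0} R} (r : Retract X Y) {n : ℕ} (h : ExtVan n Y) :
    ExtVan n X := by
  intro P hP i hi
  refine subsingleton_of_forall_eq 0 fun x => ?_
  have h1 : (Ext.mk₀ r.i).comp ((Ext.mk₀ r.r).comp x (zero_add i)) (zero_add i) = x := by
    rw [Ext.mk₀_comp_mk₀_assoc, r.retract, Ext.mk₀_id_comp]
  rw [← h1, (h P hP i hi).elim ((Ext.mk₀ r.r).comp x (zero_add i)) 0, Ext.comp_zero]

end Pool.Agent.KS6_19.PT
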