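import Mathlib
import Pool.Agent.KS6_19.PT

/-!
# Radical-square-zero path algebras of unions of lines

For a quiver in which every vertex is the source of at most one arrow and the target of at most
one arrow, the ring `QR` of pairs `(d, m)` (vertex part, arrow part), its simple modules and their
projective, injective and `⊥P`-dimensions.
-/

namespace Pool.Agent.KS6_19.PQ

open CategoryTheory Abelian Limits

/-- A quiver in which every vertex is the source of at most one arrow and the target of at most
one arrow. -/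
structure Qv where
  /-- vertices -/
  V : Type
  /-- arrows -/
  J : Type
  /-- source -/
  src : J → V
  /-- target -/
  tgt : J → V
  hs : Function.Injective src
  ht : Function.Injective tgt

/-- The ring of pairs `(d, m)` of functions on the vertices and on the arrows. -/
@[ext] structure QR (k : Type) (Q : Qv) where
  /-- diagonal part -/
  d : Q.V → k
  /-- arrow part -/
  m : Q.J → k

variable {k : Type} [Field k] {Q : Qv}

namespace QR

instance : Zero (QR k Q) := ⟨⟨0, 0⟩⟩
instance : One (QR k Q) := ⟨⟨1, 0⟩⟩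
instance : Add (QR k Q) := ⟨fun x y => ⟨x.d + y.d, x.m + y.m⟩⟩
instance : Neg (QR k Q) := ⟨fun x => ⟨-x.d, -x.m⟩⟩
instance : Mul (QR k Q) :=
  ⟨fun x y => ⟨x.d * y.d, fun j => x.d (Q.tgt j) * y.m j + x.m j * y.d (Q.src j)⟩⟩

@[simp] lemma zero_d (i : Q.V) : (0 : QR k Q).d i = 0 := rfl
@[simp] lemma zero_m (i : Q.J) : (0 : QR k Q).m i = 0 := rfl
@[simp] lemma one_d (i : Q.V) : (1 : QR k Q).d i = 1 := rfl
@[simp] lemma one_m (i : Q.J) : (1 : QR k Q).m i = 0 := rfl
@[simp] lemma add_d (x y : QR k Q) (i : Q.V) : (x + y).d i = x.d i + y.d i := rfl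
@[simp] lemma add_m (x y : QR k Q) (i : Q.J) : (x + y).m i = x.m i + y.m i := rfl
@[simp] lemma neg_d (x : QR k Q) (i : Q.V) : (-x).d i = - x.d i := rfl
@[simp] lemma neg_m (x : QR k Q) (i : Q.J) : (-x).m i = - x.m i := rfl
@[simp] lemma mul_d (x y : QR k Q) (i : Q.V) : (x * y).d i = x.d i * y.d i := rfl
@[simp] lemma mul_m (x y : QR k Q) (j : Q.J) :
    (x * y).m j = x.d (Q.tgt j) * y.m j + x.m j * y.d (Q.src j) := rfl

omit [Field k] in
lemma ext' {x y : QR k Q} (h1 : ∀ i, x.d i = y.d i) (h2 : ∀ i, x.m i = y.m i) : x = y :=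
  QR.ext (funext h1) (funext h2)

instance : Ring (QR k Q) where
  add_assoc x y z := by apply ext' <;> intro i <;> simp <;> ring
  zero_add x := by apply ext' <;> intro i <;> simp
  add_zero x := by apply ext' <;> intro i <;> simp
  add_comm x y := by apply ext' <;> intro i <;> simp <;> ring
  neg_add_cancel x := by apply ext' <;> intro i <;> simp
  mul_assoc x y z := by apply ext' <;> intro i <;> simp <;> ring
  one_mul x := by apply ext' <;> intro i <;> simp
  mul_one x := by apply ext' <;> intro i <;> simp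
  left_distrib x y z := by apply ext' <;> intro i <;> simp <;> ring
  right_distrib x y z := by apply ext' <;> intro i <;> simp <;> ring
  zero_mul x := by apply ext' <;> intro i <;> simp
  mul_zero x := by apply ext' <;> intro i <;> simp
  nsmul := nsmulRec
  zsmul := zsmulRec

/-- constants -/
def cst : k →+* QR k Q where
  toFun c := ⟨fun _ => c, fun _ => 0⟩
  map_one' := rfl
  map_mul' x y := by apply ext' <;> intro i <;> simp
  map_zero' := rfl
  map_add' x y := by apply ext' <;> intro i <;> simp

@[simp] lemma cst_d (c : k) (i : Q.V) : (cst c : QR k Q).d i = c := rfl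
@[simp] lemma cst_m (c : k) (i : Q.J) : (cst c : QR k Q).m i = 0 := rfl

instance : Algebra k (QR k Q) :=
  RingHom.toAlgebra' cst (fun c x => by apply ext' <;> intro i <;> simp <;> ring)

lemma algebraMap_eq (c : k) : algebraMap k (QR k Q) c = cst c := rfl

end QR

/-- the character `d_i` -/
def dHom (i : Q.V) : QR k Q →+* k where
  toFun x := x.d i
  map_one' := rfl
  map_mul' _ _ := rfl
  map_zero' := rfl
  map_add' _ _ := rfl

/-- The simple module at the vertex `i`. -/
def Sm (k : Type) (Q : Qv) (_ : Q.V) : Type := k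

instance (i : Q.V) : AddCommGroup (Sm k Q i) := inferInstanceAs (AddCommGroup k)
instance (i : Q.V) : Module (QR k Q) (Sm k Q i) := Module.compHom k (dHom i)
instance (i : Q.V) : Nontrivial (Sm k Q i) := inferInstanceAs (Nontrivial k)

lemma Sm_smul (i : Q.V) (r : QR k Q) (a : k) :
    r • (show Sm k Q i from a) = (show Sm k Q i from r.d i * a) := rfl

/-- The indecomposable module supported on the arrow `j`. -/
def Vm (k : Type) (Q : Qv) (_ : Q.J) : Type := k × k

instance (j : Q.J) : AddCommGroup (Vm k Q j) := inferInstanceAs (AddCommGroup (k × k))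
instance (j : Q.J) : Module (QR k Q) (Vm k Q j) where
  smul r v := (r.d (Q.src j) * v.1, r.m j * v.1 + r.d (Q.tgt j) * v.2)
  one_smul v := by
    obtain ⟨a, b⟩ := v
    change (((1 : QR k Q).d (Q.src j) * a,
      (1 : QR k Q).m j * a + (1 : QR k Q).d (Q.tgt j) * b) : k × k) = (a, b)
    simp
  mul_smul r s v := by
    change ((r * s).d (Q.src j) * v.1, (r * s).m j * v.1 + (r * s).d (Q.tgt j) * v.2) =
      (r.d (Q.src j) * (s.d (Q.src j) * v.1), r.m j * (s.d (Q.src j) * v.1) +
        r.d (Q.tgt j) * (s.m j * v.1 + s.d (Q.tgt j) * v.2))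
    simp only [QR.mul_d, QR.mul_m, Prod.mk.injEq]
    constructor <;> ring
  smul_zero r := by
    change ((r.d (Q.src j) * (0 : k), r.m j * 0 + r.d (Q.tgt j) * 0) : k × k) = 0
    simp
  smul_add r v w := by
    change ((r.d (Q.src j) * (v.1 + w.1),
        r.m j * (v.1 + w.1) + r.d (Q.tgt j) * (v.2 + w.2)) : k × k) =
      (r.d (Q.src j) * v.1 + r.d (Q.src j) * w.1,
        (r.m j * v.1 + r.d (Q.tgt j) * v.2) + (r.m j * w.1 + r.d (Q.tgt j) * w.2))
    simp only [Prod.mk.injEq]
    constructor <;> ring
  add_smul r s v := by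
    change (((r + s).d (Q.src j) * v.1,
        (r + s).m j * v.1 + (r + s).d (Q.tgt j) * v.2) : k × k) =
      (r.d (Q.src j) * v.1 + s.d (Q.src j) * v.1,
        (r.m j * v.1 + r.d (Q.tgt j) * v.2) + (s.m j * v.1 + s.d (Q.tgt j) * v.2))
    simp only [QR.add_d, QR.add_m, Prod.mk.injEq]
    constructor <;> ring
  zero_smul v := by
    change ((((0 : QR k Q)).d (Q.src j) * v.1,
      ((0 : QR k Q)).m j * v.1 + ((0 : QR k Q)).d (Q.tgt j) * v.2) : k × k) = 0
    simp

lemma Vm_smul (j : Q.J) (r : QR k Q) (a b : k) :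
    r • (show Vm k Q j from (a, b)) =
      (show Vm k Q j from (r.d (Q.src j) * a, r.m j * a + r.d (Q.tgt j) * b)) :=
  rfl

open Classical in
/-- `Vm → R`, `(a, b) ↦ a e + b α` -/
noncomputable def toR (j : Q.J) : Vm k Q j →ₗ[QR k Q] QR k Q where
  toFun v := ⟨fun i => if i = Q.src j then v.1 else 0, fun i => if i = j then v.2 else 0⟩
  map_add' v w := by
    apply QR.ext'
    · intro i; by_cases h : i = Q.src j <;> simp [h] <;> rfl
    · intro i; by_cases h : i = j <;> simp [h] <;> rfl
  map_smul' r v := by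
    obtain ⟨a, b⟩ := v
    rw [Vm_smul]
    apply QR.ext'
    · intro i
      by_cases h : i = Q.src j
      · subst h; simp
      · simp [h]
    · intro i
      by_cases h : i = j
      · subst h; simp; ring
      · have h' : Q.src i ≠ Q.src j := fun e => h (Q.hs e)
        simp [h, h']

/-- `R → Vm`, `r ↦ r e` -/
def fromR (j : Q.J) : QR k Q →ₗ[QR k Q] Vm k Q j :=
  LinearMap.toSpanSingleton (QR k Q) (Vm k Q j) (show Vm k Q j from (1, 0))

lemma fromR_apply (j : Q.J) (r : QR k Q) :
    fromR j r = (show Vm k Q j from (r.d (Q.src j), r.m j)) := by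
  change ((r.d (Q.src j) * 1, r.m j * 1 + r.d (Q.tgt j) * 0) : k × k) = (r.d (Q.src j), r.m j)
  simp

instance Vm_projective (j : Q.J) : Module.Projective (QR k Q) (Vm k Q j) := by
  classical
  refine Module.Projective.of_split (toR j) (fromR j) ?_
  ext v
  obtain ⟨a, b⟩ := v
  change fromR j (toR j (show Vm k Q j from (a, b))) = (show Vm k Q j from (a, b))
  rw [fromR_apply]
  change (((if Q.src j = Q.src j then a else 0), (if j = j then b else 0)) : k × k) = (a, b)
  simp

/-- the inclusion `S_{tgt j} → Vm j` -/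
def inc (j : Q.J) : Sm k Q (Q.tgt j) →ₗ[QR k Q] Vm k Q j where
  toFun b := (show k × k from (0, b))
  map_add' a b := by
    have : ∀ a b : k, ((0, a + b) : k × k) = (0, a) + (0, b) := by intro a b; simp
    exact this a b
  map_smul' r b := by
    have : ∀ b : k, ((0, r.d (Q.tgt j) * b) : k × k) =
        (r.d (Q.src j) * 0, r.m j * 0 + r.d (Q.tgt j) * b) := by intro b; simp
    exact this b

/-- the projection `Vm j → S_{src j}` -/
def prj (j : Q.J) : Vm k Q j →ₗ[QR k Q] Sm k Q (Q.src j) where
  toFun v := v.1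
  map_add' _ _ := rfl
  map_smul' _ _ := rfl

lemma inc_injective (j : Q.J) : Function.Injective (inc (k := k) j) := by
  intro a b h
  exact congrArg (fun v : k × k => v.2) h

lemma prj_surjective (j : Q.J) : Function.Surjective (prj (k := k) j) := fun a => ⟨(a, 0), rfl⟩

lemma inc_prj_exact (j : Q.J) : Function.Exact (inc (k := k) j) (prj j) := by
  intro v
  obtain ⟨a, b⟩ := v
  constructor
  · intro h
    have ha : a = 0 := h
    subst ha
    exact ⟨b, rfl⟩
  · rintro ⟨c, hc⟩
    have : ((0, c) : k × k) = (a, b) := hc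
    exact (congrArg Prod.fst this).symm

open Classical in
/-- the idempotent `e_i` -/
noncomputable def e (i : Q.V) : QR k Q := ⟨fun i' => if i' = i then 1 else 0, fun _ => 0⟩

open Classical in
/-- the arrow `α_j` -/
noncomputable def ar (j : Q.J) : QR k Q := ⟨fun _ => 0, fun j' => if j' = j then 1 else 0⟩

open Classical in
/-- divide by `α_j` -/
noncomputable def dv (j : Q.J) (r : QR k Q) : QR k Q :=
  ⟨fun i' => if i' = Q.src j then r.m j else 0, fun _ => 0⟩

@[simp] lemma e_d_self (i : Q.V) : (e i : QR k Q).d i = 1 := by simp [e]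
lemma e_d_ne {i i' : Q.V} (h : i' ≠ i) : (e i : QR k Q).d i' = 0 := by simp [e, h]
@[simp] lemma e_m (i : Q.V) (j : Q.J) : (e i : QR k Q).m j = 0 := rfl
@[simp] lemma ar_d (j : Q.J) (i : Q.V) : (ar j : QR k Q).d i = 0 := rfl
@[simp] lemma ar_m_self (j : Q.J) : (ar j : QR k Q).m j = 1 := by simp [ar]
lemma ar_m_ne {j j' : Q.J} (h : j' ≠ j) : (ar j : QR k Q).m j' = 0 := by simp [ar, h]
@[simp] lemma dv_d_self (j : Q.J) (r : QR k Q) : (dv j r).d (Q.src j) = r.m j := by simp [dv]
lemma dv_d_ne {j : Q.J} {i : Q.V} (h : i ≠ Q.src j) (r : QR k Q) : (dv j r).d i = 0 := by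
  simp [dv, h]
@[simp] lemma dv_m (j j' : Q.J) (r : QR k Q) : (dv j r).m j' = 0 := rfl

lemma dv_spec {j j' : Q.J} (hj : Q.src j' = Q.tgt j) (r : QR k Q) (h1 : e (Q.tgt j) * r = r)
    (h2 : ar j' * r = 0) : ar j * dv j r = r := by
  have hd : ∀ i, r.d i = 0 := by
    intro i
    by_cases hi : i = Q.tgt j
    · have := congrArg (fun x : QR k Q => x.m j') h2
      simp only [QR.mul_m, ar_d, ar_m_self, QR.zero_m, zero_mul, zero_add, one_mul] at this
      rw [hi, ← hj]; exact this
    · have := congrArg (fun x : QR k Q => x.d i) h1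
      simp only [QR.mul_d, e_d_ne hi, zero_mul] at this
      exact this.symm
  have hm : ∀ i, i ≠ j → r.m i = 0 := by
    intro i hi
    have h' : Q.tgt i ≠ Q.tgt j := fun e => hi (Q.ht e)
    have := congrArg (fun x : QR k Q => x.m i) h1
    simp only [QR.mul_m, e_d_ne h', e_m, zero_mul, add_zero] at this
    exact this.symm
  apply QR.ext' <;> intro i
  · simp [hd]
  · by_cases hi : i = j
    · subst hi; simp
    · simp [ar_m_ne hi, hm i hi]

lemma exists_div (P : Type) [AddCommGroup P] [Module (QR k Q) P] [Module.Projective (QR k Q) P]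
    {j j' : Q.J} (hj : Q.src j' = Q.tgt j) (p : P) (h1 : (e (Q.tgt j) : QR k Q) • p = p)
    (h2 : (ar j' : QR k Q) • p = 0) :
    ∃ q : P, (ar j : QR k Q) • q = p := by
  obtain ⟨s, hs⟩ := (inferInstance : Module.Projective (QR k Q) P)
  have hs' : Finsupp.linearCombination (QR k Q) id (s p) = p := hs p
  refine ⟨Finsupp.linearCombination (QR k Q) id ((s p).mapRange (dv j) ?_), ?_⟩
  · apply QR.ext' <;> intro i <;> simp [dv]
  · rw [← map_smul]
    conv_rhs => rw [← hs']
    congr 1
    ext1 x
    rw [Finsupp.smul_apply, Finsupp.mapRange_apply, smul_eq_mul]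
    apply dv_spec hj
    · have := congrArg (fun f : P →₀ QR k Q => f x) (congrArg s h1)
      simpa using this
    · have := congrArg (fun f : P →₀ QR k Q => f x) (congrArg s h2)
      simpa using this

lemma ext_one {j j' : Q.J} (hj : Q.src j' = Q.tgt j) (P : Type) [AddCommGroup P]
    [Module (QR k Q) P] [Module.Projective (QR k Q) P] :
    Subsingleton (Ext (ModuleCat.of (QR k Q) (Sm k Q (Q.src j))) (ModuleCat.of (QR k Q) P) 1) := by
  classical
  refine PT.subsingleton_ext_one_of_extend (inc j) (prj j) (inc_injective j)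
    (prj_surjective j) (inc_prj_exact j) ?_
  intro φ
  let one : Sm k Q (Q.tgt j) := (1 : k)
  have hx : ∀ (r : QR k Q), r • φ one = φ (show Sm k Q (Q.tgt j) from r.d (Q.tgt j)) := by
    intro r
    rw [← map_smul]
    congr 1
    change r.d (Q.tgt j) * (1 : k) = _
    rw [mul_one]
  obtain ⟨q, hq⟩ := exists_div P hj (φ one)
    (by rw [hx, e_d_self])
    (by
      rw [hx]
      have : (show Sm k Q (Q.tgt j) from (ar j' : QR k Q).d (Q.tgt j)) = 0 := rfl
      rw [this, map_zero])
  refine ⟨(LinearMap.toSpanSingleton (QR k Q) P q) ∘ₗ toR j, ?_⟩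
  ext b
  change toR j (inc j b) • q = φ b
  have h1 : toR j (inc j b) = (QR.cst (show k from b) : QR k Q) * ar j := by
    apply QR.ext'
    · intro i
      change (if i = Q.src j then (0 : k) else 0) = _
      simp
    · intro i
      change (if i = j then (show k from b) else 0) = _
      by_cases h : i = j
      · subst h
        rw [if_pos rfl, QR.mul_m, ar_m_self, mul_one, ar_d, mul_zero, add_zero]
        rfl
      · simp [ar_m_ne h, h]
  rw [h1, mul_smul, hq, hx]
  rfl

lemma Vm_proj (j : Q.J) : Projective (ModuleCat.of (QR k Q) (Vm k Q j)) :=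
  IsProjective.iff_projective (Vm k Q j) |>.1 inferInstance

lemma ses_w (j : Q.J) : ModuleCat.ofHom (inc (k := k) j) ≫ ModuleCat.ofHom (prj j) = 0 := by
  ext x
  exact (inc_prj_exact (k := k) j).apply_apply_eq_zero x

lemma ses (j : Q.J) : (ShortComplex.mk (ModuleCat.ofHom (inc (k := k) j))
    (ModuleCat.ofHom (prj j)) (ses_w j)).ShortExact :=
  PT.sc_shortExact (inc (k := k) j) (prj j) (inc_injective (k := k) j)
  (prj_surjective j) (inc_prj_exact j)

/-- If every vertex of `T` starts an arrow ending in `T`, the simples at `T` are in `⊥P`. -/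
theorem ext_all (T : Set Q.V) (hT : ∀ v ∈ T, ∃ j, Q.src j = v ∧ Q.tgt j ∈ T) (n : ℕ) (v : Q.V)
    (hv : v ∈ T) (P : ModuleCat.{0} (QR k Q)) (hP : Projective P) :
    Subsingleton (Ext (ModuleCat.of (QR k Q) (Sm k Q v)) P (n + 1)) := by
  induction n generalizing v with
  | zero =>
    obtain ⟨j, rfl, hj2⟩ := hT v hv
    obtain ⟨j', hj', -⟩ := hT _ hj2
    have : Module.Projective (QR k Q) P := IsProjective.iff_projective P |>.2 hP
    exact ext_one hj' P
  | succ n ih =>
    obtain ⟨j, rfl, hj2⟩ := hT v hv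
    exact PT.shift_down _ _ (ses_w j) (ses j) (n + 1) (by omega) (PT.proj_sub (Vm_proj j) _ (by omega))
      (ih _ hj2)

lemma not_projective (j : Q.J) : ¬ Module.Projective (QR k Q) (Sm k Q (Q.src j)) := by
  intro hP
  let g : QR k Q →ₗ[QR k Q] Sm k Q (Q.src j) :=
    LinearMap.toSpanSingleton (QR k Q) (Sm k Q (Q.src j)) (1 : k)
  have hg : ∀ r : QR k Q, g r = r.d (Q.src j) := by
    intro r
    change r.d (Q.src j) * (1 : k) = r.d (Q.src j)
    rw [mul_one]
  have hsurj : Function.Surjective g := by
    intro a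
    exact ⟨QR.cst (show k from a), hg _⟩
  obtain ⟨s, hs⟩ := Module.projective_lifting_property g
    (LinearMap.id (R := QR k Q) (M := Sm k Q (Q.src j))) hsurj
  let one : Sm k Q (Q.src j) := (1 : k)
  have h1 : g (s one) = one := LinearMap.congr_fun hs one
  have h2 : (ar j : QR k Q) * s one = 0 := by
    have : (ar j : QR k Q) • s one = s ((ar j : QR k Q) • one) := (map_smul s _ _).symm
    rw [smul_eq_mul] at this
    rw [this]
    have h0 : (ar j : QR k Q) • one = 0 := by
      change (0 : k) * 1 = 0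
      simp
    rw [h0, map_zero]
  have h3 := congrArg (fun x : QR k Q => x.m j) h2
  simp at h3
  rw [hg, h3] at h1
  exact one_ne_zero (α := k) h1.symm

/-- The simple module at a vertex that starts no arrow is projective. -/
lemma Sm_projective {v : Q.V} (hv : ∀ j, Q.src j ≠ v) : Module.Projective (QR k Q) (Sm k Q v) := by
  classical
  let s : Sm k Q v →ₗ[QR k Q] QR k Q :=
    { toFun := fun a => ⟨fun i => if i = v then (show k from a) else 0, fun _ => 0⟩
      map_add' := fun a b => by
        apply QR.ext'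
        · intro i
          change (if i = v then (show k from a) + (show k from b) else 0) =
            (if i = v then (show k from a) else 0) + (if i = v then (show k from b) else 0)
          by_cases h : i = v <;> simp [h]
        · intro i; simp
      map_smul' := fun r a => by
        apply QR.ext'
        · intro i
          change (if i = v then r.d v * (show k from a) else 0) =
            r.d i * (if i = v then (show k from a) else 0)
          by_cases h : i = v
          · subst h; simp
          · simp [h]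
        · intro i
          have := hv i
          simp [this] }
  let g : QR k Q →ₗ[QR k Q] Sm k Q v :=
    LinearMap.toSpanSingleton (QR k Q) (Sm k Q v) (1 : k)
  have hg : ∀ r : QR k Q, g r = r.d v := by
    intro r
    change r.d v * (1 : k) = r.d v
    rw [mul_one]
  refine Module.Projective.of_split s g ?_
  ext a
  change g (s a) = a
  rw [hg]
  change (if v = v then (show k from a) else 0) = a
  rw [if_pos rfl]

lemma e_mul_eq {v : Q.V} (hv : ∀ j, Q.tgt j ≠ v) (r : QR k Q) :
    (e v : QR k Q) * r = (QR.cst (r.d v) : QR k Q) * e v := by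
  apply QR.ext' <;> intro j
  · by_cases h : j = v
    · subst h; simp
    · simp [e_d_ne h]
  · simp [e_d_ne (hv j)]

/-- Baer's criterion for the simple module at a vertex that ends no arrow -/
lemma Sm_baer {v : Q.V} (hv : ∀ j, Q.tgt j ≠ v) : Module.Baer (QR k Q) (Sm k Q v) := by
  intro I g
  have key := e_mul_eq (k := k) hv
  have hact : ∀ a : Sm k Q v, (e v : QR k Q) • a = a := by
    intro a
    change (e v : QR k Q).d v * (show k from a) = a
    rw [e_d_self, one_mul]
  by_cases hI : (e v : QR k Q) ∈ I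
  · refine ⟨LinearMap.toSpanSingleton (QR k Q) (Sm k Q v) (g ⟨e v, hI⟩), ?_⟩
    intro x hx
    have h1 : g ⟨x, hx⟩ = (e v : QR k Q) • g ⟨x, hx⟩ := (hact _).symm
    rw [h1, ← map_smul]
    have h2 : (e v : QR k Q) • (⟨x, hx⟩ : I) = (QR.cst (x.d v) : QR k Q) • ⟨e v, hI⟩ := by
      apply Subtype.ext
      exact key x
    rw [h2, map_smul]
    rfl
  · refine ⟨0, ?_⟩
    intro x hx
    have h1 : g ⟨x, hx⟩ = (e v : QR k Q) • g ⟨x, hx⟩ := (hact _).symm
    rw [h1, ← map_smul]
    have hmem : (QR.cst (x.d v) : QR k Q) * e v ∈ I := by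
      rw [← key]; exact I.mul_mem_left _ hx
    have h3 : x.d v = 0 := by
      by_contra hne
      apply hI
      have : (e v : QR k Q) = QR.cst (x.d v)⁻¹ * ((QR.cst (x.d v) : QR k Q) * e v) := by
        rw [← mul_assoc, ← map_mul, inv_mul_cancel₀ hne, map_one, one_mul]
      rw [this]
      exact I.mul_mem_left _ hmem
    have h2 : (e v : QR k Q) • (⟨x, hx⟩ : I) = 0 := by
      apply Subtype.ext
      change (e v : QR k Q) * x = 0
      rw [key, h3, map_zero, zero_mul]
    rw [h2, map_zero]
    rfl

/-- Baer's criterion for `V_j` -/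
lemma Vm_baer (j : Q.J) : Module.Baer (QR k Q) (Vm k Q j) := by
  intro I g
  -- the `k`-subspace `e_w I`
  let w := Q.tgt j
  let W : Submodule k (QR k Q) :=
    { carrier := {x | x ∈ I ∧ e w * x = x}
      zero_mem' := ⟨I.zero_mem, by simp⟩
      add_mem' := by
        rintro a b ⟨ha, ha'⟩ ⟨hb, hb'⟩
        exact ⟨I.add_mem ha hb, by rw [mul_add, ha', hb']⟩
      smul_mem' := by
        rintro c x ⟨hx, hx'⟩
        refine ⟨?_, ?_⟩
        · rw [Algebra.smul_def]; exact I.mul_mem_left _ hx
        · rw [Algebra.mul_smul_comm, hx'] }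
  let lam : W →ₗ[k] k :=
    { toFun := fun x => (show k × k from g ⟨x.1, x.2.1⟩).2
      map_add' := by
        intro a b
        have : g ⟨(a + b).1, (a + b).2.1⟩ = g ⟨a.1, a.2.1⟩ + g ⟨b.1, b.2.1⟩ := by
          rw [← map_add]; rfl
        rw [this]; rfl
      map_smul' := by
        intro c a
        have : g ⟨(c • a).1, (c • a).2.1⟩ = (QR.cst c : QR k Q) • g ⟨a.1, a.2.1⟩ := by
          rw [← map_smul]
          congr 1
        rw [this]
        obtain ⟨p, q⟩ := g ⟨a.1, a.2.1⟩
        change (0 : k) * p + c * q = c • q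
        simp }
  obtain ⟨Lam, hLam⟩ := LinearMap.exists_extend lam
  have hL : ∀ (x : QR k Q) (hx : x ∈ I) (hx' : e w * x = x),
      Lam x = (show k × k from g ⟨x, hx⟩).2 := by
    intro x hx hx'
    have := LinearMap.congr_fun hLam ⟨x, hx, hx'⟩
    exact this
  refine ⟨LinearMap.toSpanSingleton (QR k Q) (Vm k Q j)
    (show Vm k Q j from (Lam (ar j), Lam (e w))), ?_⟩
  intro x hx
  -- components
  obtain ⟨p, q, hpq⟩ : ∃ p q : k, g ⟨x, hx⟩ = (show Vm k Q j from (p, q)) :=
    ⟨(show k × k from g ⟨x, hx⟩).1, (show k × k from g ⟨x, hx⟩).2, rfl⟩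
  rw [hpq]
  change x • (show Vm k Q j from (Lam (ar j), Lam (e w))) = _
  rw [Vm_smul]
  have harI : ar j * x ∈ I := I.mul_mem_left _ hx
  have heI : e w * x ∈ I := I.mul_mem_left _ hx
  have hp : Lam (ar j * x) = p := by
    rw [hL (ar j * x) harI (by
      rw [← mul_assoc]
      congr 1
      apply QR.ext' <;> intro i
      · simp
      · by_cases h : i = j
        · subst h; simp [w]
        · simp [ar_m_ne h])]
    have : g ⟨ar j * x, harI⟩ = (ar j : QR k Q) • g ⟨x, hx⟩ := by
      rw [← map_smul]; rfl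
    rw [this, hpq, Vm_smul]
    simp
  have hq : Lam (e w * x) = q := by
    rw [hL (e w * x) heI (by
      rw [← mul_assoc]
      congr 1
      apply QR.ext' <;> intro i
      · by_cases h : i = w
        · subst h; simp
        · simp [e_d_ne h]
      · simp)]
    have : g ⟨e w * x, heI⟩ = (e w : QR k Q) • g ⟨x, hx⟩ := by
      rw [← map_smul]; rfl
    rw [this, hpq, Vm_smul]
    simp [w]
  have h1 : (ar j : QR k Q) * x = (x.d (Q.src j)) • (ar j : QR k Q) := by
    rw [Algebra.smul_def, QR.algebraMap_eq]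
    apply QR.ext' <;> intro i
    · simp
    · by_cases h : i = j
      · subst h; simp
      · simp [ar_m_ne h]
  have h2 : (e w : QR k Q) * x = (x.m j) • (ar j : QR k Q) + (x.d w) • (e w : QR k Q) := by
    rw [Algebra.smul_def, Algebra.smul_def, QR.algebraMap_eq, QR.algebraMap_eq]
    apply QR.ext' <;> intro i
    · by_cases h : i = w
      · subst h; simp
      · simp [e_d_ne h]
    · by_cases h : i = j
      · subst h; simp [w]
      · have h' : Q.tgt i ≠ w := fun e => h (Q.ht e)
        simp [ar_m_ne h, e_d_ne h']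
  rw [h1, map_smul, smul_eq_mul] at hp
  rw [h2, map_add, map_smul, map_smul, smul_eq_mul, smul_eq_mul] at hq
  have hfin : ((x.d (Q.src j) * Lam (ar j), x.m j * Lam (ar j) + x.d (Q.tgt j) * Lam (e w)) : k × k)
      = (p, q) := by
    rw [hp, hq]
  exact hfin

lemma Vm_inj (j : Q.J) : Injective (ModuleCat.of (QR k Q) (Vm k Q j)) := by
  have : Module.Injective (QR k Q) (Vm k Q j) := Module.Baer.injective (Vm_baer j)
  exact Module.injective_object_of_injective_module (QR k Q) (Vm k Q j)

lemma Sm_inj {v : Q.V} (hv : ∀ j, Q.tgt j ≠ v) : Injective (ModuleCat.of (QR k Q) (Sm k Q v)) := by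
  have : Module.Injective (QR k Q) (Sm k Q v) := Module.Baer.injective (Sm_baer hv)
  exact Module.injective_object_of_injective_module (QR k Q) (Sm k Q v)

/-- The simple module at a vertex that ends an arrow is not injective. -/
lemma not_injective (j : Q.J) : ¬ Injective (ModuleCat.of (QR k Q) (Sm k Q (Q.tgt j))) := by
  intro hI
  have hmono : Mono (ModuleCat.ofHom (inc (k := k) j)) :=
    (ModuleCat.mono_iff_injective _).2 (inc_injective j)
  obtain ⟨ρ, hρ⟩ := hI.factors (𝟙 (ModuleCat.of (QR k Q) (Sm k Q (Q.tgt j))))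
    (ModuleCat.ofHom (inc (k := k) j))
  have h1 : ∀ a : Sm k Q (Q.tgt j), ρ.hom (inc j a) = a := fun a =>
    congrArg (fun t => t.hom a) hρ
  let one : Sm k Q (Q.tgt j) := (1 : k)
  have h2 : inc j one = (ar j : QR k Q) • (show Vm k Q j from (1, 0)) := by
    rw [Vm_smul]
    change ((0, 1) : k × k) = ((ar j : QR k Q).d (Q.src j) * 1,
      (ar j : QR k Q).m j * 1 + (ar j : QR k Q).d (Q.tgt j) * 0)
    simp
  have h3 : ρ.hom (inc j one) = 0 := by
    rw [h2]
    refine (map_smul ρ.hom _ _).trans ?_
    change (ar j : QR k Q).d (Q.tgt j) * _ = (0 : k)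
    rw [ar_d]
    exact zero_mul (M₀ := k) _
  rw [h1] at h3
  exact one_ne_zero (α := k) h3

end Pool.Agent.KS6_19.PQ
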