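import Mathlib
import Pool.Agent.KS6_19.PT
import Pool.Agent.KS6_19.PQ

/-!
# A ring over which all triples of dimensions occur

The quiver is the disjoint union, over all pairs `(a, c)` in `{0, 1, …, ∞}²`, of the line with a
distinguished vertex `0` preceded by `a` arrows and followed by `c` arrows.
-/

namespace Pool.Agent.KS6_19.PR

open CategoryTheory Abelian Limits Pool.Agent.KS6_19.PT Pool.Agent.KS6_19.PQ

/-- vertices: a pair `(a, c)` and a position -/
abbrev VV : Type := (ℕ∞ × ℕ∞) × ℤ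

/-- there is an arrow starting at `v` -/
def Cond (v : VV) : Prop :=
  (((-v.2).toNat : ℕ) : ℕ∞) ≤ v.1.1 ∧ (((v.2 + 1).toNat : ℕ) : ℕ∞) ≤ v.1.2

/-- the quiver -/
abbrev QQ : Qv where
  V := VV
  J := {v : VV // Cond v}
  src := Subtype.val
  tgt := fun j => (j.1.1, j.1.2 + 1)
  hs := Subtype.val_injective
  ht := by
    rintro ⟨⟨t, z⟩, h⟩ ⟨⟨t', z'⟩, h'⟩ he
    have h1 : t = t' := congrArg (fun x : VV => x.1) he
    have h2 : z + 1 = z' + 1 := congrArg (fun x : VV => x.2) he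
    have h3 : z = z' := by omega
    subst h1; subst h3; rfl

variable (k : Type) [Field k]

/-- the simple module at `v` -/
abbrev S (v : VV) : ModuleCat.{0} (QR k QQ) := ModuleCat.of (QR k QQ) (Sm k QQ v)

lemma enat_not_le (x : ℕ∞) (z : ℕ) (h : ¬ ((z + 1 : ℕ) : ℕ∞) ≤ x) : x ≤ z := by
  cases x with
  | top => exact absurd le_top h
  | coe x =>
    have h' : ¬ (z + 1 ≤ x) := fun hh => h (by exact_mod_cast hh)
    have : x ≤ z := by omega
    exact_mod_cast this

lemma enat_not_le' (x : ℕ∞) (z : ℕ) (h : ((z + 1 : ℕ) : ℕ∞) ≤ x) : ¬ x ≤ z := by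
  intro hx
  have h1 := h.trans hx
  have : z + 1 ≤ z := by exact_mod_cast h1
  omega

lemma cond_pos (t : ℕ∞ × ℕ∞) (z : ℕ) : Cond (t, (z : ℤ)) ↔ ((z + 1 : ℕ) : ℕ∞) ≤ t.2 := by
  have h1 : (-(z : ℤ)).toNat = 0 := by omega
  have h2 : ((z : ℤ) + 1).toNat = z + 1 := by omega
  unfold Cond
  simp only [h1, h2]
  simp

lemma cond_neg (t : ℕ∞ × ℕ∞) (z : ℕ) : Cond (t, -(z : ℤ) - 1) ↔ ((z + 1 : ℕ) : ℕ∞) ≤ t.1 := by
  have h1 : (-(-(z : ℤ) - 1)).toNat = z + 1 := by omega
  have h2 : (-(z : ℤ) - 1 + 1).toNat = 0 := by omega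
  unfold Cond
  simp only [h1, h2]
  simp

lemma S_proj_of_not {v : VV} (h : ¬ Cond v) : Projective (S k v) := by
  have : Module.Projective (QR k QQ) (Sm k QQ v) := by
    apply Sm_projective
    rintro ⟨w, hw⟩ he
    exact h (he ▸ hw)
  exact IsProjective.iff_projective (Sm k QQ v) |>.1 this

theorem pd_S (n z : ℕ) (t : ℕ∞ × ℕ∞) :
    HasProjectiveDimensionLT (S k (t, (z : ℤ))) (n + 1) ↔ t.2 ≤ ((z + n : ℕ) : ℕ∞) := by
  induction n generalizing z with
  | zero =>
    by_cases h : Cond (t, (z : ℤ))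
    · have h1 := enat_not_le' t.2 z ((cond_pos t z).1 h)
      constructor
      · intro hp
        have hp' : Projective (S k (t, (z : ℤ))) := projective_iff_hasProjectiveDimensionLT_one.2 hp
        exact absurd (IsProjective.iff_projective (Sm k QQ (t, (z : ℤ))) |>.2 hp')
          (not_projective (k := k) (Q := QQ) ⟨(t, (z : ℤ)), h⟩)
      · intro hp
        exact absurd hp h1
    · have h1 := enat_not_le t.2 z (fun hh => h ((cond_pos t z).2 hh))
      exact ⟨fun _ => h1, fun _ => projective_iff_hasProjectiveDimensionLT_one.1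
        (S_proj_of_not k h)⟩
  | succ n ih =>
    by_cases h : Cond (t, (z : ℤ))
    · have hS := ses (k := k) (Q := QQ) ⟨(t, (z : ℤ)), h⟩
      have h2 := hS.hasProjectiveDimensionLT_X₃_iff n (Vm_proj _)
      have h3 := ih (z + 1)
      have h4 : ((z + 1 : ℕ) : ℤ) = (z : ℤ) + 1 := by push_cast; rfl
      rw [h4] at h3
      have h5 : z + (n + 1) = z + 1 + n := by omega
      rw [h5]
      exact h2.trans h3
    · have h1 := enat_not_le t.2 z (fun hh => h ((cond_pos t z).2 hh))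
      have hP := S_proj_of_not k h
      refine ⟨fun _ => h1.trans (by exact_mod_cast Nat.le_add_right z (n + 1)), fun _ => ?_⟩
      exact hasProjectiveDimensionLT_of_ge (S k (t, (z : ℤ))) 1 (n + 1 + 1) (by omega)

lemma S_inj_of_not {t : ℕ∞ × ℕ∞} {z : ℤ} (h : ¬ Cond (t, z - 1)) : Injective (S k (t, z)) := by
  apply Sm_inj
  rintro ⟨⟨t', w⟩, hw⟩ he
  have h1 : t' = t := congrArg (fun x : VV => x.1) he
  have h2 : w + 1 = z := congrArg (fun x : VV => x.2) he
  have h3 : w = z - 1 := by omega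
  subst h1; subst h3
  exact h hw

lemma tgt_eq {t : ℕ∞ × ℕ∞} {z : ℤ} (h : Cond (t, z - 1)) :
    QQ.tgt ⟨(t, z - 1), h⟩ = (t, z) := by
  change (t, z - 1 + 1) = (t, z)
  rw [sub_add_cancel]

theorem id_S (n z : ℕ) (t : ℕ∞ × ℕ∞) :
    HasInjectiveDimensionLT (S k (t, -(z : ℤ))) (n + 1) ↔ t.1 ≤ ((z + n : ℕ) : ℕ∞) := by
  induction n generalizing z with
  | zero =>
    by_cases h : Cond (t, -(z : ℤ) - 1)
    · have h1 := enat_not_le' t.1 z ((cond_neg t z).1 h)
      constructor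
      · intro hp
        have hp' : Injective (S k (t, -(z : ℤ))) := injective_iff_hasInjectiveDimensionLT_one.2 hp
        have h2 := not_injective (k := k) (Q := QQ) ⟨(t, -(z : ℤ) - 1), h⟩
        rw [tgt_eq h] at h2
        exact absurd hp' h2
      · intro hp
        exact absurd hp h1
    · have h1 := enat_not_le t.1 z (fun hh => h ((cond_neg t z).2 hh))
      exact ⟨fun _ => h1, fun _ => injective_iff_hasInjectiveDimensionLT_one.1
        (S_inj_of_not k h)⟩
  | succ n ih =>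
    by_cases h : Cond (t, -(z : ℤ) - 1)
    · have hS := ses (k := k) (Q := QQ) ⟨(t, -(z : ℤ) - 1), h⟩
      have h2 := hS.hasInjectiveDimensionLT_X₃_iff n (Vm_inj _)
      have h3 := ih (z + 1)
      have h4 : -((z + 1 : ℕ) : ℤ) = -(z : ℤ) - 1 := by push_cast; ring
      rw [h4] at h3
      have h5 : z + (n + 1) = z + 1 + n := by omega
      rw [h5, ← h3]
      have h6 : HasInjectiveDimensionLT (ModuleCat.of (QR k QQ)
          (Sm k QQ (QQ.tgt ⟨(t, -(z : ℤ) - 1), h⟩))) (n + 2) ↔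
          HasInjectiveDimensionLT (S k (t, -(z : ℤ) - 1)) (n + 1) := h2.symm
      rw [tgt_eq h] at h6
      exact h6
    · have h1 := enat_not_le t.1 z (fun hh => h ((cond_neg t z).2 hh))
      have hP := S_inj_of_not k h
      refine ⟨fun _ => h1.trans (by exact_mod_cast Nat.le_add_right z (n + 1)), fun _ => ?_⟩
      exact hasInjectiveDimensionLT_of_ge (S k (t, -(z : ℤ))) 1 (n + 1 + 1) (by omega)

theorem pd_S0 (n : ℕ) (a c : ℕ∞) :
    HasProjectiveDimensionLT (S k ((a, c), 0)) (n + 1) ↔ c ≤ (n : ℕ∞) := by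
  have := pd_S k n 0 (a, c)
  simpa using this

theorem id_S0 (n : ℕ) (a c : ℕ∞) :
    HasInjectiveDimensionLT (S k ((a, c), 0)) (n + 1) ↔ a ≤ (n : ℕ∞) := by
  have := id_S k n 0 (a, c)
  simpa using this

theorem extVan_top (a : ℕ∞) (n : ℕ) : ExtVan n (S k ((a, ⊤), 0)) := by
  have h0 : ExtVan 0 (S k ((a, ⊤), 0)) := by
    intro P hP i hi
    obtain ⟨m, rfl⟩ : ∃ m, i = m + 1 := ⟨i - 1, by omega⟩
    refine ext_all (Q := QQ) {v : VV | v.1.2 = ⊤ ∧ (((-v.2).toNat : ℕ) : ℕ∞) ≤ v.1.1} ?_ m _ ?_ P hP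
    · rintro ⟨⟨a', c'⟩, z⟩ ⟨h1, h2⟩
      have h1' : c' = ⊤ := h1
      subst h1'
      refine ⟨⟨((a', ⊤), z), h2, le_top⟩, rfl, rfl, ?_⟩
      refine le_trans ?_ h2
      have : (-(z + 1)).toNat ≤ (-z).toNat := by omega
      exact_mod_cast this
    · refine ⟨rfl, ?_⟩
      simp
  exact h0.mono (by omega)

theorem extVan_fin (a : ℕ∞) (b n : ℕ) : ExtVan n (S k ((a, (b : ℕ∞)), 0)) ↔ (b : ℕ∞) ≤ (n : ℕ∞) := by
  rw [← pd_S0 k n a b]
  exact ⟨pdLT_of_extVan b n _ ((pd_S0 k b a b).2 le_rfl), extVan_of_pdLT⟩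

/-- the product of the simple modules `S ((0, j), 0)` -/
abbrev PW : Type := ∀ j : ℕ, Sm k QQ ((0, (j : ℕ∞)), (0 : ℤ))

lemma PW_baer : Module.Baer (QR k QQ) (PW k) := by
  intro I g
  have hb : ∀ j : ℕ, ∃ g' : QR k QQ →ₗ[QR k QQ] Sm k QQ ((0, (j : ℕ∞)), (0 : ℤ)),
      ∀ (x : QR k QQ) (mem : x ∈ I), g' x = g ⟨x, mem⟩ j := by
    intro j
    have hB : Module.Baer (QR k QQ) (Sm k QQ ((0, (j : ℕ∞)), (0 : ℤ))) := by
      apply Sm_baer
      rintro ⟨⟨t', w⟩, hw⟩ he
      have h1 : t' = (0, (j : ℕ∞)) := congrArg (fun x : VV => x.1) he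
      have h2 : w + 1 = 0 := congrArg (fun x : VV => x.2) he
      have h3 : w = -((0 : ℕ) : ℤ) - 1 := by push_cast; omega
      subst h1
      rw [h3] at hw
      have := (cond_neg (0, (j : ℕ∞)) 0).1 hw
      simp at this
    obtain ⟨g', hg'⟩ := hB I (LinearMap.proj j ∘ₗ g)
    exact ⟨g', fun x mem => hg' x mem⟩
  choose g' hg' using hb
  refine ⟨LinearMap.pi g', fun x mem => ?_⟩
  ext j
  exact hg' j x mem

theorem exists_W (b : ℕ∞) : ∃ W : ModuleCat.{0} (QR k QQ), Injective W ∧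
    ∀ n : ℕ, ExtVan n W ↔ b ≤ (n : ℕ∞) := by
  cases b with
  | top =>
    refine ⟨ModuleCat.of (QR k QQ) (PW k), ?_, fun n => ⟨fun h => ?_, fun h => ?_⟩⟩
    · have : Module.Injective (QR k QQ) (PW k) := Module.Baer.injective (PW_baer k)
      exact Module.injective_object_of_injective_module (QR k QQ) (PW k)
    · classical
      have r : Retract (S k ((0, ((n + 1 : ℕ) : ℕ∞)), 0)) (ModuleCat.of (QR k QQ) (PW k)) :=
        ⟨ModuleCat.ofHom (LinearMap.single (QR k QQ)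
          (fun j : ℕ => Sm k QQ ((0, (j : ℕ∞)), (0 : ℤ))) (n + 1)),
          ModuleCat.ofHom (LinearMap.proj (n + 1)), by
            ext x
            change (Pi.single (n + 1) x : PW k) (n + 1) = x
            simp⟩
      have h1 := (extVan_fin k 0 (n + 1) n).1 (h.retract r)
      have : n + 1 ≤ n := by exact_mod_cast h1
      omega
    · exact absurd (top_le_iff.1 h) (by simp)
  | coe b =>
    refine ⟨S k ((0, (b : ℕ∞)), 0), ?_, fun n => extVan_fin k 0 b n⟩
    exact injective_iff_hasInjectiveDimensionLT_one.2 ((id_S0 k 0 0 b).2 (by simp))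

/-- All triples are realised. -/
theorem exists_module (a b c : ℕ∞) (h : c = b ∨ c = ⊤) :
    ∃ A : ModuleCat.{0} (QR k QQ), Nontrivial A ∧ injectiveDimension A = (a : WithBot ℕ∞) ∧
      perpDim A = b ∧ projectiveDimension A = (c : WithBot ℕ∞) := by
  by_cases hc : c = ⊤
  · subst hc
    obtain ⟨W, hW, hW2⟩ := exists_W k b
    have hnt : Nontrivial (S k ((a, ⊤), 0) ⊞ W : ModuleCat.{0} (QR k QQ)) := by
      by_contra hn
      rw [not_nontrivial_iff_subsingleton] at hn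
      have hx : ∀ x : S k ((a, ⊤), 0), x = 0 := by
        intro x
        have h1 : (biprod.fst : (S k ((a, ⊤), 0)) ⊞ W ⟶ _).hom
            ((biprod.inl : (S k ((a, ⊤), 0)) ⟶ _ ⊞ W).hom x) = x :=
          congrArg (fun t => t.hom x) (biprod.inl_fst : (biprod.inl :
            (S k ((a, ⊤), 0)) ⟶ _ ⊞ W) ≫ biprod.fst = _)
        rw [← h1, hn.elim ((biprod.inl : (S k ((a, ⊤), 0)) ⟶ _ ⊞ W).hom x) 0, map_zero]
      obtain ⟨x, y, hxy⟩ := exists_pair_ne (Sm k QQ ((a, ⊤), (0 : ℤ)))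
      exact hxy ((hx x).trans (hx y).symm)
    have hWL : ∀ n : ℕ, HasInjectiveDimensionLT W (n + 1) := fun n =>
      hasInjectiveDimensionLT_of_ge W 1 (n + 1) (by omega)
    refine ⟨S k ((a, ⊤), 0) ⊞ W, hnt, ?_, ?_, ?_⟩
    · refine id_eq_of hnt fun n => ?_
      rw [idLT_biprod, id_S0]
      exact ⟨fun h => h.1, fun h => ⟨h, hWL n⟩⟩
    · refine perpDim_eq_of fun n => ?_
      rw [extVan_biprod, hW2]
      exact ⟨fun h => h.2, fun h => ⟨extVan_top k a n, h⟩⟩
    · refine pd_eq_of hnt fun n => ?_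
      rw [pdLT_biprod, pd_S0]
      refine ⟨fun h => h.1, fun h => ?_⟩
      exact absurd (top_le_iff.1 h) (by simp)
  · have hcb : c = b := h.resolve_right hc
    subst hcb
    obtain ⟨m, rfl⟩ := ENat.ne_top_iff_exists.1 hc
    have hnt : Nontrivial (S k ((a, (m : ℕ∞)), 0)) := by
      change Nontrivial (Sm k QQ ((a, (m : ℕ∞)), (0 : ℤ)))
      infer_instance
    refine ⟨S k ((a, (m : ℕ∞)), 0), hnt, ?_, ?_, ?_⟩
    · exact id_eq_of hnt fun n => id_S0 k n a m
    · exact perpDim_eq_of fun n => extVan_fin k a m n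
    · exact pd_eq_of hnt fun n => pd_S0 k n a m

end Pool.Agent.KS6_19.PR
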